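import Pool.Agent.Q40.LP.Stmts

set_option autoImplicit false

open Set Filter Topology MeasureTheory

namespace Pool.Agent.Q40.LP.TaskInt

theorem log_sq_le (r t : ℝ) (ht : 0 < t) (htr : t < r) : Real.log t ^ 2 ≤ (4 + r ^ 3) * t ^ (-(1 : ℝ)) := by
  have hr : 0 < r := ht.trans htr
  have h0 : 0 < t ^ (-(1 : ℝ)) := Real.rpow_pos_of_pos ht _
  rw [Real.rpow_neg_one, ← div_eq_mul_inv, le_div_iff₀ ht]
  rcases le_total t 1 with h | h
  · have h1 := Real.abs_log_mul_self_rpow_lt t (1 / 2) ht h (by norm_num)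
    have h2 : (Real.log t * t ^ (1 / 2 : ℝ)) ^ 2 ≤ (1 / (1 / 2)) ^ 2 := by
      rw [← sq_abs]
      exact pow_le_pow_left₀ (abs_nonneg _) h1.le 2
    have h3 : (t ^ (1 / 2 : ℝ)) ^ 2 = t := by
      rw [← Real.rpow_natCast, ← Real.rpow_mul ht.le]
      norm_num
    rw [mul_pow, h3] at h2
    have : 0 < r ^ 3 := by positivity
    norm_num at h2
    linarith
  · have h1 : Real.log t ≤ r := by
      have := Real.log_le_sub_one_of_pos ht
      linarith
    have h2 : 0 ≤ Real.log t := Real.log_nonneg h
    have h3 : Real.log t ^ 2 ≤ r ^ 2 := pow_le_pow_left₀ h2 h1 2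
    have h4 : Real.log t ^ 2 * t ≤ r ^ 2 * r := mul_le_mul h3 htr.le ht.le (by positivity)
    have h5 : r ^ 2 * r = r ^ 3 := by ring
    linarith

theorem log_sq_int (r : ℝ) : IntegrableOn (fun z : ℂ => Real.log (1 / ‖z‖) ^ 2) (Metric.ball 0 r) := by
  refine integrableOn_ball_of_norm_le_rpow (E := ℂ) (C := 4 + r ^ 3) (α := 1) ?_ ?_ ?_ ?_
  · rw [Complex.finrank_real_complex]; norm_num
  · rw [Complex.finrank_real_complex]; norm_num
  · rw [ae_restrict_iff' measurableSet_ball]
    filter_upwards with z hz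
    rw [Metric.mem_ball, dist_zero_right] at hz
    rw [Real.norm_eq_abs, abs_of_nonneg (sq_nonneg _), one_div, Real.log_inv, neg_sq]
    rcases eq_or_lt_of_le (norm_nonneg z) with h | h
    · rw [← h, Real.log_zero, Real.zero_rpow (by norm_num)]
      norm_num
    · exact log_sq_le r ‖z‖ h hz
  · apply Measurable.aestronglyMeasurable
    fun_prop

theorem memLp_kernel (r : ℝ) (x : ℂ) :
    MemLp (fun y : ℂ => (Metric.ball (0 : ℂ) r).indicator (fun z => Real.log (1 / ‖z‖)) (x - y)) 2 volume := by
  have h1 : MemLp ((Metric.ball (0 : ℂ) r).indicator (fun z : ℂ => Real.log (1 / ‖z‖))) 2 volume := by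
    rw [memLp_two_iff_integrable_sq]
    · have h2 := (integrable_indicator_iff measurableSet_ball).mpr (log_sq_int r)
      refine h2.congr (Filter.Eventually.of_forall fun z => ?_)
      by_cases hz : z ∈ Metric.ball (0 : ℂ) r
      · simp only [indicator_of_mem hz]
      · simp only [indicator_of_notMem hz]
        norm_num
    · apply Measurable.aestronglyMeasurable
      apply Measurable.indicator _ measurableSet_ball
      fun_prop
  exact h1.comp_measurePreserving (Measure.measurePreserving_sub_left volume x)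

theorem main : Pool.Agent.Q40.LP.TaskInt := by
  rintro u ⟨hu, R, hR⟩ x
  have h1 := memLp_kernel (‖x‖ + |R| + 1) x
  have h2 := h1.integrable_mul hu
  refine h2.congr (Filter.Eventually.of_forall fun y => ?_)
  simp only [Pi.mul_apply]
  by_cases hy : R < ‖y‖
  · rw [hR y hy, mul_zero, mul_zero]
  · have : x - y ∈ Metric.ball (0 : ℂ) (‖x‖ + |R| + 1) := by
      rw [Metric.mem_ball, dist_zero_right]
      have h3 := norm_sub_le x y
      have h4 := le_abs_self R
      push Not at hy
      linarith
    rw [indicator_of_mem this]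

end Pool.Agent.Q40.LP.TaskInt
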