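import Pool.Agent.Q40.LP.Stmts

open Set Filter Topology MeasureTheory

namespace Pool.Agent.Q40.LP.TaskRefl

lemma nn {n : ℂ} (hn : ‖n‖ = 1) : n.re ^ 2 + n.im ^ 2 = 1 := by
  have := Complex.sq_norm n
  rw [hn, Complex.normSq_apply] at this
  nlinarith

lemma re_refl (n : ℂ) (c : ℝ) (x : ℂ) : (refl n c x).re = x.re - 2 * lin n c x * n.re := by
  simp [refl]

lemma im_refl (n : ℂ) (c : ℝ) (x : ℂ) : (refl n c x).im = x.im - 2 * lin n c x * n.im := by
  simp [refl]

lemma lin_refl {n : ℂ} (hn : ‖n‖ = 1) (c : ℝ) (x : ℂ) : lin n c (refl n c x) = - lin n c x := by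
  have h := nn hn
  have h1 : lin n c (refl n c x) =
      n.re * (x.re - 2 * lin n c x * n.re) + n.im * (x.im - 2 * lin n c x * n.im) - c := by
    rw [← re_refl, ← im_refl]; rfl
  rw [h1]
  have h2 : lin n c x = n.re * x.re + n.im * x.im - c := rfl
  have h3 : n.re * (x.re - 2 * lin n c x * n.re) + n.im * (x.im - 2 * lin n c x * n.im) - c =
      (n.re * x.re + n.im * x.im - c) - 2 * lin n c x * (n.re ^ 2 + n.im ^ 2) := by ring
  rw [h3, h, ← h2]
  ring

lemma refl_refl {n : ℂ} (hn : ‖n‖ = 1) (c : ℝ) (x : ℂ) : refl n c (refl n c x) = x := by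
  have h : refl n c (refl n c x) = refl n c x - (2 * lin n c (refl n c x) : ℝ) * n := rfl
  rw [h, lin_refl hn]
  simp [refl]

lemma norm_refl {n : ℂ} (hn : ‖n‖ = 1) (c : ℝ) (x y : ℂ) :
    ‖refl n c x - refl n c y‖ = ‖x - y‖ := by
  have h := nn hn
  have h1 : ‖refl n c x - refl n c y‖ ^ 2 = ‖x - y‖ ^ 2 := by
    rw [Complex.sq_norm, Complex.sq_norm, Complex.normSq_apply, Complex.normSq_apply,
      Complex.sub_re, Complex.sub_im, Complex.sub_re, Complex.sub_im, re_refl, re_refl, im_refl,
      im_refl]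
    have hd : lin n c x - lin n c y = n.re * (x.re - y.re) + n.im * (x.im - y.im) := by
      unfold lin; ring
    set a := x.re - y.re with ha
    set b := x.im - y.im with hb
    set d := lin n c x - lin n c y with hdd
    have e1 : x.re - 2 * lin n c x * n.re - (y.re - 2 * lin n c y * n.re) = a - 2 * d * n.re := by
      rw [ha, hdd]; ring
    have e2 : x.im - 2 * lin n c x * n.im - (y.im - 2 * lin n c y * n.im) = b - 2 * d * n.im := by
      rw [hb, hdd]; ring
    rw [e1, e2]
    have e3 : (a - 2 * d * n.re) * (a - 2 * d * n.re) + (b - 2 * d * n.im) * (b - 2 * d * n.im) =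
      a * a + b * b - 4 * d * (n.re * a + n.im * b) + 4 * d ^ 2 * (n.re ^ 2 + n.im ^ 2) := by ring
    rw [e3, h, ← hd]
    ring
  exact (sq_eq_sq₀ (norm_nonneg _) (norm_nonneg _)).1 h1

lemma cont (n : ℂ) (c : ℝ) : Continuous (refl n c) := by
  unfold refl lin
  fun_prop

/-- the linear part -/
noncomputable def R (n : ℂ) (hn : ‖n‖ = 1) : ℂ ≃ₗᵢ[ℝ] ℂ where
  toFun := refl n 0
  invFun := refl n 0
  left_inv := refl_refl hn 0
  right_inv := refl_refl hn 0
  map_add' x y := by
    apply Complex.ext
    · rw [Complex.add_re, re_refl, re_refl, re_refl]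
      simp only [lin, Complex.add_re, Complex.add_im]
      ring
    · rw [Complex.add_im, im_refl, im_refl, im_refl]
      simp only [lin, Complex.add_re, Complex.add_im]
      ring
  map_smul' a x := by
    apply Complex.ext
    · simp only [RingHom.id_apply, Complex.smul_re, re_refl, smul_eq_mul, lin, Complex.smul_im]
      ring
    · simp only [RingHom.id_apply, Complex.smul_im, im_refl, smul_eq_mul, lin, Complex.smul_re]
      ring
  norm_map' x := by
    have h := norm_refl hn 0 x 0
    have h0 : refl n 0 0 = 0 := by simp [refl, lin]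
    rw [h0, sub_zero, sub_zero] at h
    exact h

lemma mp {n : ℂ} (hn : ‖n‖ = 1) (c : ℝ) : MeasurePreserving (refl n c) volume volume := by
  have h1 : MeasurePreserving (R n hn) volume volume := (R n hn).measurePreserving
  have h2 := measurePreserving_add_right (volume : Measure ℂ) ((2 * c : ℝ) * n)
  have h3 := h2.comp h1
  have h4 : refl n c = (fun x => x + ((2 * c : ℝ) * n)) ∘ (R n hn) := by
    funext x
    change refl n c x = refl n 0 x + ((2 * c : ℝ) * n)
    apply Complex.ext
    · rw [Complex.add_re, re_refl, re_refl, Complex.re_ofReal_mul]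
      simp only [lin]
      ring
    · rw [Complex.add_im, im_refl, im_refl, Complex.im_ofReal_mul]
      simp only [lin]
      ring
  rw [h4]
  exact h3

/-- the line -/
noncomputable def line (n : ℂ) (c : ℝ) : AffineSubspace ℝ ℂ where
  carrier := {x | lin n c x = 0}
  smul_vsub_vadd_mem' := by
    intro r p1 p2 p3 h1 h2 h3
    have h1' : lin n c p1 = 0 := h1
    have h2' : lin n c p2 = 0 := h2
    have h3' : lin n c p3 = 0 := h3
    change lin n c (r • (p1 -ᵥ p2) +ᵥ p3) = 0
    have : lin n c (r • (p1 -ᵥ p2) +ᵥ p3) = r * (lin n c p1 - lin n c p2) + lin n c p3 := by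
      simp only [lin, vsub_eq_sub, vadd_eq_add, Complex.add_re, Complex.add_im, Complex.smul_re,
        Complex.smul_im, Complex.sub_re, Complex.sub_im, smul_eq_mul]
      ring
    rw [this, h1', h2', h3']
    ring

lemma null {n : ℂ} (hn : ‖n‖ = 1) (c : ℝ) : volume {x | lin n c x = 0} = 0 := by
  have h := Measure.addHaar_affineSubspace (volume : Measure ℂ) (line n c) (by
    intro htop
    have hmem : (((c + 1 : ℝ) : ℂ) * n) ∈ line n c := by rw [htop]; trivial
    have h1 : lin n c (((c + 1 : ℝ) : ℂ) * n) = 0 := hmem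
    have h2 : lin n c (((c + 1 : ℝ) : ℂ) * n) = (c + 1) * (n.re ^ 2 + n.im ^ 2) - c := by
      unfold lin
      rw [Complex.re_ofReal_mul, Complex.im_ofReal_mul]
      ring
    rw [h2, nn hn] at h1
    linarith)
  exact h

theorem main : Pool.Agent.Q40.LP.TaskRefl := by
  intro n c hn
  refine ⟨refl_refl hn c, norm_refl hn c, lin_refl hn c, fun x hx => ?_, mp hn c, cont n c,
    null hn c⟩
  simp [refl, hx]

end Pool.Agent.Q40.LP.TaskRefl
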