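import Pool.Agent.Q40.LP.Stmts

/-! The main theorem from the tasks `TaskMin`, `TaskBdd`, `TaskTest`. -/

open Set Filter Topology MeasureTheory

namespace Pool.Agent.Q40.LP.MainProof

theorem main (hMin : TaskMin) (hBdd : TaskBdd) (hTest : TaskTest) : Pool.Agent.Q40.LP.Main := by
  intro n c hn Ω hΩ hb
  have hne : ({0} ∪ {τ | τ < 0 ∧ ∃ u, IsEig (polar n c Ω) τ u} : Set ℝ).Nonempty :=
    ⟨0, Or.inl rfl⟩
  obtain ⟨C, hC⟩ := hBdd Ω hΩ.measurableSet hb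
  have hbd : BddBelow ({0} ∪ {τ | τ < 0 ∧ ∃ u, IsEig Ω τ u} : Set ℝ) := by
    refine ⟨min 0 C, ?_⟩
    rintro τ (h | ⟨_, u, hu⟩)
    · rw [mem_singleton_iff] at h
      rw [h]
      exact min_le_left _ _
    · exact (min_le_right _ _).trans (hC τ u hu)
  refine le_csInf hne ?_
  rintro τ (h | ⟨hτ, v, hv⟩)
  · rw [mem_singleton_iff] at h
    rw [h]
    exact csInf_le hbd (Or.inl rfl)
  · obtain ⟨u, hu1, hu2, hu3⟩ := hTest n c hn Ω hΩ hb τ v hτ hv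
    obtain ⟨m, hm, w, hw⟩ := hMin Ω hΩ.measurableSet hb τ u hu1 hu2 hτ hu3
    exact (csInf_le hbd (Or.inr ⟨lt_of_le_of_lt hm hτ, w, hw⟩)).trans hm

end Pool.Agent.Q40.LP.MainProof
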