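import Pool.Agent.Q40.LP.Stmts2

/-! The second theorem from `TaskThin`, `TaskDisc`, `TaskBdd`, `TaskDom`. -/

open Set Filter Topology MeasureTheory

namespace Pool.Agent.Q40.LP.MainProof2

/-- The disc of radius greater than `1` has a negative `tau`. -/
theorem disc (hDisc : TaskDisc) (hBdd : TaskBdd) (R : ℝ) (hR : 1 < R) :
    tau (Metric.ball 0 R) < 0 := by
  obtain ⟨τ, hτ, u, hu⟩ := hDisc R hR
  obtain ⟨B, hB⟩ := hBdd (Metric.ball 0 R) measurableSet_ball Metric.isBounded_ball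
  refine lt_of_le_of_lt (csInf_le ⟨min 0 B, ?_⟩ (Or.inr ⟨hτ, u, hu⟩)) hτ
  rintro t (h | ⟨_, w, hw⟩)
  · rw [mem_singleton_iff] at h
    rw [h]
    exact min_le_left _ _
  · exact (min_le_right _ _).trans (hB t w hw)

/-- Thin domains of transfinite diameter `R` with `tau` close to `0`. -/
theorem thin (hThin : TaskThin) (hDom : TaskDom) (R : ℝ) (hR0 : 0 < R) (ε : ℝ) (hε : 0 < ε) :
    ∃ Ω : Set ℂ, IsOpen Ω ∧ IsConnected Ω ∧ Bornology.IsBounded Ω ∧ IsTD (closure Ω) R ∧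
      -ε < tau Ω := by
  have hL : 0 < 2 * R * Real.exp 2 := by positivity
  obtain ⟨C, hC, hthin⟩ := hThin (2 * R * Real.exp 2) hL
  obtain ⟨Ω, hΩo, hΩc, hΩb, hvol, hnorm, htd⟩ := hDom R hR0 ((ε / (2 * C)) ^ 2)
    (by positivity)
  refine ⟨Ω, hΩo, hΩc, hΩb, htd, ?_⟩
  have h2 : -(ε / 2) ≤ tau Ω := by
    refine le_csInf ⟨0, Or.inl rfl⟩ ?_
    rintro t (h | ⟨_, w, hw⟩)
    · rw [mem_singleton_iff] at h
      rw [h]; linarith
    · have h3 := hthin Ω hΩo.measurableSet hnorm t w hw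
      have h4 : Real.sqrt (volume.real Ω) ≤ ε / (2 * C) := by
        have h5 : 0 ≤ ε / (2 * C) := by positivity
        rw [← Real.sqrt_sq h5]
        exact Real.sqrt_le_sqrt hvol.le
      have h6 : C * Real.sqrt (volume.real Ω) ≤ ε / 2 := by
        calc C * Real.sqrt (volume.real Ω) ≤ C * (ε / (2 * C)) :=
              mul_le_mul_of_nonneg_left h4 hC.le
          _ = ε / 2 := by field_simp
      have h7 := (abs_le.1 (h3.trans h6)).1
      linarith
  linarith

end Pool.Agent.Q40.LP.MainProof2
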