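import Mathlib

/-! Blueprint for `MP_86d647_an`: polarization does not decrease the negative eigenvalue of the
logarithmic potential operator of a bounded open plane set. The plane is `ℂ`. -/

open Set Filter Topology MeasureTheory

namespace Pool.Agent.Q40.LP

/-- The logarithmic potential of `u`: `∫ log (1 / |x - y|) u(y) dy`. -/
noncomputable def pot (u : ℂ → ℝ) (x : ℂ) : ℝ := ∫ y, Real.log (1 / ‖x - y‖) * u y

/-- `u` is square integrable and vanishes off a bounded set. -/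
def Good (u : ℂ → ℝ) : Prop := MemLp u 2 volume ∧ ∃ R : ℝ, ∀ x, R < ‖x‖ → u x = 0

/-- `u` is (a representative of) a function in `L²(Ω)`, extended by zero. -/
def In (Ω : Set ℂ) (u : ℂ → ℝ) : Prop := MemLp u 2 volume ∧ ∀ x, x ∉ Ω → u x = 0

/-- The energy. -/
noncomputable def En (u v : ℂ → ℝ) : ℝ := ∫ x, pot u x * v x

/-- `τ` is an eigenvalue of the logarithmic potential operator of `L²(Ω)`. -/
def IsEig (Ω : Set ℂ) (τ : ℝ) (u : ℂ → ℝ) : Prop :=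
  In Ω u ∧ (¬ u =ᵐ[volume] 0) ∧ ∀ᵐ x, x ∈ Ω → pot u x = τ * u x

/-- The negative eigenvalue of `Ω`, or `0` if there is none. -/
noncomputable def tau (Ω : Set ℂ) : ℝ := sInf ({0} ∪ {τ | τ < 0 ∧ ∃ u, IsEig Ω τ u})

/-- the linear function `Re (conj n * x) - c` -/
noncomputable def lin (n : ℂ) (c : ℝ) (x : ℂ) : ℝ := n.re * x.re + n.im * x.im - c

/-- The open half-plane with the normal vector `n` (`|n| = 1`). -/
def half (n : ℂ) (c : ℝ) : Set ℂ := {x | 0 < lin n c x}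

/-- The reflection in the boundary of `half n c`, for `|n| = 1`. -/
noncomputable def refl (n : ℂ) (c : ℝ) (x : ℂ) : ℂ := x - (2 * lin n c x : ℝ) * n

/-- The polarization of `Ω`. -/
def polar (n : ℂ) (c : ℝ) (Ω : Set ℂ) : Set ℂ :=
  ((Ω ∪ refl n c '' Ω) ∩ half n c) ∪ ((Ω ∩ refl n c '' Ω) \ half n c)

/-- T1. The kernel is integrable against good functions (`y ↦ log |x - y|` is square integrable on
bounded sets). -/
def TaskInt : Prop := ∀ u, Good u → ∀ x : ℂ, Integrable (fun y => Real.log (1 / ‖x - y‖) * u y)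

/-- T2. Uniform bound on bounded sets: Cauchy-Schwarz and
`∫_{|y| ≤ R} log² |x - y| dy ≤ ∫_{|z| ≤ 2 R} log² |z| dz`. -/
def TaskBound : Prop := ∀ R : ℝ, 0 < R → ∃ C : ℝ, 0 < C ∧ ∀ u, MemLp u 2 volume →
  (∀ x, R < ‖x‖ → u x = 0) → ∀ x : ℂ, ‖x‖ ≤ R → |pot u x| ≤ C * Real.sqrt (∫ y, u y ^ 2)

/-- T3. Potentials are continuous (continuity of translations in `L²`, or approximation of the
kernel by `log (1 / max |x - y| δ)`). -/
def TaskCont : Prop := ∀ u, Good u → Continuous (pot u)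

/-- T4. Symmetry (Fubini). -/
def TaskSymm : Prop := ∀ u v, Good u → Good v → En u v = En v u

/-- T5. Frullani: `- log r = ∫_0^∞ (e^{- t r²} - e^{- t}) / (2 t) dt`, absolutely convergent. -/
def TaskFru : Prop := ∀ r : ℝ, 0 < r →
  IntegrableOn (fun t : ℝ => (Real.exp (-(t * r ^ 2)) - Real.exp (-t)) / (2 * t)) (Ioi 0) ∧
  ∫ t in Ioi (0 : ℝ), (Real.exp (-(t * r ^ 2)) - Real.exp (-t)) / (2 * t) = Real.log (1 / r)

/-- T5b. `∫_0^∞ |e^{- t r²} - e^{- t}| / (2 t) dt = |log r|`. -/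
def TaskFruAbs : Prop := ∀ r : ℝ, 0 < r →
  ∫ t in Ioi (0 : ℝ), |(Real.exp (-(t * r ^ 2)) - Real.exp (-t)) / (2 * t)| = |Real.log (1 / r)|

/-- T6. Gaussian kernels are positive definite (`e^{- t |x - y|²}` is a multiple of
`∫ e^{- 2 t |x - z|²} e^{- 2 t |y - z|²} dz`). -/
def TaskGauss : Prop := ∀ u, Good u → ∀ t : ℝ, 0 < t →
  0 ≤ ∫ x, (∫ y, Real.exp (-(t * ‖x - y‖ ^ 2)) * u y) * u x

/-- T7. The energy is positive on functions with mean zero. -/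
def TaskPD : Prop := ∀ u, Good u → ∫ x, u x = 0 → 0 ≤ En u u

/-- T8. Circle averages of potentials
(`Mathlib: circleAverage_log_norm_sub_const_eq_log_radius_add_posLog` and Fubini). -/
def TaskCirc : Prop := ∀ u, Good u → ∀ (x : ℂ) (r : ℝ), 0 < r →
  Real.circleAverage (pot u) x r = ∫ y, Real.log (1 / max r ‖x - y‖) * u y

/-- T9. If `u ≤ 0` a.e. on the disc of radius `r` around `x` then `pot u x ≤` the circle average. -/
def TaskSub : Prop := ∀ u, Good u → ∀ (x : ℂ) (r : ℝ), 0 < r →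
  (∀ᵐ y, y ∈ Metric.ball x r → u y ≤ 0) → pot u x ≤ Real.circleAverage (pot u) x r

/-- T10. Behaviour at infinity: `pot u x = - M log |x| + o(1)`, `M = ∫ u`. -/
def TaskInf : Prop := ∀ u, Good u → 0 ≤ ∫ x, u x → ∀ ε : ℝ, 0 < ε →
  ∀ᶠ x in cocompact ℂ, pot u x < ε

/-- T11. The maximum principle: the set where `w` has its maximum is open and closed. -/
def TaskMP : Prop := ∀ w : ℂ → ℝ, Continuous w →
  (∀ ε : ℝ, 0 < ε → ∀ᶠ x in cocompact ℂ, w x < ε) →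
  (∀ x, 0 < w x → ∃ δ : ℝ, 0 < δ ∧ ∀ r : ℝ, 0 < r → r < δ → w x ≤ Real.circleAverage w x r) →
  ∀ x, w x ≤ 0

/-- T12. Eigenfunctions for negative eigenvalues with nonnegative mean are nonnegative
(`w = pot v` in T11: where `w > 0` one has `v ≤ 0` a.e.). -/
def TaskVpos : Prop := ∀ (Ω : Set ℂ) (τ : ℝ) (v : ℂ → ℝ), MeasurableSet Ω →
  Bornology.IsBounded Ω → τ < 0 → IsEig Ω τ v → 0 ≤ ∫ x, v x → ∀ᵐ x, 0 ≤ v x

/-- T13. Abstract: a negative eigenvalue of `K - ρ e ⊗ e`, `K` positive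
(`v = (K + s)⁻¹ e`, `s` with `ρ ⟪(K + s)⁻¹ e, e⟫ = 1`, intermediate value theorem; Lax-Milgram). -/
def TaskAbs1 : Prop := ∀ (X : Type) [NormedAddCommGroup X] [InnerProductSpace ℝ X]
  [CompleteSpace X] (L : X →L[ℝ] X) (e : X) (ρ : ℝ), 0 < ρ →
  (∀ x y, inner ℝ (L x) y = inner ℝ x (L y)) →
  (∀ x, 0 ≤ inner ℝ (L x) x + ρ * (inner ℝ e x) ^ 2) →
  ∀ (l : ℝ) (u : X), l < 0 → u ≠ 0 → inner ℝ (L u) u ≤ l * ‖u‖ ^ 2 →
  ∃ m : ℝ, m ≤ l ∧ ∃ v : X, v ≠ 0 ∧ L v = m • v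

/-- T14. Abstract: solving `P (S (h - g)) = s g` in a closed subspace on which `S` is positive. -/
def TaskAbs2 : Prop := ∀ (X : Type) [NormedAddCommGroup X] [InnerProductSpace ℝ X]
  [CompleteSpace X] (S : X →L[ℝ] X) (O : Submodule ℝ X), IsClosed (O : Set X) →
  (∀ x ∈ O, 0 ≤ inner ℝ (S x) x) → ∀ s : ℝ, 0 < s → ∀ h : X, ∃ g ∈ O, ∀ z ∈ O,
  inner ℝ (S (h - g)) z = s * inner ℝ g z

/-- T15. The operator on `L²(D)`, `D` bounded. -/
def TaskOp : Prop := ∀ D : Set ℂ, MeasurableSet D → Bornology.IsBounded D →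
  ∃ T : Lp ℝ 2 (volume.restrict D) →L[ℝ] Lp ℝ 2 (volume.restrict D),
    ∀ f : Lp ℝ 2 (volume.restrict D),
      (T f : ℂ → ℝ) =ᵐ[volume.restrict D] pot (D.indicator (f : ℂ → ℝ))

/-- T16. An auxiliary function with constant potential on a disc (the indicator of an annulus). -/
def TaskAnn : Prop := ∀ R : ℝ, 0 < R → ∃ (b : ℂ → ℝ) (k : ℝ), Good b ∧ ∫ x, b x = 1 ∧
  ∀ x : ℂ, ‖x‖ ≤ R → pot b x = k

/-- T17. (from T4, T7, T16: the energy of `u - M b` is nonnegative) -/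
def TaskRank : Prop := ∀ R : ℝ, 0 < R → ∃ ρ : ℝ, 0 < ρ ∧ ∀ u, MemLp u 2 volume →
  (∀ x, R < ‖x‖ → u x = 0) → 0 ≤ En u u + ρ * (∫ x, u x) ^ 2

/-- T18. (from T13, T15, T17, T4) -/
def TaskMin : Prop := ∀ Ω : Set ℂ, MeasurableSet Ω → Bornology.IsBounded Ω → ∀ (l : ℝ)
  (u : ℂ → ℝ), In Ω u → (¬ u =ᵐ[volume] 0) → l < 0 → En u u ≤ l * ∫ x, u x ^ 2 →
  ∃ m : ℝ, m ≤ l ∧ ∃ v, IsEig Ω m v

/-- T19. The negative eigenvalues are bounded below (from T2). -/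
def TaskBdd : Prop := ∀ Ω : Set ℂ, MeasurableSet Ω → Bornology.IsBounded Ω → ∃ C : ℝ,
  ∀ τ u, IsEig Ω τ u → C ≤ τ

/-- T20. Properties of the reflection. -/
def TaskRefl : Prop := ∀ (n : ℂ) (c : ℝ), ‖n‖ = 1 →
  (∀ x, refl n c (refl n c x) = x) ∧ (∀ x y, ‖refl n c x - refl n c y‖ = ‖x - y‖) ∧
  (∀ x, lin n c (refl n c x) = - lin n c x) ∧ (∀ x, lin n c x = 0 → refl n c x = x) ∧
  MeasurePreserving (refl n c) volume volume ∧ Continuous (refl n c) ∧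
  volume {x | lin n c x = 0} = 0

/-- T21. Potentials of reflected functions (from T20). -/
def TaskPotRefl : Prop := ∀ (n : ℂ) (c : ℝ), ‖n‖ = 1 → ∀ (u : ℂ → ℝ) (x : ℂ),
  pot (fun y => u (refl n c y)) x = pot u (refl n c x)

/-- T22. Solving for the odd part on a symmetric set (from T7, T14, T15, T20, T21; `O` is the space
of the odd functions which vanish off `A`; `h` is odd). -/
def TaskSolve : Prop := ∀ (n : ℂ) (c : ℝ), ‖n‖ = 1 → ∀ A : Set ℂ, MeasurableSet A →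
  Bornology.IsBounded A → (∀ x, refl n c x ∈ A ↔ x ∈ A) → ∀ h, Good h →
  (∀ x, h (refl n c x) = - h x) → ∀ s : ℝ, 0 < s → ∃ g, In A g ∧
  (∀ x, g (refl n c x) = - g x) ∧ ∀ᵐ x, x ∈ A → pot (fun y => h y - g y) x = s * g x

/-- T23. Odd potentials are nonnegative on the half-plane (from T3, T9, T10, T11, T20, T21;
`w = - pot (h - g)` on the half-plane and `0` elsewhere). -/
def TaskPpos : Prop := ∀ (n : ℂ) (c : ℝ), ‖n‖ = 1 → ∀ A : Set ℂ, MeasurableSet A →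
  ∀ h g, Good h → Good g → (∀ x, x ∉ A → g x = 0) →
  (∀ x, h (refl n c x) = - h x) → (∀ x, g (refl n c x) = - g x) →
  (∀ᵐ x, x ∈ half n c → 0 ≤ h x) → ∀ s : ℝ, 0 < s →
  (∀ᵐ x, x ∈ A → pot (fun y => h y - g y) x = s * g x) →
  ∀ x ∈ half n c, 0 ≤ pot (fun y => h y - g y) x

/-- T24. Bilinearity of the energy (from T1, T3, T4). -/
def TaskBil : Prop := ∀ u v w, Good u → Good v → Good w → ∀ a b : ℝ,
  (∀ x, pot (fun y => a * u y + b * v y) x = a * pot u x + b * pot v x) ∧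
  En (fun y => a * u y + b * v y) w = a * En u w + b * En v w ∧
  En w (fun y => a * u y + b * v y) = a * En w u + b * En w v ∧
  Integrable (fun x => pot u x * v x)

/-- T25. Even and odd functions are orthogonal for the energy and in `L²` (from T20, T21). -/
def TaskOrth : Prop := ∀ (n : ℂ) (c : ℝ), ‖n‖ = 1 → ∀ u v, Good u → Good v →
  (∀ x, u (refl n c x) = u x) → (∀ x, v (refl n c x) = - v x) →
  En u v = 0 ∧ En v u = 0 ∧ ∫ x, u x * v x = 0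

/-- T26. The key inequality (from T4, T7, T22, T23, T24, T25): `A` symmetric; `α` odd on `A`,
`β`, `γ` odd, vanishing on `A`, nonnegative on the half-plane; then there is an odd `α'` on `A`
with `E(α' + β - γ) + s |α'|² ≤ E(α + β + γ) + s |α|²`.
(`α' = gγ - gβ`, `gβ`, `gγ` from T22; the difference is at least `4 E(β - gβ, γ) ≥ 0`.) -/
def TaskKey : Prop := ∀ (n : ℂ) (c : ℝ), ‖n‖ = 1 → ∀ A : Set ℂ, MeasurableSet A →
  Bornology.IsBounded A → (∀ x, refl n c x ∈ A ↔ x ∈ A) → ∀ α β γ, In A α → Good β → Good γ →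
  (∀ x, α (refl n c x) = - α x) → (∀ x, β (refl n c x) = - β x) →
  (∀ x, γ (refl n c x) = - γ x) → (∀ᵐ x, x ∈ half n c → 0 ≤ β x) →
  (∀ᵐ x, x ∈ half n c → 0 ≤ γ x) → (∀ x ∈ A, β x = 0 ∧ γ x = 0) → ∀ s : ℝ, 0 < s →
  ∃ α', In A α' ∧ (∀ x, α' (refl n c x) = - α' x) ∧
    En (fun x => α' x + β x - γ x) (fun x => α' x + β x - γ x) + s * ∫ x, α' x ^ 2 ≤
    En (fun x => α x + β x + γ x) (fun x => α x + β x + γ x) + s * ∫ x, α x ^ 2

/-- T28. The decomposition of a nonnegative function on the polarization: `A = Ω ∩ σ Ω`,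
`B = (Ω \ σ Ω) ∩ H`, `C = (σ Ω \ Ω) ∩ H`, `polar = A ∪ B ∪ C`, `e = (v + v ∘ σ) / 2`, `α`, `β`, `γ`
the odd parts of `1_A v`, `1_B v`, `1_C v` (from T20). -/
def TaskDecomp : Prop := ∀ (n : ℂ) (c : ℝ), ‖n‖ = 1 → ∀ Ω : Set ℂ, IsOpen Ω →
  Bornology.IsBounded Ω → ∀ v : ℂ → ℝ, In (polar n c Ω) v → (∀ᵐ x, 0 ≤ v x) →
  ∃ (A : Set ℂ) (e α β γ : ℂ → ℝ), MeasurableSet A ∧ Bornology.IsBounded A ∧
    (∀ x, refl n c x ∈ A ↔ x ∈ A) ∧ Good e ∧ In A α ∧ Good β ∧ Good γ ∧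
    (∀ x, e x = (v x + v (refl n c x)) / 2) ∧ (∀ x, e (refl n c x) = e x) ∧
    (∀ x, α (refl n c x) = - α x) ∧ (∀ x, β (refl n c x) = - β x) ∧
    (∀ x, γ (refl n c x) = - γ x) ∧ (∀ᵐ x, x ∈ half n c → 0 ≤ β x) ∧
    (∀ᵐ x, x ∈ half n c → 0 ≤ γ x) ∧ (∀ x ∈ A, β x = 0 ∧ γ x = 0) ∧ (∀ x, β x * γ x = 0) ∧
    (∀ x, v x = e x + (α x + β x + γ x)) ∧
    ∀ α', In A α' → In Ω (fun x => e x + (α' x + β x - γ x))

/-- T27. The test function (from T12, T24, T25, T26, T28, T20; replace `v` by `- v` if its integral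
is negative; `En v v = l ∫ v²`; `s = - l`; the `L²` norms of `α' + β - γ` and `α + β + γ` split
because of the disjoint supports). -/
def TaskTest : Prop := ∀ (n : ℂ) (c : ℝ), ‖n‖ = 1 → ∀ Ω : Set ℂ, IsOpen Ω →
  Bornology.IsBounded Ω → ∀ (l : ℝ) (v : ℂ → ℝ), l < 0 → IsEig (polar n c Ω) l v →
  ∃ u, In Ω u ∧ (¬ u =ᵐ[volume] 0) ∧ En u u ≤ l * ∫ x, u x ^ 2

/-- The theorem (from T18, T19, T27). -/
def Main : Prop := ∀ (n : ℂ) (c : ℝ), ‖n‖ = 1 → ∀ Ω : Set ℂ, IsOpen Ω →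
  Bornology.IsBounded Ω → tau Ω ≤ tau (polar n c Ω)

end Pool.Agent.Q40.LP
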