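import Pool.Agent.Q40.LP.Stmts

/-! Blueprint for `MP_ccba21_an`, Q2: among the bounded domains of transfinite diameter `R > 1` the
disc does not have the largest negative eigenvalue of the logarithmic potential operator. -/

open Set Filter Topology MeasureTheory

namespace Pool.Agent.Q40.LP

/-- The product of the distances `|z_i - z_j|`, `i < j`. -/
noncomputable def distProd {n : ℕ} (z : Fin n → ℂ) : ℝ :=
  ∏ i : Fin n, ∏ j ∈ Finset.univ.filter (fun j => i < j), ‖z i - z j‖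

/-- The `n`-th diameter `max (∏_{i < j} |z_i - z_j|) ^ (2 / (n (n - 1)))` of `E` (as a supremum). -/
noncomputable def diam (E : Set ℂ) (n : ℕ) : ℝ :=
  sSup {d | ∃ z : Fin n → ℂ, (∀ i, z i ∈ E) ∧ d = distProd z ^ ((2 : ℝ) / (n * (n - 1)))}

/-- `T` is the transfinite diameter of `E`. -/
def IsTD (E : Set ℂ) (T : ℝ) : Prop := Tendsto (diam E) atTop (𝓝 T)

/-- U1. Small eigenvalues on sets of small area: `|τ| ≤ C √|Ω|` (from T2 `TaskBound`;
`τ ∫ u² = En u u`, `|pot u| ≤ C ‖u‖₂` on the ball, `∫ |u| ≤ √|Ω| ‖u‖₂`). -/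
def TaskThin : Prop := ∀ L : ℝ, 0 < L → ∃ C : ℝ, 0 < C ∧ ∀ Ω : Set ℂ, MeasurableSet Ω →
  (∀ x ∈ Ω, ‖x‖ ≤ L) → ∀ τ u, IsEig Ω τ u → |τ| ≤ C * Real.sqrt (volume.real Ω)

/-- U2. The disc of radius `R > 1` has a negative eigenvalue (from T18 `TaskMin`, T8 `TaskCirc`; test
function: the indicator `a` of the annulus `(1 + R) / 2 < |y| < R`; `pot a` is radial, so
`pot a x` is its average over the circle of radius `|x|` around `0`, by T8 the integral over the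
annulus of `log (1 / max |x| |y|) < 0`; see `TaskAnn.lean` for this argument). -/
def TaskDisc : Prop := ∀ R : ℝ, 1 < R → ∃ τ : ℝ, τ < 0 ∧ ∃ u, IsEig (Metric.ball 0 R) τ u

/-- U3. Fekete: the `n`-th diameters of a bounded set decrease. (Leave out one point: the `(n-1)`-th
power of the product for `n + 1` points is the product of the `n + 1` products for `n` points.) -/
def TaskFek : Prop := ∀ E : Set ℂ, Bornology.IsBounded E → E.Nonempty → ∀ n : ℕ, 2 ≤ n →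
  diam E (n + 1) ≤ diam E n

/-- U4. Scaling. -/
def TaskScale : Prop := ∀ (E : Set ℂ) (a : ℝ), Bornology.IsBounded E → E.Nonempty → 0 < a →
  ∀ n : ℕ, 2 ≤ n → diam ((fun z => (a : ℂ) * z) '' E) n = a * diam E n

/-- U5. Lower bound: points `j / n`; `∏_{i < j} (j - i) = ∏_{m < n} m!`, `m! ≥ (m / e) ^ m`,
`m log (m / n) ≥ m - n`; so the product is at least `e ^ (- n (n - 1))`. -/
def TaskLow : Prop := ∀ E : Set ℂ, Bornology.IsBounded E →
  (∀ t : ℝ, 0 ≤ t → t ≤ 1 → (t : ℂ) ∈ E) → ∀ n : ℕ, 2 ≤ n → Real.exp (-2) ≤ diam E n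

/-- U5a. The arithmetic part of U5. -/
def TaskFact : Prop := ∀ n : ℕ, 2 ≤ n →
  Real.exp (-(n * (n - 1) : ℝ)) ≤ distProd (fun j : Fin n => ((j : ℕ) / (n : ℝ) : ℂ))

/-- U6. The closed unit rectangle scaled: closure, area, and bound of the open rectangle
`{0 < re < a, 0 < im < a e}`. -/
def TaskRect : Prop := ∀ a e : ℝ, 0 < a → 0 < e → ∃ Ω : Set ℂ, IsOpen Ω ∧ IsConnected Ω ∧
  Bornology.IsBounded Ω ∧ volume.real Ω = a ^ 2 * e ∧ (∀ x ∈ Ω, ‖x‖ ≤ a * (1 + e)) ∧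
  closure Ω = (fun z => (a : ℂ) * z) '' {z : ℂ | 0 ≤ z.re ∧ z.re ≤ 1 ∧ 0 ≤ z.im ∧ z.im ≤ e}

/-- U7. (from U3, U4, U5, U6) Thin domains with given transfinite diameter. -/
def TaskDom : Prop := ∀ R : ℝ, 0 < R → ∀ δ : ℝ, 0 < δ → ∃ Ω : Set ℂ, IsOpen Ω ∧
  IsConnected Ω ∧ Bornology.IsBounded Ω ∧ volume.real Ω < δ ∧
  (∀ x ∈ Ω, ‖x‖ ≤ 2 * R * Real.exp 2) ∧ IsTD (closure Ω) R

/-- The theorem (from U1, U2, U7). -/
def Main2 : Prop := ∀ R : ℝ, 1 < R → ∃ Ω : Set ℂ, IsOpen Ω ∧ IsConnected Ω ∧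
  Bornology.IsBounded Ω ∧ IsTD (closure Ω) R ∧ tau (Metric.ball 0 R) < tau Ω

end Pool.Agent.Q40.LP
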