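import Pool.Agent.Q40.LP.Stmts

set_option autoImplicit false

open Set Filter Topology MeasureTheory

namespace Pool.Agent.Q40.LP.TaskAbs1

variable {X : Type} [NormedAddCommGroup X] [InnerProductSpace ℝ X] [CompleteSpace X]

lemma surj (A : X →L[ℝ] X) (s : ℝ) (hs : 0 < s) (h : ∀ x, s * ‖x‖ ^ 2 ≤ inner ℝ (A x) x) :
    ∀ e : X, ∃ v : X, A v = e := by
  have hb : ∀ x, ‖x‖ ≤ s⁻¹ * ‖A x‖ := by
    intro x
    rcases eq_or_ne x 0 with rfl | hx
    · simp
    · have hx0 : 0 < ‖x‖ := norm_pos_iff.2 hx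
      have h1 := (h x).trans (real_inner_le_norm (A x) x)
      rw [inv_mul_eq_div, le_div_iff₀ hs]
      have h2 : (‖x‖ * s) * ‖x‖ ≤ ‖A x‖ * ‖x‖ := by nlinarith
      exact le_of_mul_le_mul_right h2 hx0
  have hanti : AntilipschitzWith (s⁻¹).toNNReal A := by
    refine A.antilipschitz_of_bound fun x => ?_
    rw [Real.coe_toNNReal _ (inv_pos.2 hs).le]
    exact hb x
  have hcl : IsClosed (LinearMap.range A.toLinearMap : Set X) :=
    hanti.isClosed_range A.uniformContinuous
  have hcomp : CompleteSpace (LinearMap.range A.toLinearMap) := hcl.completeSpace_coe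
  have htop : LinearMap.range A.toLinearMap = ⊤ := by
    rw [← Submodule.orthogonal_eq_bot_iff, Submodule.eq_bot_iff]
    intro w hw
    have h0 : inner ℝ (A w) w = 0 := (Submodule.mem_orthogonal _ w).1 hw _ ⟨w, rfl⟩
    have h1 := h w
    rw [h0] at h1
    have h2 : ‖w‖ ^ 2 ≤ 0 := by nlinarith [sq_nonneg ‖w‖]
    have h3 : ‖w‖ = 0 := by nlinarith [norm_nonneg w, sq_nonneg ‖w‖]
    exact norm_eq_zero.1 h3
  intro e
  have : e ∈ LinearMap.range A.toLinearMap := by rw [htop]; trivial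
  obtain ⟨v, hv⟩ := this
  exact ⟨v, hv⟩

theorem main : Pool.Agent.Q40.LP.TaskAbs1 := by
  intro X _ _ _ L e ρ hρ hsym hpos l u hl hu hul
  -- the operator `K x = L x + ρ ⟪e, x⟫ e`
  have hKnn : ∀ x, 0 ≤ inner ℝ (L x + (ρ * inner ℝ e x) • e) x := by
    intro x
    rw [inner_add_left, real_inner_smul_left]
    have := hpos x
    nlinarith
  have hKsym : ∀ x y, inner ℝ (L x + (ρ * inner ℝ e x) • e) y = inner ℝ (L y + (ρ * inner ℝ e y) • e) x := by
    intro x y
    rw [inner_add_left, inner_add_left, real_inner_smul_left, real_inner_smul_left, hsym x y,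
      real_inner_comm x (L y)]
    ring
  have hex : ∀ s : ℝ, 0 < s → ∃ v : X, L v + (ρ * inner ℝ e v) • e + s • v = e := by
    intro s hs
    obtain ⟨v, hv⟩ := surj (L + ρ • ((innerSL ℝ e).smulRight e) + s • ContinuousLinearMap.id ℝ X) s hs (by
      intro x
      have h1 := hKnn x
      simp only [add_apply, smul_apply,
        ContinuousLinearMap.smulRight_apply, innerSL_apply_apply, ContinuousLinearMap.id_apply]
      rw [smul_smul, inner_add_left, real_inner_smul_left x x s, real_inner_self_eq_norm_sq]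
      linarith) e
    refine ⟨v, ?_⟩
    simp only [add_apply, smul_apply,
        ContinuousLinearMap.smulRight_apply, innerSL_apply_apply, ContinuousLinearMap.id_apply] at hv
    rw [smul_smul] at hv
    exact hv
  choose! R hR using hex
  obtain ⟨s₀, hs₀E⟩ : ∃ s₀ : ℝ, s₀ = -l := ⟨_, rfl⟩
  have hs₀ : 0 < s₀ := by rw [hs₀E]; linarith
  -- a bound for `R s`
  have hRn : ∀ s : ℝ, 0 < s → s * ‖R s‖ ≤ ‖e‖ := by
    intro s hs
    have h1 : s * ‖R s‖ ^ 2 ≤ inner ℝ e (R s) := by
      have h2 := hKnn (R s)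
      have h3 : inner ℝ e (R s) = inner ℝ (L (R s) + (ρ * inner ℝ e (R s)) • e) (R s) + s * ‖R s‖ ^ 2 := by
        conv_lhs => rw [← hR s hs]
        rw [inner_add_left, real_inner_smul_left (R s) (R s) s, real_inner_self_eq_norm_sq]
      rw [h3]
      linarith
    rcases eq_or_ne (R s) 0 with h0 | h0
    · rw [h0, norm_zero, mul_zero]
      exact norm_nonneg _
    · have h4 : 0 < ‖R s‖ := norm_pos_iff.2 h0
      have h5 := h1.trans (real_inner_le_norm e (R s))
      have h6 : (s * ‖R s‖) * ‖R s‖ ≤ ‖e‖ * ‖R s‖ := by nlinarith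
      exact le_of_mul_le_mul_right h6 h4
  -- Lipschitz
  have hLip : ∀ s t : ℝ, s₀ ≤ s → s₀ ≤ t → ‖R s - R t‖ ≤ ‖e‖ / s₀ ^ 2 * |s - t| := by
    intro s t hs ht
    have hs' : 0 < s := hs₀.trans_le hs
    have ht' : 0 < t := hs₀.trans_le ht
    have h1 : L (R s - R t) + (ρ * inner ℝ e (R s - R t)) • e + s • (R s - R t) = (t - s) • R t := by
      have h2 := hR s hs'
      have h3 := hR t ht'
      rw [map_sub, inner_sub_right, mul_sub, sub_smul, smul_sub, sub_smul]
      have h4 : L (R s) + (ρ * inner ℝ e (R s)) • e + s • R s -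
          (L (R t) + (ρ * inner ℝ e (R t)) • e + t • R t) = 0 := by rw [h2, h3, sub_self]
      have h5 : L (R s) - L (R t) + ((ρ * inner ℝ e (R s)) • e - (ρ * inner ℝ e (R t)) • e) +
          (s • R s - s • R t) - (t • R t - s • R t) = L (R s) + (ρ * inner ℝ e (R s)) • e + s • R s -
          (L (R t) + (ρ * inner ℝ e (R t)) • e + t • R t) := by abel
      rw [h4] at h5
      exact sub_eq_zero.1 h5
    have h6 : s * ‖R s - R t‖ ^ 2 ≤ inner ℝ ((t - s) • R t) (R s - R t) := by
      rw [← h1, inner_add_left, real_inner_smul_left (R s - R t) (R s - R t) s, real_inner_self_eq_norm_sq]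
      have := hKnn (R s - R t)
      linarith
    have h7 := h6.trans (real_inner_le_norm _ _)
    rw [norm_smul, Real.norm_eq_abs, abs_sub_comm] at h7
    have h8 : ‖R t‖ ≤ ‖e‖ / s₀ := by
      rw [le_div_iff₀ hs₀]
      have := hRn t ht'
      nlinarith [norm_nonneg (R t)]
    rcases eq_or_ne (R s - R t) 0 with h0 | h0
    · rw [h0, norm_zero]
      positivity
    · have h9 : 0 < ‖R s - R t‖ := norm_pos_iff.2 h0
      have h10 : s * ‖R s - R t‖ ≤ |s - t| * ‖R t‖ := by
        have : (s * ‖R s - R t‖) * ‖R s - R t‖ ≤ (|s - t| * ‖R t‖) * ‖R s - R t‖ := by nlinarith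
        exact le_of_mul_le_mul_right this h9
      have h11 : s₀ * ‖R s - R t‖ ≤ |s - t| * (‖e‖ / s₀) := by
        calc s₀ * ‖R s - R t‖ ≤ s * ‖R s - R t‖ := by gcongr
          _ ≤ |s - t| * ‖R t‖ := h10
          _ ≤ |s - t| * (‖e‖ / s₀) := by gcongr
      have h12 : ‖e‖ / s₀ ^ 2 * |s - t| = (|s - t| * (‖e‖ / s₀)) / s₀ := by
        field_simp
      rw [h12, le_div_iff₀ hs₀]
      linarith
  -- the function `φ`
  have hcont : ContinuousOn (fun s => ρ * inner ℝ e (R s)) (Ici s₀) := by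
    have h1 : ContinuousOn R (Ici s₀) := by
      have : LipschitzOnWith (Real.toNNReal (‖e‖ / s₀ ^ 2)) R (Ici s₀) := by
        refine LipschitzOnWith.of_dist_le_mul fun s hs t ht => ?_
        rw [dist_eq_norm, Real.dist_eq, Real.coe_toNNReal _ (by positivity)]
        exact hLip s t hs ht
      exact this.continuousOn
    exact continuousOn_const.mul (continuousOn_const.inner h1)
  -- at `s₀` it is at least `1`
  have hge : 1 ≤ ρ * inner ℝ e (R s₀) := by
    obtain ⟨v, hv⟩ : ∃ v : X, v = R s₀ := ⟨_, rfl⟩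
    have hve := hR s₀ hs₀
    rw [← hv] at hve ⊢
    -- `Q x y = ⟪(K + s₀) x, y⟫`
    obtain ⟨q, hq⟩ : ∃ q : ℝ, q = inner ℝ e v := ⟨_, rfl⟩
    obtain ⟨a, ha⟩ : ∃ a : ℝ, a = inner ℝ e u := ⟨_, rfl⟩
    obtain ⟨c, hc⟩ : ∃ c : ℝ, c = inner ℝ (L u + (ρ * inner ℝ e u) • e + s₀ • u) u := ⟨_, rfl⟩
    have hc1 : c ≤ ρ * a ^ 2 := by
      rw [hc, inner_add_left, inner_add_left, real_inner_smul_left, real_inner_smul_left,
        real_inner_self_eq_norm_sq, ← ha]
      rw [hs₀E]
      nlinarith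
    have hc2 : s₀ * ‖u‖ ^ 2 ≤ c := by
      rw [hc, inner_add_left, real_inner_smul_left u u s₀, real_inner_self_eq_norm_sq]
      have := hKnn u
      linarith
    have hu0 : 0 < ‖u‖ := norm_pos_iff.2 hu
    have hc0 : 0 < c := lt_of_lt_of_le (by positivity) hc2
    have ha0 : 0 < a ^ 2 := by
      by_contra hcon
      have : a ^ 2 = 0 := le_antisymm (not_lt.1 hcon) (sq_nonneg a)
      rw [this] at hc1
      linarith
    -- Cauchy-Schwarz for `Q`
    have hquad : ∀ x : ℝ, 0 ≤ q - 2 * x * a + x ^ 2 * c := by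
      intro x
      have h1 := hKnn (v - x • u)
      have h2 : 0 ≤ inner ℝ (L (v - x • u) + (ρ * inner ℝ e (v - x • u)) • e + s₀ • (v - x • u))
          (v - x • u) := by
        rw [inner_add_left, real_inner_smul_left (v - x • u) (v - x • u) s₀, real_inner_self_eq_norm_sq]
        have : 0 ≤ s₀ * ‖v - x • u‖ ^ 2 := by positivity
        linarith
      have h3 : L (v - x • u) + (ρ * inner ℝ e (v - x • u)) • e + s₀ • (v - x • u) =
          e - x • (L u + (ρ * inner ℝ e u) • e + s₀ • u) := by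
        have e0 : L (v - x • u) + (ρ * inner ℝ e (v - x • u)) • e + s₀ • (v - x • u) =
            (L v + (ρ * inner ℝ e v) • e + s₀ • v) - x • (L u + (ρ * inner ℝ e u) • e + s₀ • u) := by
          rw [map_sub, map_smul, inner_sub_right, real_inner_smul_right]
          module
        rw [e0, hve]
      rw [h3] at h2
      have h4 : inner ℝ (e - x • (L u + (ρ * inner ℝ e u) • e + s₀ • u)) (v - x • u) =
          q - 2 * x * a + x ^ 2 * c := by
        have h5 : inner ℝ (L u + (ρ * inner ℝ e u) • e + s₀ • u) v = a := by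
          rw [inner_add_left, hKsym u v, real_inner_smul_left, real_inner_comm v u,
            ← real_inner_smul_left v u s₀, ← inner_add_left, hve, ha]
        rw [inner_sub_left, inner_sub_right, inner_sub_right, real_inner_smul_right, real_inner_smul_left,
          real_inner_smul_left, real_inner_smul_right, ← hq, ← hc, h5, ← ha]
        ring
      rw [h4] at h2
      exact h2
    have h1 := hquad (a / c)
    have h2 : q - 2 * (a / c) * a + (a / c) ^ 2 * c = q - a ^ 2 / c := by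
      field_simp
      ring
    rw [h2] at h1
    have h3 : a ^ 2 ≤ q * c := by
      have : a ^ 2 / c ≤ q := by linarith
      rwa [div_le_iff₀ hc0] at this
    have hq0 : 0 ≤ q := by
      have : 0 ≤ a ^ 2 / c := by positivity
      linarith
    have h4 : a ^ 2 ≤ q * (ρ * a ^ 2) := h3.trans (by gcongr)
    have h5 : 1 * a ^ 2 ≤ (ρ * q) * a ^ 2 := by nlinarith
    rw [← hq]
    exact le_of_mul_le_mul_right h5 ha0
  -- far out it is at most `1`
  obtain ⟨s₁, hs₁, hle⟩ : ∃ s₁ : ℝ, s₀ ≤ s₁ ∧ ρ * inner ℝ e (R s₁) ≤ 1 := by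
    refine ⟨s₀ + ρ * ‖e‖ ^ 2, by nlinarith [sq_nonneg ‖e‖], ?_⟩
    obtain ⟨s, hs⟩ : ∃ s : ℝ, s = s₀ + ρ * ‖e‖ ^ 2 := ⟨_, rfl⟩
    rw [← hs]
    have hs' : 0 < s := by rw [hs]; positivity
    have h1 := hRn s hs'
    have h2 : inner ℝ e (R s) ≤ ‖e‖ * ‖R s‖ := real_inner_le_norm _ _
    have h3 : ρ * ‖e‖ ^ 2 ≤ s := by rw [hs]; linarith
    have h4 : s * (ρ * inner ℝ e (R s)) ≤ s * 1 := by
      calc s * (ρ * inner ℝ e (R s)) ≤ s * (ρ * (‖e‖ * ‖R s‖)) := by gcongr
        _ = ρ * ‖e‖ * (s * ‖R s‖) := by ring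
        _ ≤ ρ * ‖e‖ * ‖e‖ := by gcongr
        _ = ρ * ‖e‖ ^ 2 := by ring
        _ ≤ s * 1 := by linarith
    exact le_of_mul_le_mul_left h4 hs'
  obtain ⟨s, hs, hs1⟩ := intermediate_value_Icc' hs₁
    (hcont.mono fun x hx => hx.1) (⟨hle, hge⟩ : (1 : ℝ) ∈ Icc _ _)
  have hs' : 0 < s := hs₀.trans_le hs.1
  refine ⟨-s, ?_, R s, ?_, ?_⟩
  · have := hs.1
    rw [hs₀E] at this
    linarith
  · intro h0
    simp only [h0, inner_zero_right, mul_zero] at hs1
    exact zero_ne_one hs1
  · have h1 := hR s hs'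
    have h2 : ρ * inner ℝ e (R s) = 1 := hs1
    rw [h2, one_smul] at h1
    have h3 : L (R s) + s • R s = 0 := by
      have : L (R s) + e + s • R s - e = 0 := by rw [h1, sub_self]
      have h4 : L (R s) + e + s • R s - e = L (R s) + s • R s := by abel
      rwa [h4] at this
    rw [neg_smul]
    exact eq_neg_of_add_eq_zero_left h3

end Pool.Agent.Q40.LP.TaskAbs1
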