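import Pool.Agent.Q40.LP.Stmts

open Set Filter Topology MeasureTheory

namespace Pool.Agent.Q40.LP.TaskAbs2

theorem main : Pool.Agent.Q40.LP.TaskAbs2 := by
  intro X _ _ _ S O hO hpos s hs h
  have : CompleteSpace O := hO.completeSpace_coe
  let B : O →L[ℝ] O →L[ℝ] ℝ :=
    ((ContinuousLinearMap.compL ℝ O X ℝ).flip O.subtypeL).comp
      ((innerSL ℝ).comp ((S + s • ContinuousLinearMap.id ℝ X).comp O.subtypeL))
  have hB : ∀ v w : O, B v w = inner ℝ (S (v : X)) (w : X) + s * inner ℝ (v : X) (w : X) := by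
    intro v w
    have : B v w = inner ℝ (S (v : X) + s • (v : X)) (w : X) := rfl
    rw [this, inner_add_left, real_inner_smul_left]
  have hc : IsCoercive B := by
    refine ⟨s, hs, fun u => ?_⟩
    rw [hB]
    have h1 := hpos u u.2
    have h2 : inner ℝ (u : X) (u : X) = ‖u‖ * ‖u‖ := by
      rw [real_inner_self_eq_norm_mul_norm]; rfl
    rw [h2]
    nlinarith
  let r : O := (InnerProductSpace.toDual ℝ O).symm ((innerSL ℝ (S h)).comp O.subtypeL)
  have hr : ∀ w : O, inner ℝ r w = inner ℝ (S h) (w : X) := by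
    intro w
    rw [InnerProductSpace.toDual_symm_apply]
    rfl
  let v : O := hc.continuousLinearEquivOfBilin.symm r
  have hv : ∀ w : O, B v w = inner ℝ (S h) (w : X) := by
    intro w
    rw [← hr w, ← hc.continuousLinearEquivOfBilin_apply v w]
    simp only [v, ContinuousLinearEquiv.apply_symm_apply]
  refine ⟨v, v.2, fun z hz => ?_⟩
  have h3 := hv ⟨z, hz⟩
  rw [hB] at h3
  rw [map_sub, inner_sub_left]
  simp only at h3
  linarith

end Pool.Agent.Q40.LP.TaskAbs2
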