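import Pool.Agent.Q40.LP.Stmts

set_option autoImplicit false

open Set Filter Topology MeasureTheory

namespace Pool.Agent.Q40.LP.TaskAnn

open Pool.Agent.Q40.LP

theorem main (hC : TaskCirc) : Pool.Agent.Q40.LP.TaskAnn := by
  intro R hR
  set S : Set ℂ := {y | R < ‖y‖ ∧ ‖y‖ < R + 1} with hS
  have hSo : IsOpen S := (isOpen_lt continuous_const continuous_norm).inter
    (isOpen_lt continuous_norm continuous_const)
  have hSm : MeasurableSet S := hSo.measurableSet
  have hSn : S.Nonempty := by
    refine ⟨((R + 1 / 2 : ℝ) : ℂ), ?_⟩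
    simp only [hS, Set.mem_ofPred_eq, Complex.norm_real, Real.norm_eq_abs]
    rw [abs_of_pos (by linarith)]
    constructor <;> linarith
  have hSf : volume S ≠ ⊤ := by
    refine ((measure_mono (fun y hy => ?_)).trans_lt
      (measure_ball_lt_top (x := (0 : ℂ)) (r := R + 1))).ne
    rw [mem_ball_zero_iff]
    exact hy.2
  have hS0 : volume S ≠ 0 := (hSo.measure_pos volume hSn).ne'
  set a : ℝ := volume.real S with ha
  have ha0 : a ≠ 0 := by
    rw [ha, Measure.real, ENNReal.toReal_ne_zero]
    exact ⟨hS0, hSf⟩
  set b : ℂ → ℝ := S.indicator (fun _ => a⁻¹) with hb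
  have hgood : Good b := by
    refine ⟨memLp_indicator_const 2 hSm a⁻¹ (Or.inr hSf), R + 1, fun x hx => ?_⟩
    rw [hb, indicator_of_notMem]
    intro h
    exact absurd h.2 (not_lt.2 hx.le)
  refine ⟨b, ∫ y, Real.log (1 / ‖y‖) * b y, hgood, ?_, ?_⟩
  · rw [hb, integral_indicator_const _ hSm, smul_eq_mul, ← ha]
    exact mul_inv_cancel₀ ha0
  · intro x hx
    rcases eq_or_ne x 0 with rfl | hx0
    · unfold pot
      simp only [zero_sub, norm_neg]
    · have hr : 0 < ‖x‖ := norm_pos_iff.2 hx0
      have h1 := hC b hgood 0 ‖x‖ hr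
      have h2 : ∫ y, Real.log (1 / max ‖x‖ ‖(0 : ℂ) - y‖) * b y =
          ∫ y, Real.log (1 / ‖y‖) * b y := by
        congr 1
        funext y
        by_cases hy : y ∈ S
        · have : ‖x‖ ≤ ‖y‖ := hx.trans hy.1.le
          rw [zero_sub, norm_neg, max_eq_right this]
        · rw [hb, indicator_of_notMem hy, mul_zero, mul_zero]
      rw [h2] at h1
      rw [← h1]
      symm
      apply Real.circleAverage_const_on_circle
      intro z hz
      rw [abs_of_pos hr, mem_sphere_zero_iff_norm] at hz
      -- rotation
      have hc : ‖z / x‖ = 1 := by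
        rw [norm_div, hz, div_self hr.ne']
      set c : Circle := ⟨z / x, mem_sphere_zero_iff_norm.2 hc⟩ with hcdef
      have hz' : z = rotation c x := by
        rw [rotation_apply]
        simp only [hcdef]
        field_simp
      have hmp : MeasurePreserving (rotation c) volume volume := (rotation c).measurePreserving
      have hbr : ∀ y, b (rotation c y) = b y := by
        intro y
        have : rotation c y ∈ S ↔ y ∈ S := by
          simp only [hS, Set.mem_ofPred_eq, LinearIsometryEquiv.norm_map]
        by_cases hy : y ∈ S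
        · rw [hb, indicator_of_mem hy, indicator_of_mem (this.2 hy)]
        · rw [hb, indicator_of_notMem hy, indicator_of_notMem (fun h => hy (this.1 h))]
      unfold pot
      rw [← hmp.integral_comp (rotation c).toHomeomorph.measurableEmbedding
        (fun y => Real.log (1 / ‖z - y‖) * b y)]
      congr 1
      funext y
      rw [hbr, hz', ← map_sub, LinearIsometryEquiv.norm_map]

end Pool.Agent.Q40.LP.TaskAnn
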