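import Pool.Agent.Q40.LP.Stmts

open Set Filter Topology MeasureTheory

namespace Pool.Agent.Q40.LP.TaskBdd

theorem main (hB : TaskBound) : Pool.Agent.Q40.LP.TaskBdd := by
  intro Ω _ hb
  obtain ⟨R0, hR0⟩ := hb.subset_closedBall (0 : ℂ)
  set R : ℝ := max R0 1 with hR
  have hRpos : 0 < R := lt_max_of_lt_right one_pos
  have hΩR : Ω ⊆ Metric.closedBall (0 : ℂ) R :=
    hR0.trans (Metric.closedBall_subset_closedBall (le_max_left _ _))
  obtain ⟨C, hC, hbound⟩ := hB R hRpos
  set V : ℝ := volume.real (Metric.closedBall (0 : ℂ) R) with hV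
  refine ⟨-(C * Real.sqrt V), ?_⟩
  rintro τ u ⟨⟨hu2, hu0⟩, hne, hae⟩
  have huR : ∀ x, R < ‖x‖ → u x = 0 := fun x hx => hu0 x fun hxΩ => by
    have := hΩR hxΩ
    rw [mem_closedBall_zero_iff] at this
    linarith
  have hp := hbound u hu2 huR
  set I : ℝ := ∫ y, u y ^ 2 with hI
  have hint : Integrable (fun y => u y ^ 2) volume := hu2.integrable_sq
  have hI0 : 0 < I := by
    rw [hI, integral_pos_iff_support_of_nonneg (fun y => sq_nonneg (u y)) hint]
    rw [pos_iff_ne_zero]
    intro h0
    apply hne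
    have : ∀ᵐ x, x ∉ Function.support fun y => u y ^ 2 := by
      rw [ae_iff]
      refine (congrArg volume ?_).trans h0
      ext x
      simp
    filter_upwards [this] with x hx
    simpa using hx
  have hkey : ∫ x, τ ^ 2 * u x ^ 2 ≤
      ∫ x, (Metric.closedBall (0 : ℂ) R).indicator (fun _ => C ^ 2 * I) x := by
    refine integral_mono_ae (hint.const_mul _) ?_ ?_
    · refine (integrable_indicator_iff Metric.isClosed_closedBall.measurableSet).2 ?_
      refine integrableOn_const ?_ ?_
      · exact (isCompact_closedBall (0 : ℂ) R).measure_lt_top.ne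
      · finiteness
    · filter_upwards [hae] with x hx
      by_cases hxΩ : x ∈ Ω
      · have h1 := hΩR hxΩ
        rw [indicator_of_mem h1]
        have h2 := hp x (mem_closedBall_zero_iff.1 h1)
        rw [hx hxΩ] at h2
        have h3 : (τ * u x) ^ 2 ≤ (C * Real.sqrt I) ^ 2 := by
          rw [← sq_abs (τ * u x)]
          exact pow_le_pow_left₀ (abs_nonneg _) h2 2
        rw [mul_pow, mul_pow, Real.sq_sqrt hI0.le] at h3
        exact h3
      · simp only [hu0 x hxΩ]
        rw [zero_pow two_ne_zero, mul_zero]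
        exact indicator_nonneg (fun _ _ => by positivity) x
  rw [integral_const_mul, integral_indicator Metric.isClosed_closedBall.measurableSet,
    setIntegral_const, smul_eq_mul, ← hI, ← hV] at hkey
  have h4 : τ ^ 2 ≤ (C * Real.sqrt V) ^ 2 := by
    rw [mul_pow, Real.sq_sqrt measureReal_nonneg]
    have : τ ^ 2 * I ≤ (C ^ 2 * V) * I := by linarith [hkey, mul_comm V (C ^ 2 * I)]
    exact le_of_mul_le_mul_right this hI0
  have h5 := abs_le_of_sq_le_sq' h4 (by positivity)
  exact h5.1

end Pool.Agent.Q40.LP.TaskBdd
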