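import Pool.Agent.Q40.LP.Stmts

/-! Blueprint for MP_86d647_an: bilinearity of the energy (helper182). -/

open Set Filter Topology MeasureTheory

namespace Pool.Agent.Q40.LP.TaskBil
open Pool.Agent.Q40.LP

theorem intg (hC : TaskCont) {u v : ℂ → ℝ} (hu : Good u) (hv : Good v) :
    Integrable (fun x => pot u x * v x) := by
  obtain ⟨R, hR⟩ := hv.2
  have hK : IsCompact (Metric.closedBall (0 : ℂ) R) := isCompact_closedBall 0 R
  haveI : IsFiniteMeasure (volume.restrict (Metric.closedBall (0 : ℂ) R)) :=
    isFiniteMeasure_restrict.2 hK.measure_lt_top.ne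
  have h1 : IntegrableOn v (Metric.closedBall (0 : ℂ) R) :=
    MemLp.integrable (q := 2) (by norm_num) (hv.1.restrict _)
  have h2 := h1.continuousOn_mul (hC u hu).continuousOn hK
  refine (integrableOn_iff_integrable_of_support_subset ?_).1 h2
  intro x hx
  rw [Function.mem_support] at hx
  rw [Metric.mem_closedBall, dist_zero_right]
  by_contra h
  exact hx (by rw [hR x (not_le.1 h), mul_zero])

theorem main (hI : TaskInt) (hC : TaskCont) : Pool.Agent.Q40.LP.TaskBil := by
  intro u v w hu hv hw a b
  have h0 : ∀ x, pot (fun y => a * u y + b * v y) x = a * pot u x + b * pot v x := by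
    intro x
    unfold pot
    rw [← integral_const_mul, ← integral_const_mul,
      ← integral_add ((hI u hu x).const_mul a) ((hI v hv x).const_mul b)]
    exact integral_congr_ae (Eventually.of_forall fun y => by ring)
  refine ⟨h0, ?_, ?_, intg hC hu hv⟩
  · unfold En
    rw [← integral_const_mul, ← integral_const_mul,
      ← integral_add ((intg hC hu hw).const_mul a) ((intg hC hv hw).const_mul b)]
    exact integral_congr_ae (Eventually.of_forall fun x => by
      show pot (fun y => a * u y + b * v y) x * w x = _
      rw [h0]; ring)
  · unfold En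
    rw [← integral_const_mul, ← integral_const_mul,
      ← integral_add ((intg hC hw hu).const_mul a) ((intg hC hw hv).const_mul b)]
    exact integral_congr_ae (Eventually.of_forall fun x => by
      show pot w x * (a * u x + b * v x) = _
      ring)

end Pool.Agent.Q40.LP.TaskBil
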