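import Pool.Agent.Q40.LP.Stmts

open Set Filter Topology MeasureTheory

namespace Pool.Agent.Q40.LP.TaskBound

theorem sq_int (r : ℝ) :
    IntegrableOn (fun z : ℂ => Real.log ‖z‖ ^ 2) (Metric.ball (0 : ℂ) r) := by
  have h := (integrableOn_fun_norm_addHaar (E := ℂ) (μ := (volume : Measure ℂ))
    (f := fun y : ℝ => Real.log y ^ 2) (r := r)).2
  refine h ?_
  rw [Complex.finrank_real_complex]
  have hc : Continuous (fun y : ℝ => 4 * (Real.negMulLog (Real.sqrt y)) ^ 2) := by
    have := Real.continuous_negMulLog.comp Real.continuous_sqrt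
    exact continuous_const.mul (this.pow 2)
  have h1 : IntegrableOn (fun y : ℝ => 4 * (Real.negMulLog (Real.sqrt y)) ^ 2) (Ioo 0 r) :=
    (hc.integrableOn_Icc (a := 0) (b := r)).mono_set Ioo_subset_Icc_self
  refine h1.congr_fun ?_ measurableSet_Ioo
  intro y hy
  have hy0 : 0 < y := hy.1
  have hs : Real.log (Real.sqrt y) = Real.log y / 2 := Real.log_sqrt hy0.le
  have hsq : Real.sqrt y ^ 2 = y := Real.sq_sqrt hy0.le
  show 4 * (Real.negMulLog (Real.sqrt y)) ^ 2 = y ^ (2 - 1) • (Real.log y ^ 2)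
  unfold Real.negMulLog
  rw [hs, smul_eq_mul]
  have e : (4 : ℝ) * (-Real.sqrt y * (Real.log y / 2)) ^ 2 = Real.sqrt y ^ 2 * Real.log y ^ 2 := by
    ring
  rw [e, hsq]
  norm_num

theorem main : Pool.Agent.Q40.LP.TaskBound := by
  intro R hR
  set H : ℂ → ℝ := (Metric.ball (0 : ℂ) (2 * R + 1)).indicator (fun z => Real.log ‖z‖ ^ 2) with hH
  have hHint : Integrable H := by
    rw [hH, integrable_indicator_iff Metric.isOpen_ball.measurableSet]
    exact sq_int _
  have hH0 : ∀ z, 0 ≤ H z := by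
    intro z
    rw [hH]
    exact indicator_nonneg (fun _ _ => sq_nonneg _) z
  refine ⟨Real.sqrt (∫ z, H z) + 1, by positivity, ?_⟩
  intro u hu hu0 x hx
  set f : ℂ → ℝ := (Metric.closedBall (0 : ℂ) R).indicator (fun y => Real.log (1 / ‖x - y‖)) with hf
  have hmeas : Measurable f := by
    refine Measurable.indicator ?_ Metric.isClosed_closedBall.measurableSet
    exact Real.measurable_log.comp (measurable_const.div ((measurable_const.sub measurable_id).norm))
  have hfsq : ∀ y, f y ^ 2 ≤ H (x - y) := by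
    intro y
    by_cases hy : y ∈ Metric.closedBall (0 : ℂ) R
    · have h1 : f y = Real.log (1 / ‖x - y‖) := indicator_of_mem hy _
      have hyR : ‖y‖ ≤ R := by simpa using hy
      have h2 : x - y ∈ Metric.ball (0 : ℂ) (2 * R + 1) := by
        rw [mem_ball_zero_iff]
        have := norm_sub_le x y
        linarith
      have h3 : H (x - y) = Real.log ‖x - y‖ ^ 2 := indicator_of_mem h2 _
      rw [h1, h3, one_div, Real.log_inv]
      exact le_of_eq (by ring)
    · have h1 : f y = 0 := indicator_of_notMem hy _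
      rw [h1]
      simpa using hH0 (x - y)
  have hHx : Integrable (fun y => H (x - y)) := hHint.comp_sub_left x
  have hf2 : Integrable (fun y => f y ^ 2) := by
    refine hHx.mono' (hmeas.pow_const 2).aestronglyMeasurable (Eventually.of_forall fun y => ?_)
    rw [Real.norm_of_nonneg (sq_nonneg _)]
    exact hfsq y
  have hfL : MemLp f 2 volume := (memLp_two_iff_integrable_sq hmeas.aestronglyMeasurable).2 hf2
  have hpot : pot u x = ∫ y, f y * u y := by
    unfold pot
    congr 1
    funext y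
    by_cases hy : y ∈ Metric.closedBall (0 : ℂ) R
    · rw [hf, indicator_of_mem hy]
    · have hy' : R < ‖y‖ := by
        rw [mem_closedBall_zero_iff, not_le] at hy
        exact hy
      rw [hu0 y hy', mul_zero, mul_zero]
  have hcs := integral_mul_norm_le_Lp_mul_Lq (μ := (volume : Measure ℂ)) (f := f) (g := u)
    (p := 2) (q := 2) Real.HolderConjugate.two_two
    (by simpa using hfL) (by simpa using hu)
  have e1 : ∀ g : ℂ → ℝ, (∫ a, ‖g a‖ ^ (2 : ℝ)) ^ (1 / (2 : ℝ)) = Real.sqrt (∫ a, g a ^ 2) := by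
    intro g
    rw [Real.sqrt_eq_rpow]
    congr 2
    funext a
    rw [Real.rpow_two, Real.norm_eq_abs, sq_abs]
  rw [e1, e1] at hcs
  have h5 : ∫ y, f y ^ 2 ≤ ∫ z, H z := by
    calc ∫ y, f y ^ 2 ≤ ∫ y, H (x - y) := integral_mono hf2 hHx hfsq
      _ = ∫ z, H z := integral_sub_left_eq_self H volume x
  have h6 : |pot u x| ≤ ∫ y, ‖f y‖ * ‖u y‖ := by
    rw [hpot]
    have := norm_integral_le_integral_norm (μ := (volume : Measure ℂ)) (fun y => f y * u y)
    rw [Real.norm_eq_abs] at this
    refine this.trans (le_of_eq ?_)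
    congr 1
    funext y
    exact norm_mul _ _
  have h7 : 0 ≤ Real.sqrt (∫ y, u y ^ 2) := Real.sqrt_nonneg _
  calc |pot u x| ≤ Real.sqrt (∫ y, f y ^ 2) * Real.sqrt (∫ y, u y ^ 2) := h6.trans hcs
    _ ≤ Real.sqrt (∫ z, H z) * Real.sqrt (∫ y, u y ^ 2) :=
        mul_le_mul_of_nonneg_right (Real.sqrt_le_sqrt h5) h7
    _ ≤ (Real.sqrt (∫ z, H z) + 1) * Real.sqrt (∫ y, u y ^ 2) :=
        mul_le_mul_of_nonneg_right (by linarith) h7

end Pool.Agent.Q40.LP.TaskBound
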