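import Pool.Agent.Q40.LP.Stmts

/-! T8 of the blueprint for `MP_86d647_an` (helper7). -/

open Set Filter Topology MeasureTheory

namespace Pool.Agent.Q40.LP.TaskCirc

private theorem absBound (h2 : TaskBound) (u : ℂ → ℝ) (hu : Good u) (ρ : ℝ) :
    ∃ B : ℝ, ∀ x : ℂ, ‖x‖ ≤ ρ → ∫ y, ‖Real.log (1 / ‖x - y‖) * u y‖ ≤ B := by
  obtain ⟨hL, R, hR⟩ := hu
  set R' : ℝ := max (max R ρ) 1 with hR'
  have hR'0 : 0 < R' := lt_of_lt_of_le one_pos (le_max_right _ _)
  obtain ⟨C, hC0, hC⟩ := h2 R' hR'0
  refine ⟨C * Real.sqrt (∫ y, u y ^ 2), fun x hx => ?_⟩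
  have hxR : ‖x‖ ≤ R' := hx.trans ((le_max_right _ _).trans (le_max_left _ _))
  -- the auxiliary function
  set s : ℂ → ℝ := fun y => if 0 ≤ Real.log (1 / ‖x - y‖) then 1 else -1 with hs
  set w : ℂ → ℝ := fun y => s y * |u y| with hw
  have hsm : Measurable s := by
    apply Measurable.ite _ measurable_const measurable_const
    apply measurableSet_le measurable_const
    exact Real.measurable_log.comp (((measurable_const.sub measurable_id).norm).const_div 1)
  have hsabs : ∀ y, |s y| = 1 := by
    intro y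
    by_cases h : 0 ≤ Real.log (1 / ‖x - y‖)
    · simp only [hs, if_pos h, abs_one]
    · simp only [hs, if_neg h, abs_neg, abs_one]
  have hwabs : ∀ y, ‖w y‖ = ‖u y‖ := by
    intro y
    rw [hw]
    simp only [norm_mul, Real.norm_eq_abs, hsabs, one_mul, abs_abs]
  have hwL : MemLp w 2 volume := by
    refine MemLp.of_le hL ?_ (Eventually.of_forall fun y => (hwabs y).le)
    exact hsm.aestronglyMeasurable.mul hL.1.norm
  have hw0 : ∀ y, R' < ‖y‖ → w y = 0 := by
    intro y hy
    have : u y = 0 := hR y (lt_of_le_of_lt ((le_max_left _ _).trans (le_max_left _ _)) hy)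
    rw [hw]; simp [this]
  have key := hC w hwL hw0 x hxR
  have e1 : pot w x = ∫ y, ‖Real.log (1 / ‖x - y‖) * u y‖ := by
    unfold pot
    refine integral_congr_ae (Eventually.of_forall fun y => ?_)
    simp only [hw, norm_mul, Real.norm_eq_abs]
    by_cases h : 0 ≤ Real.log (1 / ‖x - y‖)
    · simp only [hs, if_pos h, abs_of_nonneg h, one_mul]
    · simp only [hs, if_neg h]
      rw [abs_of_neg (not_le.mp h)]
      ring
  have e2 : ∫ y, w y ^ 2 = ∫ y, u y ^ 2 := by
    refine integral_congr_ae (Eventually.of_forall fun y => ?_)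
    have := hwabs y
    simp only [Real.norm_eq_abs] at this
    show w y ^ 2 = u y ^ 2
    rw [← sq_abs (w y), this, sq_abs]
  rw [e2, e1] at key
  exact (le_abs_self _).trans key

private theorem inner (x y : ℂ) (r : ℝ) (hr : 0 < r) :
    Real.circleAverage (fun z => Real.log (1 / ‖z - y‖)) x r = Real.log (1 / max r ‖x - y‖) := by
  have h := circleAverage_log_norm_sub_const_eq_log_radius_add_posLog (a := y) (c := x) hr.ne'
  have e : (fun z : ℂ => Real.log (1 / ‖z - y‖)) = fun z => -Real.log ‖z - y‖ := by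
    funext z; rw [one_div, Real.log_inv]
  rw [e]
  have e2 : Real.circleAverage (fun z => -Real.log ‖z - y‖) x r
      = - Real.circleAverage (fun z => Real.log ‖z - y‖) x r := by
    unfold Real.circleAverage
    rw [intervalIntegral.integral_neg, smul_neg]
  rw [e2, h, one_div, Real.log_inv, neg_inj]
  rcases le_total r ‖x - y‖ with hle | hle
  · rw [max_eq_right hle]
    have hpos : 0 < ‖x - y‖ := lt_of_lt_of_le hr hle
    rw [Real.posLog_eq_log, Real.log_mul (inv_ne_zero hr.ne') hpos.ne', Real.log_inv]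
    · ring
    · rw [abs_of_nonneg (by positivity)]
      rw [inv_mul_eq_div, one_le_div hr]
      exact hle
  · rw [max_eq_left hle]
    have : Real.posLog (r⁻¹ * ‖x - y‖) = 0 := by
      rw [Real.posLog_eq_zero_iff, abs_of_nonneg (by positivity), inv_mul_eq_div, div_le_one hr]
      exact hle
    rw [this, add_zero]

theorem main (h1 : TaskInt) (h2 : TaskBound) : Pool.Agent.Q40.LP.TaskCirc := by
  intro u hu x r hr
  obtain ⟨B, hB⟩ := absBound h2 u hu (‖x‖ + r)
  have hcm : ∀ θ : ℝ, ‖circleMap x r θ‖ ≤ ‖x‖ + r := by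
    intro θ
    unfold circleMap
    refine (norm_add_le _ _).trans ?_
    rw [norm_mul, Complex.norm_exp_ofReal_mul_I, mul_one, Complex.norm_real, Real.norm_eq_abs,
      abs_of_pos hr]
  set μ : Measure ℝ := volume.restrict (Ioc 0 (2 * Real.pi)) with hμ
  have hfin : IsFiniteMeasure μ := by
    rw [hμ]; infer_instance
  set f : ℝ → ℂ → ℝ := fun θ y => Real.log (1 / ‖circleMap x r θ - y‖) * u y with hf
  have hcmm : Measurable (circleMap x r) := (continuous_circleMap x r).measurable
  have hfm : AEStronglyMeasurable (Function.uncurry f) (μ.prod volume) := by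
    have a1 : Measurable (fun p : ℝ × ℂ => Real.log (1 / ‖circleMap x r p.1 - p.2‖)) := by
      refine Real.measurable_log.comp (Measurable.const_div ?_ 1)
      exact ((hcmm.comp measurable_fst).sub measurable_snd).norm
    exact a1.aestronglyMeasurable.mul hu.1.1.comp_snd
  have hint : Integrable (Function.uncurry f) (μ.prod volume) := by
    rw [integrable_prod_iff hfm]
    refine ⟨Eventually.of_forall fun θ => h1 u hu (circleMap x r θ), ?_⟩
    refine Integrable.mono' (integrable_const B) ?_ (Eventually.of_forall fun θ => ?_)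
    · exact hfm.norm.integral_prod_right'
    · have hb := hB _ (hcm θ)
      have hn : (0:ℝ) ≤ ∫ y, ‖Function.uncurry f (θ, y)‖ := integral_nonneg fun y => norm_nonneg _
      rw [Real.norm_of_nonneg hn]
      exact hb
  have hswap := integral_integral_swap hint
  have hle : (0 : ℝ) ≤ 2 * Real.pi := by positivity
  show (2 * Real.pi)⁻¹ • (∫ θ in (0 : ℝ)..2 * Real.pi, pot u (circleMap x r θ)) = _
  rw [intervalIntegral.integral_of_le hle]
  have e0 : (∫ θ in Ioc 0 (2 * Real.pi), pot u (circleMap x r θ)) = ∫ θ, ∫ y, f θ y ∂volume ∂μ := rfl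
  rw [e0, hswap, ← integral_smul]
  refine integral_congr_ae (Eventually.of_forall fun y => ?_)
  show (2 * Real.pi)⁻¹ • (∫ θ, f θ y ∂μ) = Real.log (1 / max r ‖x - y‖) * u y
  rw [← inner x y r hr]
  unfold Real.circleAverage
  rw [intervalIntegral.integral_of_le hle, hf, hμ]
  simp only [smul_eq_mul]
  rw [integral_mul_const]
  ring

end Pool.Agent.Q40.LP.TaskCirc
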