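import Pool.Agent.Q40.LP.Stmts

/-!
# MP_86d647_an, task `TaskCont`: potentials are continuous
-/

set_option autoImplicit false

open Set Filter Topology MeasureTheory
open scoped Convolution

namespace Pool.Agent.Q40.LP.TaskCont

theorem locInt (hI : TaskInt) :
    LocallyIntegrable (fun z : ℂ => Real.log (1 / ‖z‖)) volume := by
  intro x
  obtain ⟨R, hR⟩ : ∃ R : ℝ, R = ‖x‖ + 1 := ⟨_, rfl⟩
  refine ⟨Metric.ball 0 R, Metric.isOpen_ball.mem_nhds (by simp [hR]), ?_⟩
  have hG : Good ((Metric.ball (0 : ℂ) R).indicator (fun _ => (1 : ℝ))) := by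
    refine ⟨memLp_indicator_const 2 Metric.isOpen_ball.measurableSet 1
      (Or.inr measure_ball_lt_top.ne), R, fun y hy => ?_⟩
    rw [indicator_of_notMem]
    simp only [Metric.mem_ball, dist_zero_right, not_lt]
    exact hy.le
  have h := hI _ hG 0
  have e : (fun y : ℂ => Real.log (1 / ‖0 - y‖) *
      (Metric.ball (0 : ℂ) R).indicator (fun _ => (1 : ℝ)) y) =
      (Metric.ball (0 : ℂ) R).indicator (fun z => Real.log (1 / ‖z‖)) := by
    ext y
    by_cases hy : y ∈ Metric.ball (0 : ℂ) R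
    · rw [indicator_of_mem hy, indicator_of_mem hy, mul_one, zero_sub, norm_neg]
    · rw [indicator_of_notMem hy, indicator_of_notMem hy, mul_zero]
  rw [e] at h
  exact (integrable_indicator_iff Metric.isOpen_ball.measurableSet).1 h

theorem cont_cc (hI : TaskInt) (w : ℂ → ℝ) (hw : Continuous w) (hc : HasCompactSupport w) :
    Continuous (pot w) := by
  have h := hc.continuous_convolution_right (ContinuousLinearMap.mul ℝ ℝ) (locInt hI) hw
  have e : pot w = (fun z : ℂ => Real.log (1 / ‖z‖)) ⋆[ContinuousLinearMap.mul ℝ ℝ, volume] w := by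
    ext x
    unfold pot
    rw [convolution_def]
    rw [← integral_sub_left_eq_self (fun y => Real.log (1 / ‖x - y‖) * w y) volume x]
    refine integral_congr_ae (ae_of_all _ fun t => ?_)
    simp
  rw [e]
  exact h

theorem main (hI : TaskInt) (hB : TaskBound) : Pool.Agent.Q40.LP.TaskCont := by
  rintro u ⟨hu, R₀, hR₀⟩
  refine continuous_of_locally_uniform_approx_of_continuousAt fun x₀ U hU => ?_
  obtain ⟨ε, hε, hεU⟩ := Metric.mem_uniformity_dist.1 hU
  obtain ⟨R, hR⟩ : ∃ R : ℝ, R = |R₀| + ‖x₀‖ + 2 := ⟨_, rfl⟩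
  have hRpos : 0 < R := by rw [hR]; positivity
  obtain ⟨C, hC, hCb⟩ := hB R hRpos
  have hεC : 0 < ε / (2 * C) := by positivity
  obtain ⟨v, hvc, hvn, hvcont, hvm⟩ := hu.exists_hasCompactSupport_eLpNorm_sub_le
    (by simp) (ε := ENNReal.ofReal (ε / (2 * C))) (by simpa using hεC)
  obtain ⟨χ, hχ⟩ : ∃ χ : ℂ → ℝ, χ = fun y => max 0 (min 1 (R - ‖y‖)) := ⟨_, rfl⟩
  obtain ⟨w, hw⟩ : ∃ w : ℂ → ℝ, w = fun y => χ y * v y := ⟨_, rfl⟩
  have hχ0 : ∀ y, 0 ≤ χ y := fun y => by rw [hχ]; exact le_max_left _ _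
  have hχ1 : ∀ y, χ y ≤ 1 := fun y => by
    rw [hχ]; exact max_le zero_le_one (min_le_left _ _)
  have hχcont : Continuous χ := by rw [hχ]; fun_prop
  have hwcont : Continuous w := by rw [hw]; exact hχcont.mul hvcont
  have hwc : HasCompactSupport w := by
    rw [hw]
    exact hvc.mul_left
  have hwm : MemLp w 2 volume := hwcont.memLp_of_hasCompactSupport hwc
  have hχu : ∀ y, u y = χ y * u y := by
    intro y
    by_cases hy : R₀ < ‖y‖
    · rw [hR₀ y hy, mul_zero]
    · have h1 : ‖y‖ ≤ |R₀| := le_trans (not_lt.1 hy) (le_abs_self _)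
      have h2 : 1 ≤ R - ‖y‖ := by
        rw [hR]; linarith [norm_nonneg x₀]
      have h3 : χ y = 1 := by
        rw [hχ]
        simp only
        rw [min_eq_left h2, max_eq_right zero_le_one]
      rw [h3, one_mul]
  have hle : ∀ y, ‖(u - w) y‖ ≤ ‖(u - v) y‖ := by
    intro y
    have h1 : (u - w) y = χ y * (u - v) y := by
      rw [Pi.sub_apply, Pi.sub_apply, hw]
      simp only
      rw [mul_sub, ← hχu y]
    rw [h1, norm_mul, Real.norm_of_nonneg (hχ0 y)]
    exact mul_le_of_le_one_left (norm_nonneg _) (hχ1 y)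
  have hmem : MemLp (u - w) 2 volume := hu.sub hwm
  have hn : eLpNorm (u - w) 2 volume ≤ ENNReal.ofReal (ε / (2 * C)) :=
    (eLpNorm_mono hle).trans hvn
  have hnorm : Real.sqrt (∫ y, (u y - w y) ^ 2) ≤ ε / (2 * C) := by
    rw [hmem.eLpNorm_eq_integral_rpow_norm two_ne_zero (by simp),
      ENNReal.ofReal_le_ofReal_iff hεC.le] at hn
    rw [Real.sqrt_eq_rpow]
    convert hn using 2
    · refine integral_congr_ae (ae_of_all _ fun y => ?_)
      simp
    · simp
  have hwR : ∀ y, R < ‖y‖ → w y = 0 := by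
    intro y hy
    have h3 : χ y = 0 := by
      rw [hχ]
      simp only
      rw [max_eq_left]
      exact (min_le_right _ _).trans (by linarith)
    rw [hw]
    simp only
    rw [h3, zero_mul]
  have huR : ∀ y, R < ‖y‖ → u y = 0 := by
    intro y hy
    refine hR₀ y (lt_of_le_of_lt ?_ hy)
    rw [hR]
    linarith [norm_nonneg x₀, le_abs_self R₀]
  refine ⟨Metric.ball x₀ 1, Metric.ball_mem_nhds _ one_pos, pot w,
    (cont_cc hI w hwcont hwc).continuousAt, fun x hx => hεU ?_⟩
  have hxR : ‖x‖ ≤ R := by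
    have h1 : ‖x - x₀‖ < 1 := by simpa [dist_eq_norm] using hx
    have h2 : ‖x‖ ≤ ‖x - x₀‖ + ‖x₀‖ := by
      calc ‖x‖ = ‖(x - x₀) + x₀‖ := by rw [sub_add_cancel]
        _ ≤ _ := norm_add_le _ _
    rw [hR]
    linarith [abs_nonneg R₀]
  have hsub : pot u x - pot w x = pot (fun y => u y - w y) x := by
    unfold pot
    rw [← integral_sub (hI u ⟨hu, R₀, hR₀⟩ x) (hI w ⟨hwm, R, hwR⟩ x)]
    refine integral_congr_ae (ae_of_all _ fun y => ?_)
    ring
  have hb := hCb (fun y => u y - w y) hmem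
    (fun y hy => by rw [huR y hy, hwR y hy, sub_zero]) x hxR
  rw [Real.dist_eq, hsub]
  calc |pot (fun y => u y - w y) x| ≤ C * Real.sqrt (∫ y, (u y - w y) ^ 2) := hb
    _ ≤ C * (ε / (2 * C)) := mul_le_mul_of_nonneg_left hnorm hC.le
    _ = ε / 2 := by field_simp
    _ < ε := by linarith

end Pool.Agent.Q40.LP.TaskCont
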