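import Pool.Agent.Q40.LP.Stmts

/-! Blueprint for MP_86d647_an: the decomposition of a function on the polarization (helper182). -/

open Set Filter Topology MeasureTheory

namespace Pool.Agent.Q40.LP.TaskDecomp
open Pool.Agent.Q40.LP

theorem main (hR : TaskRefl) : Pool.Agent.Q40.LP.TaskDecomp := by
  intro n c hn Ω hΩ hb v hv hv0
  obtain ⟨hss, hiso, hlin, -, hmp, hcont, -⟩ := hR n c hn
  have him : refl n c '' Ω = refl n c ⁻¹' Ω := by
    ext x
    constructor
    · rintro ⟨y, hy, rfl⟩
      show refl n c (refl n c y) ∈ Ω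
      rwa [hss]
    · intro hx
      exact ⟨refl n c x, hx, hss x⟩
  have hv2 : ∀ x, x ∉ polar n c Ω → v x = 0 := hv.2
  unfold polar at hv2
  rw [him] at hv2
  revert him hss hiso hlin hmp hcont hv2
  generalize refl n c = σ
  intro hss hiso hlin hmp hcont him hv2
  have hSo : IsOpen (σ ⁻¹' Ω) := hΩ.preimage hcont
  have hlc : Continuous (lin n c) := by unfold lin; fun_prop
  have hHo : IsOpen (half n c) := isOpen_lt continuous_const hlc
  obtain ⟨A, hAd⟩ : ∃ A : Set ℂ, A = Ω ∩ σ ⁻¹' Ω := ⟨_, rfl⟩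
  obtain ⟨B, hBd⟩ : ∃ B : Set ℂ, B = (Ω \ σ ⁻¹' Ω) ∩ half n c := ⟨_, rfl⟩
  obtain ⟨C, hCd⟩ : ∃ C : Set ℂ, C = (σ ⁻¹' Ω \ Ω) ∩ half n c := ⟨_, rfl⟩
  have hA : MeasurableSet A := by rw [hAd]; exact (hΩ.inter hSo).measurableSet
  have hB : MeasurableSet B := by
    rw [hBd]; exact (hΩ.measurableSet.diff hSo.measurableSet).inter hHo.measurableSet
  have hC : MeasurableSet C := by
    rw [hCd]; exact (hSo.measurableSet.diff hΩ.measurableSet).inter hHo.measurableSet
  have mA : ∀ x, x ∈ A ↔ x ∈ Ω ∧ σ x ∈ Ω := fun x => by rw [hAd]; rfl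
  have mB : ∀ x, x ∈ B ↔ (x ∈ Ω ∧ σ x ∉ Ω) ∧ 0 < lin n c x := fun x => by rw [hBd]; rfl
  have mC : ∀ x, x ∈ C ↔ (σ x ∈ Ω ∧ x ∉ Ω) ∧ 0 < lin n c x := fun x => by rw [hCd]; rfl
  have hAs : ∀ x, σ x ∈ A ↔ x ∈ A := fun x => by rw [mA, mA, hss]; tauto
  have hvdec : ∀ x, v x = A.indicator v x + B.indicator v x + C.indicator v x := by
    intro x
    classical
    rw [indicator_apply, indicator_apply, indicator_apply]
    by_cases h1 : x ∈ Ω
    · by_cases h2 : σ x ∈ Ω
      · rw [if_pos ((mA x).2 ⟨h1, h2⟩), if_neg (fun h => ((mB x).1 h).1.2 h2),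
          if_neg (fun h => ((mC x).1 h).1.2 h1)]; ring
      · rw [if_neg (fun h => h2 ((mA x).1 h).2), if_neg (fun h => ((mC x).1 h).1.2 h1)]
        by_cases h3 : 0 < lin n c x
        · rw [if_pos ((mB x).2 ⟨⟨h1, h2⟩, h3⟩)]; ring
        · rw [if_neg (fun h => h3 ((mB x).1 h).2)]
          rw [hv2 x ?_]; · ring
          rintro (h | h)
          · exact h3 h.2
          · exact h2 h.1.2
    · rw [if_neg (fun h => h1 ((mA x).1 h).1), if_neg (fun h => h1 ((mB x).1 h).1.1)]
      by_cases h2 : σ x ∈ Ω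
      · by_cases h3 : 0 < lin n c x
        · rw [if_pos ((mC x).2 ⟨⟨h2, h1⟩, h3⟩)]; ring
        · rw [if_neg (fun h => h3 ((mC x).1 h).2)]
          rw [hv2 x ?_]; · ring
          rintro (h | h)
          · exact h3 h.2
          · exact h1 h.1.1
      · rw [if_neg (fun h => h2 ((mC x).1 h).1.1)]
        rw [hv2 x ?_]; · ring
        rintro (h | h)
        · rcases h.1 with h | h
          · exact h1 h
          · exact h2 h
        · exact h1 h.1.1
  obtain ⟨R, hR⟩ := hb.exists_norm_le
  have hfar : ∀ x, max R (R + ‖σ 0‖) < ‖x‖ → x ∉ Ω ∧ σ x ∉ Ω := by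
    intro x hx
    refine ⟨fun h => ?_, fun h => ?_⟩
    · exact absurd (hR x h) (not_le.2 (lt_of_le_of_lt (le_max_left _ _) hx))
    · have h1 := hR _ h
      have h2 := hiso (σ x) 0
      rw [hss, sub_zero] at h2
      have h3 : ‖x‖ ≤ ‖x - σ 0‖ + ‖σ 0‖ := by
        have := norm_add_le (x - σ 0) (σ 0)
        rwa [sub_add_cancel] at this
      have h4 := lt_of_le_of_lt (le_max_right _ _) hx
      linarith
  have hmem : ∀ D : Set ℂ, MeasurableSet D →
      MemLp (fun x => (D.indicator v x - D.indicator v (σ x)) / 2) 2 volume := by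
    intro D hD
    have h1 := hv.1.indicator hD
    have h2 := h1.comp_measurePreserving hmp
    have h3 : (fun x => (D.indicator v x - D.indicator v (σ x)) / 2) =
        fun x => (1 / 2 : ℝ) * (D.indicator v - D.indicator v ∘ σ) x := by
      funext x
      show _ = (1 / 2 : ℝ) * (D.indicator v x - D.indicator v (σ x))
      ring
    rw [h3]
    exact (h1.sub h2).const_mul _
  have he : MemLp (fun x => (v x + v (σ x)) / 2) 2 volume := by
    have h2 := hv.1.comp_measurePreserving hmp
    have h3 : (fun x => (v x + v (σ x)) / 2) = fun x => (1 / 2 : ℝ) * (v + v ∘ σ) x := by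
      funext x
      show _ = (1 / 2 : ℝ) * (v x + v (σ x))
      ring
    rw [h3]
    exact (hv.1.add h2).const_mul _
  have hv3 : ∀ x, x ∉ Ω → σ x ∉ Ω → v x = 0 := by
    intro x h1 h2
    refine hv2 x ?_
    rintro (h | h)
    · rcases h.1 with h | h
      · exact h1 h
      · exact h2 h
    · exact h1 h.1.1
  have hfar0 : ∀ D : Set ℂ, ∀ x, max R (R + ‖σ 0‖) < ‖x‖ →
      (D.indicator v x - D.indicator v (σ x)) / 2 = 0 := by
    intro D x hx
    classical
    obtain ⟨h1, h2⟩ := hfar x hx
    have h3 := hv3 x h1 h2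
    have h4 := hv3 (σ x) h2 (by rwa [hss])
    rw [indicator_apply, indicator_apply, h3, h4]
    simp
  have hpos : ∀ D : Set ℂ, (∀ x ∈ D, 0 < lin n c x) →
      ∀ᵐ x, x ∈ half n c → 0 ≤ (D.indicator v x - D.indicator v (σ x)) / 2 := by
    intro D hD
    filter_upwards [hv0] with x hx hxH
    classical
    have h1 : σ x ∉ D := fun h => by
      have := hD _ h
      rw [hlin] at this
      have h' : 0 < lin n c x := hxH
      linarith
    rw [indicator_of_notMem h1, indicator_apply]
    split_ifs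
    · linarith
    · norm_num
  refine ⟨A, fun x => (v x + v (σ x)) / 2,
    fun x => (A.indicator v x - A.indicator v (σ x)) / 2,
    fun x => (B.indicator v x - B.indicator v (σ x)) / 2,
    fun x => (C.indicator v x - C.indicator v (σ x)) / 2, hA,
    hb.subset fun x hx => ((mA x).1 hx).1, hAs, ⟨he, max R (R + ‖σ 0‖), ?_⟩, ⟨hmem A hA, ?_⟩,
    ⟨hmem B hB, _, hfar0 B⟩, ⟨hmem C hC, _, hfar0 C⟩, fun x => rfl, ?_, ?_, ?_, ?_,
    hpos B fun x hx => ((mB x).1 hx).2, hpos C fun x hx => ((mC x).1 hx).2, ?_, ?_, ?_, ?_⟩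
  · intro x hx
    obtain ⟨h1, h2⟩ := hfar x hx
    have h3 := hv3 x h1 h2
    have h4 := hv3 (σ x) h2 (by rwa [hss])
    show (v x + v (σ x)) / 2 = 0
    rw [h3, h4]; norm_num
  · intro x hx
    show (A.indicator v x - A.indicator v (σ x)) / 2 = 0
    rw [indicator_of_notMem hx, indicator_of_notMem (fun h => hx ((hAs x).1 h))]
    norm_num
  · intro x
    show (v (σ x) + v (σ (σ x))) / 2 = (v x + v (σ x)) / 2
    rw [hss]; ring
  · intro x
    show (A.indicator v (σ x) - A.indicator v (σ (σ x))) / 2 =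
      - ((A.indicator v x - A.indicator v (σ x)) / 2)
    rw [hss]; ring
  · intro x
    show (B.indicator v (σ x) - B.indicator v (σ (σ x))) / 2 =
      - ((B.indicator v x - B.indicator v (σ x)) / 2)
    rw [hss]; ring
  · intro x
    show (C.indicator v (σ x) - C.indicator v (σ (σ x))) / 2 =
      - ((C.indicator v x - C.indicator v (σ x)) / 2)
    rw [hss]; ring
  · intro x hx
    have h := (mA x).1 hx
    have h1 : x ∉ B := fun h' => ((mB x).1 h').1.2 h.2
    have h2 : σ x ∉ B := fun h' => ((mB _).1 h').1.2 (by rw [hss]; exact h.1)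
    have h3 : x ∉ C := fun h' => ((mC x).1 h').1.2 h.1
    have h4 : σ x ∉ C := fun h' => ((mC _).1 h').1.2 h.2
    constructor
    · show (B.indicator v x - B.indicator v (σ x)) / 2 = 0
      rw [indicator_of_notMem h1, indicator_of_notMem h2]; norm_num
    · show (C.indicator v x - C.indicator v (σ x)) / 2 = 0
      rw [indicator_of_notMem h3, indicator_of_notMem h4]; norm_num
  · intro x
    show (B.indicator v x - B.indicator v (σ x)) / 2 *
      ((C.indicator v x - C.indicator v (σ x)) / 2) = 0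
    by_cases h1 : x ∈ B
    · have h := (mB x).1 h1
      have h3 : x ∉ C := fun h' => ((mC x).1 h').1.2 h.1.1
      have h4 : σ x ∉ C := fun h' => by
        have := ((mC _).1 h').2
        rw [hlin] at this
        linarith [h.2]
      rw [indicator_of_notMem h3, indicator_of_notMem h4]; ring
    by_cases h2 : σ x ∈ B
    · have h := (mB _).1 h2
      have h3 : x ∉ C := fun h' => by
        have h5 := ((mC _).1 h').2
        have h6 := h.2
        rw [hlin] at h6
        linarith
      have h4 : σ x ∉ C := fun h' => ((mC _).1 h').1.2 h.1.1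
      rw [indicator_of_notMem h3, indicator_of_notMem h4]; ring
    rw [indicator_of_notMem h1, indicator_of_notMem h2]; ring
  · intro x
    show v x = (v x + v (σ x)) / 2 + ((A.indicator v x - A.indicator v (σ x)) / 2 +
      (B.indicator v x - B.indicator v (σ x)) / 2 + (C.indicator v x - C.indicator v (σ x)) / 2)
    have h1 := hvdec x
    have h2 := hvdec (σ x)
    linarith
  · intro α' hα'
    refine ⟨he.add ((hα'.1.add (hmem B hB)).sub (hmem C hC)), fun x hx => ?_⟩
    have h1 : α' x = 0 := hα'.2 x (fun h => hx ((mA x).1 h).1)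
    have h2 : A.indicator v x = 0 := indicator_of_notMem (fun h => hx ((mA x).1 h).1) _
    have h3 : A.indicator v (σ x) = 0 :=
      indicator_of_notMem (fun h => hx ((mA x).1 ((hAs x).1 h)).1) _
    have h4 : B.indicator v x = 0 := indicator_of_notMem (fun h => hx ((mB x).1 h).1.1) _
    have h5 : C.indicator v (σ x) = 0 := indicator_of_notMem (fun h => hx (by
      have := ((mC _).1 h).1.1
      rwa [hss] at this)) _
    show (v x + v (σ x)) / 2 + (α' x + (B.indicator v x - B.indicator v (σ x)) / 2 -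
      (C.indicator v x - C.indicator v (σ x)) / 2) = 0
    have h6 := hvdec x
    have h7 := hvdec (σ x)
    linarith

end Pool.Agent.Q40.LP.TaskDecomp
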