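import Pool.Agent.Q40.LP.Stmts2

set_option autoImplicit false

open Set Filter Topology MeasureTheory

namespace Pool.Agent.Q40.LP.TaskDisc

open Pool.Agent.Q40.LP

theorem main (hM : TaskMin) (hC : TaskCirc) (hB : TaskBil) : Pool.Agent.Q40.LP.TaskDisc := by
  intro R hR
  set ρ : ℝ := (1 + R) / 2 with hρ
  have hρ1 : 1 < ρ := by rw [hρ]; linarith
  have hρR : ρ < R := by rw [hρ]; linarith
  set S : Set ℂ := {y | ρ < ‖y‖ ∧ ‖y‖ < R} with hS
  have hSo : IsOpen S := (isOpen_lt continuous_const continuous_norm).inter
    (isOpen_lt continuous_norm continuous_const)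
  have hSm : MeasurableSet S := hSo.measurableSet
  have hSn : S.Nonempty := by
    refine ⟨(((ρ + R) / 2 : ℝ) : ℂ), ?_⟩
    simp only [hS, Set.mem_ofPred_eq, Complex.norm_real, Real.norm_eq_abs]
    rw [abs_of_pos (by linarith)]
    constructor <;> linarith
  have hSf : volume S ≠ ⊤ := by
    refine ((measure_mono (fun y hy => ?_)).trans_lt
      (measure_ball_lt_top (x := (0 : ℂ)) (r := R))).ne
    rw [mem_ball_zero_iff]
    exact hy.2
  have hS0 : volume S ≠ 0 := (hSo.measure_pos volume hSn).ne'
  set m : ℝ := volume.real S with hm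
  have hm0 : 0 < m := by
    rw [hm, Measure.real]
    exact ENNReal.toReal_pos hS0 hSf
  set a : ℂ → ℝ := S.indicator (fun _ => (1 : ℝ)) with ha
  have hgood : Good a := by
    refine ⟨memLp_indicator_const 2 hSm 1 (Or.inr hSf), R, fun x hx => ?_⟩
    rw [ha, indicator_of_notMem]
    intro h
    exact absurd h.2 (not_lt.2 hx.le)
  have hai : ∫ y, a y = m := by
    rw [ha, integral_indicator_const _ hSm, smul_eq_mul, mul_one, ← hm]
  have haI : Integrable a := by
    rw [ha, integrable_indicator_iff hSm]
    exact integrableOn_const hSf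
  have ha2 : ∀ y, a y ^ 2 = a y := by
    intro y
    by_cases hy : y ∈ S
    · rw [ha, indicator_of_mem hy]; norm_num
    · rw [ha, indicator_of_notMem hy]; norm_num
  have hIn : In (Metric.ball 0 R) a := by
    refine ⟨hgood.1, fun x hx => ?_⟩
    rw [ha, indicator_of_notMem]
    intro h
    exact hx (mem_ball_zero_iff.2 h.2)
  have hne : ¬ a =ᵐ[volume] 0 := by
    intro h
    have h1 : ∫ y, a y = 0 := by
      rw [integral_congr_ae h]; simp
    rw [hai] at h1
    exact hm0.ne' h1
  have hlog : 0 < Real.log ρ := Real.log_pos hρ1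
  -- potential on the annulus
  have hpot : ∀ x ∈ S, pot a x ≤ -(Real.log ρ) * m := by
    intro x hx
    have hr : 0 < ‖x‖ := by have := hx.1; linarith
    have hx0 : x ≠ 0 := norm_pos_iff.1 hr
    have h1 := hC a hgood 0 ‖x‖ hr
    have h3 : Real.circleAverage (pot a) 0 ‖x‖ = pot a x := by
      apply Real.circleAverage_const_on_circle
      intro z hz
      rw [abs_of_pos hr, mem_sphere_zero_iff_norm] at hz
      have hc : ‖z / x‖ = 1 := by
        rw [norm_div, hz, div_self hr.ne']
      set c : Circle := ⟨z / x, mem_sphere_zero_iff_norm.2 hc⟩ with hcdef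
      have hz' : z = rotation c x := by
        rw [rotation_apply]
        simp only [hcdef]
        field_simp
      have hmp : MeasurePreserving (rotation c) volume volume := (rotation c).measurePreserving
      have hbr : ∀ y, a (rotation c y) = a y := by
        intro y
        have : rotation c y ∈ S ↔ y ∈ S := by
          simp only [hS, Set.mem_ofPred_eq, LinearIsometryEquiv.norm_map]
        by_cases hy : y ∈ S
        · rw [ha, indicator_of_mem hy, indicator_of_mem (this.2 hy)]
        · rw [ha, indicator_of_notMem hy, indicator_of_notMem (fun h => hy (this.1 h))]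
      unfold pot
      rw [← hmp.integral_comp (rotation c).toHomeomorph.measurableEmbedding
        (fun y => Real.log (1 / ‖z - y‖) * a y)]
      congr 1
      funext y
      rw [hbr, hz', ← map_sub, LinearIsometryEquiv.norm_map]
    rw [h3] at h1
    rw [h1, ← hai, ← integral_const_mul]
    have hint : Integrable (fun y => Real.log (1 / max ‖x‖ ‖(0 : ℂ) - y‖) * a y) := by
      have h4 : (fun y => Real.log (1 / max ‖x‖ ‖(0 : ℂ) - y‖) * a y) =
          S.indicator (fun y => Real.log (1 / max ‖x‖ ‖(0 : ℂ) - y‖)) := by
        funext y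
        by_cases hy : y ∈ S
        · rw [ha, indicator_of_mem hy, indicator_of_mem hy, mul_one]
        · rw [ha, indicator_of_notMem hy, indicator_of_notMem hy, mul_zero]
      rw [h4, integrable_indicator_iff hSm]
      have h5 : Continuous (fun y : ℂ => Real.log (1 / max ‖x‖ ‖(0 : ℂ) - y‖)) := by
        have h7 : ∀ y : ℂ, max ‖x‖ ‖(0 : ℂ) - y‖ ≠ 0 := fun y =>
          (lt_of_lt_of_le hr (le_max_left _ _)).ne'
        have h8 : Continuous (fun y : ℂ => max ‖x‖ ‖(0 : ℂ) - y‖) := by fun_prop
        exact (continuous_const.div h8 h7).log fun y => one_div_ne_zero (h7 y)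
      refine (h5.continuousOn.integrableOn_compact
        (ProperSpace.isCompact_closedBall (0 : ℂ) R)).mono_set ?_
      intro y hy
      rw [mem_closedBall_zero_iff]
      exact hy.2.le
    refine integral_mono hint (haI.const_mul _) ?_
    intro y
    by_cases hy : y ∈ S
    · simp only [ha, indicator_of_mem hy, mul_one]
      have h9 : ρ ≤ max ‖x‖ ‖(0 : ℂ) - y‖ := hx.1.le.trans (le_max_left _ _)
      rw [one_div, Real.log_inv]
      have := Real.log_le_log (by linarith) h9
      linarith
    · simp only [ha, indicator_of_notMem hy, mul_zero]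
      exact le_refl _
  have hEint : Integrable (fun x => pot a x * a x) := (hB a a a hgood hgood hgood 0 0).2.2.2
  have hE : En a a ≤ -(Real.log ρ) * m * m := by
    unfold En
    calc ∫ x, pot a x * a x ≤ ∫ x, (-(Real.log ρ) * m) * a x := by
          refine integral_mono hEint (haI.const_mul _) ?_
          intro x
          by_cases hx : x ∈ S
          · simp only [ha, indicator_of_mem hx, mul_one]
            exact hpot x hx
          · simp only [ha, indicator_of_notMem hx, mul_zero]
            exact le_refl _
      _ = _ := by rw [integral_const_mul, hai]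
  have hEneg : En a a < 0 := by
    have : 0 < Real.log ρ * m * m := by positivity
    linarith
  have hl : En a a / m < 0 := div_neg_of_neg_of_pos hEneg hm0
  obtain ⟨τ, hτ, v, hv⟩ := hM (Metric.ball 0 R) measurableSet_ball Metric.isBounded_ball (En a a / m) a
    hIn hne hl (by
      have : ∫ x, a x ^ 2 = m := by simp_rw [ha2]; exact hai
      rw [this, div_mul_cancel₀ _ hm0.ne'])
  exact ⟨τ, lt_of_le_of_lt hτ hl, v, hv⟩

end Pool.Agent.Q40.LP.TaskDisc
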