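import Pool.Agent.Q40.LP.Stmts2

set_option autoImplicit false

namespace Pool.Agent.Q40.LP.TaskDom

open Set Filter Topology MeasureTheory Pool.Agent.Q40.LP

theorem main (hFek : TaskFek) (hScale : TaskScale) (hLow : TaskLow) (hRect : TaskRect) :
    Pool.Agent.Q40.LP.TaskDom := by
  intro R hR δ hδ
  obtain ⟨A, hA⟩ : ∃ A : ℝ, A = R * Real.exp 2 := ⟨_, rfl⟩
  have hApos : 0 < A := by rw [hA]; exact mul_pos hR (Real.exp_pos _)
  obtain ⟨e, hepos, he1, he2⟩ : ∃ e : ℝ, 0 < e ∧ e ≤ 1 ∧ e ≤ δ / (2 * A ^ 2) :=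
    ⟨min 1 (δ / (2 * A ^ 2)), lt_min one_pos (by positivity), min_le_left _ _, min_le_right _ _⟩
  let E : Set ℂ := {z : ℂ | 0 ≤ z.re ∧ z.re ≤ 1 ∧ 0 ≤ z.im ∧ z.im ≤ e}
  have hEb : Bornology.IsBounded E := by
    rw [isBounded_iff_forall_norm_le]
    refine ⟨1 + e, fun z hz => ?_⟩
    obtain ⟨hz1, hz2, hz3, hz4⟩ := hz
    calc ‖z‖ ≤ |z.re| + |z.im| := Complex.norm_le_abs_re_add_abs_im z
      _ ≤ 1 + e := by
        rw [abs_of_nonneg hz1, abs_of_nonneg hz3]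
        exact add_le_add hz2 hz4
  have hE01 : ∀ t : ℝ, 0 ≤ t → t ≤ 1 → (t : ℂ) ∈ E := by
    intro t h0 h1
    refine ⟨?_, ?_, ?_, ?_⟩
    · rwa [Complex.ofReal_re]
    · rwa [Complex.ofReal_re]
    · rw [Complex.ofReal_im]
    · rw [Complex.ofReal_im]
      exact hepos.le
  have hEne : E.Nonempty := ⟨((0 : ℝ) : ℂ), hE01 0 le_rfl zero_le_one⟩
  let D : ℕ → ℝ := fun n => diam E (n + 2)
  have hanti : Antitone D := antitone_nat_of_succ_le fun n => hFek E hEb hEne (n + 2) (by omega)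
  have hbd : ∀ n, Real.exp (-2) ≤ D n := fun n => hLow E hEb hE01 (n + 2) (by omega)
  have hbb : BddBelow (Set.range D) := ⟨Real.exp (-2), by rintro _ ⟨n, rfl⟩; exact hbd n⟩
  have htend : Tendsto D atTop (𝓝 (⨅ n, D n)) := tendsto_atTop_ciInf hanti hbb
  obtain ⟨t, ht⟩ : ∃ t : ℝ, t = ⨅ n, D n := ⟨_, rfl⟩
  rw [← ht] at htend
  have ht2 : Real.exp (-2) ≤ t := by rw [ht]; exact le_ciInf hbd
  have htpos : 0 < t := (Real.exp_pos _).trans_le ht2
  obtain ⟨a, haR⟩ : ∃ a : ℝ, a = R / t := ⟨_, rfl⟩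
  have ha : 0 < a := by rw [haR]; exact div_pos hR htpos
  have haA : a ≤ A := by
    have h7 : R / t ≤ R / Real.exp (-2) := div_le_div_of_nonneg_left hR.le (Real.exp_pos _) ht2
    rw [Real.exp_neg, div_inv_eq_mul] at h7
    rw [haR, hA]
    exact h7
  obtain ⟨Ω, h1, h2, h3, h4, h5, h6⟩ := hRect a e ha hepos
  refine ⟨Ω, h1, h2, h3, ?_, ?_, ?_⟩
  · rw [h4]
    calc a ^ 2 * e ≤ A ^ 2 * (δ / (2 * A ^ 2)) :=
          mul_le_mul (pow_le_pow_left₀ ha.le haA 2) he2 hepos.le (by positivity)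
      _ = δ / 2 := by field_simp
      _ < δ := half_lt_self hδ
  · intro x hx
    refine (h5 x hx).trans ?_
    calc a * (1 + e) ≤ A * 2 := mul_le_mul haA (by linarith) (by linarith) hApos.le
      _ = 2 * R * Real.exp 2 := by rw [hA]; ring
  · show Tendsto (diam (closure Ω)) atTop (𝓝 R)
    rw [← tendsto_add_atTop_iff_nat 2]
    have h8 : (fun n => diam (closure Ω) (n + 2)) = fun n => a * D n := by
      funext n
      rw [h6]
      exact hScale E a hEb hEne ha (n + 2) (by omega)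
    rw [h8]
    have h7 := htend.const_mul a
    have h9 : a * t = R := by rw [haR]; exact div_mul_cancel₀ R htpos.ne'
    rwa [h9] at h7

end Pool.Agent.Q40.LP.TaskDom
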