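import Mathlib
import Pool.Agent.Q40.LP.Stmts2

namespace Pool.Agent.Q40.LP.TaskFact

open Finset Pool.Agent.Q40.LP

theorem inner (n i m : ℕ) (hn : n = (i + 1) + m) :
    ∏ j : Fin n, (if i < (j : ℕ) then ‖((i : ℂ) / (n : ℝ)) - (((j : ℕ) : ℂ) / (n : ℝ))‖ else 1) =
      (m.factorial : ℝ) / (n : ℝ) ^ m := by
  have hn0 : (0 : ℝ) < n := by
    have : 0 < n := by omega
    exact_mod_cast this
  rw [Fin.prod_univ_eq_prod_range
    (fun j : ℕ => if i < j then ‖((i : ℂ) / (n : ℝ)) - ((j : ℂ) / (n : ℝ))‖ else 1) n]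
  have e : range n = range ((i + 1) + m) := by rw [← hn]
  rw [e, prod_range_add]
  have e1 : ∏ x ∈ range (i + 1), (if i < x then ‖((i : ℂ) / (n : ℝ)) - ((x : ℂ) / (n : ℝ))‖ else 1) =
      1 := by
    apply prod_eq_one
    intro x hx
    have : ¬ i < x := by
      have := mem_range.1 hx
      omega
    simp [this]
  rw [e1, one_mul]
  have e2 : ∀ x ∈ range m, (if i < i + 1 + x then
      ‖((i : ℂ) / (n : ℝ)) - (((i + 1 + x : ℕ) : ℂ) / (n : ℝ))‖ else 1) = ((x + 1 : ℕ) : ℝ) / n := by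
    intro x _
    have h : i < i + 1 + x := by omega
    rw [if_pos h]
    have : ((i : ℂ) / (n : ℝ)) - (((i + 1 + x : ℕ) : ℂ) / (n : ℝ)) =
        ((-(((x + 1 : ℕ) : ℝ) / n) : ℝ) : ℂ) := by
      push_cast
      ring
    rw [this, Complex.norm_real, norm_neg, Real.norm_eq_abs, abs_of_nonneg (by positivity)]
  rw [prod_congr rfl e2, prod_div_distrib, prod_const, card_range, ← Nat.cast_prod,
    prod_range_add_one_eq_factorial]

theorem lower (n m : ℕ) (hn : 0 < n) : Real.exp (-(n : ℝ)) ≤ (m.factorial : ℝ) / (n : ℝ) ^ m := by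
  have h := Real.pow_div_factorial_le_exp (n : ℝ) (by positivity) m
  have hm : (0 : ℝ) < m.factorial := by exact_mod_cast m.factorial_pos
  have hn' : (0 : ℝ) < n := by exact_mod_cast hn
  have hp : (0 : ℝ) < (n : ℝ) ^ m / m.factorial := by positivity
  rw [Real.exp_neg]
  calc (Real.exp (n : ℝ))⁻¹ ≤ ((n : ℝ) ^ m / m.factorial)⁻¹ := inv_anti₀ hp h
    _ = (m.factorial : ℝ) / (n : ℝ) ^ m := by rw [inv_div]

theorem main : Pool.Agent.Q40.LP.TaskFact := by
  intro n hn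
  obtain ⟨k, rfl⟩ : ∃ k, n = k + 1 := ⟨n - 1, by omega⟩
  unfold distProd
  have key : ∀ i : Fin (k + 1), ∏ j ∈ univ.filter (fun j : Fin (k + 1) => i < j),
      ‖(((i : ℕ) : ℂ) / (((k + 1 : ℕ) : ℝ) : ℂ)) - (((j : ℕ) : ℂ) / (((k + 1 : ℕ) : ℝ) : ℂ))‖ =
      ((k - (i : ℕ)).factorial : ℝ) / ((k + 1 : ℕ) : ℝ) ^ (k - (i : ℕ)) := by
    intro i
    rw [prod_filter]
    have := inner (k + 1) i (k - i) (by have := i.2; omega)
    rw [← this]
    apply prod_congr rfl
    intro j _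
    simp only [Fin.lt_def]
  rw [prod_congr rfl (fun i _ => key i), Fin.prod_univ_castSucc]
  have hl : (((k - ((Fin.last k : Fin (k + 1)) : ℕ)).factorial : ℕ) : ℝ) /
      ((k + 1 : ℕ) : ℝ) ^ (k - ((Fin.last k : Fin (k + 1)) : ℕ)) = 1 := by
    simp
  rw [hl, mul_one]
  calc Real.exp (-(((k + 1 : ℕ) : ℝ) * (((k + 1 : ℕ) : ℝ) - 1)))
      = ∏ _i : Fin k, Real.exp (-((k + 1 : ℕ) : ℝ)) := by
        rw [prod_const, card_univ, Fintype.card_fin, ← Real.exp_nat_mul]
        congr 1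
        push_cast
        ring
    _ ≤ _ := by
        apply prod_le_prod
        · intro i _
          exact (Real.exp_pos _).le
        · intro i _
          exact lower (k + 1) _ (by omega)

end Pool.Agent.Q40.LP.TaskFact
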