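import Pool.Agent.Q40.LP.Stmts2

/-! U3: the diameters of a bounded set decrease (Fekete). -/

open Set Filter Topology MeasureTheory

namespace Pool.Agent.Q40.LP.TaskFek

theorem distProd_eq {n : ℕ} (z : Fin n → ℂ) :
    distProd z = ∏ p ∈ (Finset.univ : Finset (Fin n × Fin n)).filter (fun p => p.1 < p.2),
      ‖z p.1 - z p.2‖ := by
  unfold distProd
  rw [Finset.prod_filter, ← Finset.univ_product_univ, Finset.prod_product]
  refine Finset.prod_congr rfl fun i _ => ?_
  rw [Finset.prod_filter]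

theorem distProd_nonneg {n : ℕ} (z : Fin n → ℂ) : 0 ≤ distProd z := by
  unfold distProd
  exact Finset.prod_nonneg fun i _ => Finset.prod_nonneg fun j _ => norm_nonneg _

theorem leave {n : ℕ} (z : Fin (n + 1) → ℂ) (k : Fin (n + 1)) :
    distProd (fun i => z (k.succAbove i)) =
      ∏ p ∈ (Finset.univ : Finset (Fin (n + 1) × Fin (n + 1))).filter
        (fun p => p.1 < p.2 ∧ p.1 ≠ k ∧ p.2 ≠ k), ‖z p.1 - z p.2‖ := by
  rw [distProd_eq]
  refine Finset.prod_bij (fun p _ => (k.succAbove p.1, k.succAbove p.2)) ?_ ?_ ?_ ?_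
  · intro p hp
    simp only [Finset.mem_filter, Finset.mem_univ, true_and] at hp ⊢
    exact ⟨Fin.succAbove_lt_succAbove_iff.2 hp, Fin.succAbove_ne k _, Fin.succAbove_ne k _⟩
  · intro p _ q _ h
    simp only [Prod.mk.injEq] at h
    exact Prod.ext (Fin.succAbove_right_injective h.1) (Fin.succAbove_right_injective h.2)
  · intro p hp
    simp only [Finset.mem_filter, Finset.mem_univ, true_and] at hp
    obtain ⟨i, hi⟩ := Fin.exists_succAbove_eq hp.2.1
    obtain ⟨j, hj⟩ := Fin.exists_succAbove_eq hp.2.2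
    refine ⟨(i, j), ?_, ?_⟩
    · simp only [Finset.mem_filter, Finset.mem_univ, true_and]
      rw [← hi, ← hj] at hp
      exact Fin.succAbove_lt_succAbove_iff.1 hp.1
    · simp only [hi, hj]
  · intro p _
    rfl

theorem prod_leave {n : ℕ} (z : Fin (n + 1) → ℂ) :
    ∏ k : Fin (n + 1), distProd (fun i => z (k.succAbove i)) = distProd z ^ (n - 1) := by
  simp only [leave]
  rw [distProd_eq, ← Finset.prod_pow]
  have h : ∀ k : Fin (n + 1), ∏ p ∈ (Finset.univ : Finset (Fin (n + 1) × Fin (n + 1))).filter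
      (fun p => p.1 < p.2 ∧ p.1 ≠ k ∧ p.2 ≠ k), ‖z p.1 - z p.2‖ =
      ∏ p ∈ (Finset.univ : Finset (Fin (n + 1) × Fin (n + 1))).filter (fun p => p.1 < p.2),
        if (p.1 ≠ k ∧ p.2 ≠ k) then ‖z p.1 - z p.2‖ else 1 := by
    intro k
    rw [← Finset.prod_filter, Finset.filter_filter]
  rw [Finset.prod_congr rfl fun k _ => h k, Finset.prod_comm]
  refine Finset.prod_congr rfl fun p hp => ?_
  simp only [Finset.mem_filter, Finset.mem_univ, true_and] at hp
  rw [← Finset.prod_filter, Finset.prod_const]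
  congr 1
  have h2 : (Finset.univ.filter fun k : Fin (n + 1) => p.1 ≠ k ∧ p.2 ≠ k) =
      Finset.univ \ {p.1, p.2} := by
    ext k
    simp only [Finset.mem_filter, Finset.mem_univ, true_and, Finset.mem_sdiff,
      Finset.mem_insert, Finset.mem_singleton, not_or]
    constructor
    · rintro ⟨a, b⟩
      exact ⟨fun h => a h.symm, fun h => b h.symm⟩
    · rintro ⟨a, b⟩
      exact ⟨fun h => a h.symm, fun h => b h.symm⟩
  rw [h2, Finset.card_sdiff_of_subset (Finset.subset_univ _), Finset.card_univ, Fintype.card_fin,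
    Finset.card_pair hp.ne]
  omega

theorem bdd {E : Set ℂ} (hE : Bornology.IsBounded E) {n : ℕ} (hn : 2 ≤ n) :
    BddAbove {d | ∃ z : Fin n → ℂ, (∀ i, z i ∈ E) ∧
      d = distProd z ^ ((2 : ℝ) / (n * (n - 1)))} := by
  obtain ⟨C, hC⟩ := hE.exists_norm_le
  set B : ℝ := max (2 * C) 1 with hB
  have hB1 : 1 ≤ B := le_max_right _ _
  refine ⟨(∏ i : Fin n, ∏ j ∈ Finset.univ.filter (fun j => i < j), B) ^
    ((2 : ℝ) / (n * (n - 1))), ?_⟩
  rintro d ⟨z, hz, rfl⟩
  have hn' : (2 : ℝ) ≤ n := by exact_mod_cast hn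
  apply Real.rpow_le_rpow (distProd_nonneg z)
  · unfold distProd
    refine Finset.prod_le_prod (fun i _ => Finset.prod_nonneg fun j _ => norm_nonneg _)
      fun i _ => Finset.prod_le_prod (fun j _ => norm_nonneg _) fun j _ => ?_
    calc ‖z i - z j‖ ≤ ‖z i‖ + ‖z j‖ := norm_sub_le _ _
      _ ≤ C + C := add_le_add (hC _ (hz i)) (hC _ (hz j))
      _ = 2 * C := by ring
      _ ≤ B := le_max_left _ _
  · apply div_nonneg (by norm_num)
    apply mul_nonneg <;> linarith

theorem main : Pool.Agent.Q40.LP.TaskFek := by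
  intro E hE hne n hn
  have hn' : (2 : ℝ) ≤ n := by exact_mod_cast hn
  obtain ⟨e0, he0⟩ := hne
  set D := diam E n with hD
  unfold diam
  refine csSup_le ⟨_, ⟨(fun _ => e0 : Fin (n + 1) → ℂ), fun _ => he0, rfl⟩⟩ ?_
  rintro d ⟨z, hz, rfl⟩
  have hk : ∀ k : Fin (n + 1), distProd (fun i => z (k.succAbove i)) ^
      ((2 : ℝ) / (n * (n - 1))) ≤ D := by
    intro k
    exact le_csSup (bdd hE hn) ⟨_, fun i => hz _, rfl⟩
  have hD0 : 0 ≤ D := (Real.rpow_nonneg (distProd_nonneg _) _).trans (hk 0)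
  set P := distProd z with hP
  have hP0 : 0 ≤ P := distProd_nonneg z
  have h1 : ∏ k : Fin (n + 1), distProd (fun i => z (k.succAbove i)) ^
      ((2 : ℝ) / (n * (n - 1))) ≤ D ^ (n + 1) := by
    calc _ ≤ ∏ _k : Fin (n + 1), D := Finset.prod_le_prod
          (fun k _ => Real.rpow_nonneg (distProd_nonneg _) _) fun k _ => hk k
      _ = D ^ (n + 1) := by simp
  have h2 : ∏ k : Fin (n + 1), distProd (fun i => z (k.succAbove i)) ^
      ((2 : ℝ) / (n * (n - 1))) = (P ^ ((2 : ℝ) / (((n + 1 : ℕ) : ℝ) * (((n + 1 : ℕ) : ℝ) - 1)))) ^ (n + 1) := by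
    rw [Real.finsetProd_rpow _ _ (fun k _ => distProd_nonneg _), prod_leave,
      ← Real.rpow_natCast, ← Real.rpow_natCast, ← Real.rpow_mul hP0, ← Real.rpow_mul hP0]
    congr 1
    have h3 : ((n - 1 : ℕ) : ℝ) = (n : ℝ) - 1 := by
      rw [Nat.cast_sub (by omega)]; simp
    rw [h3]
    push_cast
    have h4 : (n : ℝ) - 1 ≠ 0 := by linarith
    have h5 : (n : ℝ) ≠ 0 := by linarith
    have h6 : (n : ℝ) + 1 ≠ 0 := by linarith
    have h7 : (n : ℝ) + 1 - 1 = n := by ring
    rw [h7]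
    field_simp
  rw [h2] at h1
  exact le_of_pow_le_pow_left₀ (by omega) hD0 h1

end Pool.Agent.Q40.LP.TaskFek
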