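import Pool.Agent.Q40.LP.Stmts

/-!
# Task Fru: Frullani's integral
-/

set_option autoImplicit false

open Set Filter Topology MeasureTheory

namespace Pool.Agent.Q40.LP.TaskFru

theorem integrable_fru {a b : ℝ} (ha : 0 < a) (hab : a ≤ b) :
    IntegrableOn (fun t : ℝ => t⁻¹ * (Real.exp (-(a * t)) - Real.exp (-(b * t)))) (Ioi 0) := by
  have h1 : IntegrableOn (fun t : ℝ => (b - a) * Real.exp (-a * t)) (Ioi 0) :=
    (integrableOn_exp_mul_Ioi (by linarith : -a < 0) 0).const_mul _
  refine Integrable.mono' h1 (by fun_prop) ?_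
  filter_upwards [ae_restrict_mem measurableSet_Ioi] with t ht
  have ht' : (0 : ℝ) < t := ht
  have h2 : Real.exp (-(b * t)) = Real.exp (-(a * t)) * Real.exp (-((b - a) * t)) := by
    rw [← Real.exp_add]
    congr 1
    ring
  have h3 := Real.add_one_le_exp (-((b - a) * t))
  have h4 : Real.exp (-((b - a) * t)) ≤ 1 := by
    rw [Real.exp_le_one_iff]
    have : 0 ≤ (b - a) * t := mul_nonneg (by linarith) ht'.le
    linarith
  have h5 := Real.exp_pos (-(a * t))
  have h6 : 0 ≤ Real.exp (-(a * t)) - Real.exp (-(b * t)) := by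
    rw [h2]
    nlinarith
  rw [Real.norm_eq_abs, abs_of_nonneg (mul_nonneg (inv_nonneg.2 ht'.le) h6),
    inv_mul_le_iff₀ ht', h2, show -a * t = -(a * t) by ring]
  nlinarith

theorem main : Pool.Agent.Q40.LP.TaskFru := by
  intro r hr
  have hr2 : 0 < r ^ 2 := by positivity
  have hint : IntegrableOn (fun t : ℝ => t⁻¹ * (Real.exp (-(r ^ 2 * t)) - Real.exp (-(1 * t))))
      (Ioi 0) := by
    rcases le_total (r ^ 2) 1 with h | h
    · exact integrable_fru hr2 h
    · have h1 := (integrable_fru one_pos h).neg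
      refine h1.congr (Eventually.of_forall fun t => ?_)
      simp only [Pi.neg_apply]
      ring
  have hval : ∫ t in Ioi (0 : ℝ), t⁻¹ * (Real.exp (-(r ^ 2 * t)) - Real.exp (-(1 * t))) =
      Real.log (1 / r ^ 2) * (1 - 0) := by
    have hf : LocallyIntegrableOn (fun t : ℝ => Real.exp (-t)) (Ioi 0) :=
      (by fun_prop : Continuous fun t : ℝ => Real.exp (-t)).locallyIntegrable.locallyIntegrableOn _
    have hL : Tendsto (fun t : ℝ => Real.exp (-t)) (𝓝[>] 0) (𝓝 1) := by
      have : Tendsto (fun t : ℝ => Real.exp (-t)) (𝓝 0) (𝓝 (Real.exp (-0))) :=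
        (by fun_prop : Continuous fun t : ℝ => Real.exp (-t)).tendsto 0
      rw [neg_zero, Real.exp_zero] at this
      exact this.mono_left nhdsWithin_le_nhds
    have hR : Tendsto (fun t : ℝ => Real.exp (-t)) atTop (𝓝 0) :=
      Real.tendsto_exp_neg_atTop_nhds_zero
    have := Frullani.integral_Ioi_eq hf hr2 one_pos hL hR (by
      simpa only [smul_eq_mul] using hint)
    simpa only [smul_eq_mul] using this
  have heq : (fun t : ℝ => (Real.exp (-(t * r ^ 2)) - Real.exp (-t)) / (2 * t)) =
      fun t => (1 / 2) * (t⁻¹ * (Real.exp (-(r ^ 2 * t)) - Real.exp (-(1 * t)))) := by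
    funext t
    rw [mul_comm t (r ^ 2), one_mul, div_eq_mul_inv, mul_inv]
    ring
  rw [heq]
  refine ⟨hint.const_mul _, ?_⟩
  have e1 : Real.log (1 / r ^ 2) = -(2 * Real.log r) := by
    rw [one_div, Real.log_inv, Real.log_pow]
    push_cast
    ring
  have e2 : Real.log (1 / r) = -Real.log r := by rw [one_div, Real.log_inv]
  rw [integral_const_mul, hval, e1, e2]
  ring

end Pool.Agent.Q40.LP.TaskFru
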