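import Pool.Agent.Q40.LP.Stmts

set_option autoImplicit false

open Set Filter Topology MeasureTheory

namespace Pool.Agent.Q40.LP.TaskFruAbs

open Pool.Agent.Q40.LP

theorem main (h : TaskFru) : Pool.Agent.Q40.LP.TaskFruAbs := by
  intro r hr
  obtain ⟨-, h2⟩ := h r hr
  rcases le_total r 1 with h1 | h1
  · have hlog : 0 ≤ Real.log (1 / r) := by
      apply Real.log_nonneg
      rw [le_div_iff₀ hr]
      linarith
    rw [abs_of_nonneg hlog, ← h2]
    refine setIntegral_congr_fun measurableSet_Ioi fun t ht => ?_
    have ht' : (0 : ℝ) < t := ht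
    apply abs_of_nonneg
    apply div_nonneg _ (by linarith)
    have h3 : Real.exp (-t) ≤ Real.exp (-(t * r ^ 2)) := by
      apply Real.exp_le_exp.2
      have : r ^ 2 ≤ 1 := by nlinarith
      nlinarith
    linarith
  · have hlog : Real.log (1 / r) ≤ 0 := by
      apply Real.log_nonpos
      · positivity
      · rw [div_le_one hr]
        exact h1
    rw [abs_of_nonpos hlog, ← h2, ← integral_neg]
    refine setIntegral_congr_fun measurableSet_Ioi fun t ht => ?_
    have ht' : (0 : ℝ) < t := ht
    apply abs_of_nonpos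
    apply div_nonpos_of_nonpos_of_nonneg _ (by linarith)
    have h3 : Real.exp (-(t * r ^ 2)) ≤ Real.exp (-t) := by
      apply Real.exp_le_exp.2
      have : 1 ≤ r ^ 2 := by nlinarith
      nlinarith
    linarith

end Pool.Agent.Q40.LP.TaskFruAbs
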