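import Pool.Agent.Q40.LP.Stmts

open Set Filter Topology MeasureTheory

namespace Pool.Agent.Q40.LP.TaskGauss

theorem int_gauss {b : ℝ} (hb : 0 < b) :
    Integrable (fun z : ℂ => Real.exp (-(b * ‖z‖ ^ 2))) := by
  have h := GaussianFourier.integrable_cexp_neg_mul_sq_norm_add (V := ℂ) (b := (b : ℂ))
    (by simpa using hb) 0 0
  refine h.norm.congr (Eventually.of_forall fun z => ?_)
  simp only [Complex.norm_exp]
  congr 1
  have : (-(b : ℂ) * ((‖z‖ : ℝ) : ℂ) ^ 2 + 0 * ((inner ℝ (0 : ℂ) z : ℝ) : ℂ)) =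
      ((-(b * ‖z‖ ^ 2) : ℝ) : ℂ) := by push_cast; ring
  rw [this, Complex.ofReal_re]

theorem good_int {u : ℂ → ℝ} (hu : Good u) : Integrable u := by
  obtain ⟨h2, R, hR⟩ := hu
  have : IsFiniteMeasure (volume.restrict (Metric.closedBall (0 : ℂ) R)) :=
    ⟨by rw [Measure.restrict_apply_univ]; exact measure_closedBall_lt_top⟩
  have h1 : IntegrableOn u (Metric.closedBall (0 : ℂ) R) :=
    (h2.restrict (Metric.closedBall (0 : ℂ) R)).integrable (by norm_num)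
  refine (integrableOn_iff_integrable_of_support_subset ?_).1 h1
  intro x hx
  rw [Metric.mem_closedBall, dist_zero_right]
  by_contra hc
  exact hx (hR x (not_le.1 hc))

theorem norm_id (x y z : ℂ) : 2 * ‖x - z‖ ^ 2 + 2 * ‖y - z‖ ^ 2 =
    ‖x - y‖ ^ 2 + 4 * ‖z - (x + y) / 2‖ ^ 2 := by
  simp only [← Complex.normSq_eq_norm_sq, Complex.normSq_apply, Complex.sub_re, Complex.sub_im,
    Complex.add_re, Complex.add_im, Complex.div_ofNat_re, Complex.div_ofNat_im]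
  ring

theorem ker_id {t : ℝ} (x y : ℂ) :
    ∫ z : ℂ, Real.exp (-(2 * t * ‖x - z‖ ^ 2)) * Real.exp (-(2 * t * ‖y - z‖ ^ 2)) =
      Real.exp (-(t * ‖x - y‖ ^ 2)) * ∫ z : ℂ, Real.exp (-(4 * t * ‖z‖ ^ 2)) := by
  rw [← integral_sub_right_eq_self (fun z : ℂ => Real.exp (-(4 * t * ‖z‖ ^ 2))) ((x + y) / 2),
    ← integral_const_mul]
  refine integral_congr_ae (Eventually.of_forall fun z => ?_)
  show Real.exp (-(2 * t * ‖x - z‖ ^ 2)) * Real.exp (-(2 * t * ‖y - z‖ ^ 2)) =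
    Real.exp (-(t * ‖x - y‖ ^ 2)) * Real.exp (-(4 * t * ‖z - (x + y) / 2‖ ^ 2))
  rw [← Real.exp_add, ← Real.exp_add]
  congr 1
  linear_combination (-t) * norm_id x y z

theorem ker_int {t : ℝ} (ht : 0 < t) (x y : ℂ) :
    Integrable (fun z : ℂ => Real.exp (-(2 * t * ‖x - z‖ ^ 2)) *
      Real.exp (-(2 * t * ‖y - z‖ ^ 2))) := by
  have h := ((int_gauss (b := 4 * t) (by positivity)).comp_sub_right ((x + y) / 2)).const_mul
    (Real.exp (-(t * ‖x - y‖ ^ 2)))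
  refine h.congr (Eventually.of_forall fun z => ?_)
  show Real.exp (-(t * ‖x - y‖ ^ 2)) * Real.exp (-(4 * t * ‖z - (x + y) / 2‖ ^ 2)) =
    Real.exp (-(2 * t * ‖x - z‖ ^ 2)) * Real.exp (-(2 * t * ‖y - z‖ ^ 2))
  rw [← Real.exp_add, ← Real.exp_add]
  congr 1
  linear_combination t * norm_id x y z

theorem main : Pool.Agent.Q40.LP.TaskGauss := by
  intro u hu t ht
  have hui : Integrable u := good_int hu
  obtain ⟨C, hC⟩ : ∃ C : ℝ, C = ∫ z : ℂ, Real.exp (-(4 * t * ‖z‖ ^ 2)) := ⟨_, rfl⟩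
  have hC0 : 0 < C := by
    rw [hC]
    exact integral_exp_pos (int_gauss (b := 4 * t) (by positivity))
  have huu : Integrable (fun w : ℂ × ℂ => u w.1 * u w.2) (volume.prod volume) := hui.mul_prod hui
  -- the triple function
  obtain ⟨f, hf⟩ : ∃ f : (ℂ × ℂ) × ℂ → ℝ, f = fun v =>
      Real.exp (-(2 * t * ‖v.1.1 - v.2‖ ^ 2)) * Real.exp (-(2 * t * ‖v.1.2 - v.2‖ ^ 2)) *
        (u v.1.1 * u v.1.2) := ⟨_, rfl⟩
  have hfm : AEStronglyMeasurable f
      ((volume.prod volume : Measure (ℂ × ℂ)).prod (volume : Measure ℂ)) := by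
    rw [hf]
    refine AEStronglyMeasurable.mul ?_ ?_
    · refine Continuous.aestronglyMeasurable ?_
      fun_prop
    · exact huu.aestronglyMeasurable.comp_fst
  have hfi : Integrable f
      ((volume.prod volume : Measure (ℂ × ℂ)).prod (volume : Measure ℂ)) := by
    rw [integrable_prod_iff hfm]
    constructor
    · refine Eventually.of_forall fun w => ?_
      rw [hf]
      show Integrable (fun z : ℂ => Real.exp (-(2 * t * ‖w.1 - z‖ ^ 2)) *
        Real.exp (-(2 * t * ‖w.2 - z‖ ^ 2)) * (u w.1 * u w.2))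
      exact (ker_int ht w.1 w.2).mul_const (u w.1 * u w.2)
    · have e : (fun w : ℂ × ℂ => ∫ z : ℂ, ‖f (w, z)‖) = fun w =>
          ‖u w.1 * u w.2‖ * (Real.exp (-(t * ‖w.1 - w.2‖ ^ 2)) * C) := by
        funext w
        rw [hC, ← ker_id w.1 w.2, ← integral_const_mul]
        refine integral_congr_ae (Eventually.of_forall fun z => ?_)
        show ‖f (w, z)‖ = ‖u w.1 * u w.2‖ * (Real.exp (-(2 * t * ‖w.1 - z‖ ^ 2)) *
          Real.exp (-(2 * t * ‖w.2 - z‖ ^ 2)))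
        rw [hf]
        show ‖Real.exp (-(2 * t * ‖w.1 - z‖ ^ 2)) * Real.exp (-(2 * t * ‖w.2 - z‖ ^ 2)) *
          (u w.1 * u w.2)‖ = _
        rw [norm_mul, mul_comm, Real.norm_of_nonneg (by positivity : (0 : ℝ) ≤
          Real.exp (-(2 * t * ‖w.1 - z‖ ^ 2)) * Real.exp (-(2 * t * ‖w.2 - z‖ ^ 2)))]
      rw [e]
      refine Integrable.mono (huu.norm.mul_const C) ?_ ?_
      · refine AEStronglyMeasurable.mul huu.norm.aestronglyMeasurable ?_
        refine Continuous.aestronglyMeasurable ?_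
        fun_prop
      · refine Eventually.of_forall fun w => ?_
        have h1 : Real.exp (-(t * ‖w.1 - w.2‖ ^ 2)) ≤ 1 := by
          rw [Real.exp_le_one_iff]
          have : 0 ≤ t * ‖w.1 - w.2‖ ^ 2 := by positivity
          linarith
        have a1 : ‖(‖u w.1 * u w.2‖ * (Real.exp (-(t * ‖w.1 - w.2‖ ^ 2)) * C))‖ =
            ‖u w.1 * u w.2‖ * (Real.exp (-(t * ‖w.1 - w.2‖ ^ 2)) * C) :=
          Real.norm_of_nonneg (mul_nonneg (norm_nonneg _)
            (mul_nonneg (Real.exp_pos _).le hC0.le))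
        have a2 : ‖(‖u w.1 * u w.2‖ * C)‖ = ‖u w.1 * u w.2‖ * C :=
          Real.norm_of_nonneg (mul_nonneg (norm_nonneg _) hC0.le)
        show ‖(‖u w.1 * u w.2‖ * (Real.exp (-(t * ‖w.1 - w.2‖ ^ 2)) * C))‖ ≤
          ‖(‖u w.1 * u w.2‖ * C)‖
        rw [a1, a2]
        refine mul_le_mul_of_nonneg_left ?_ (norm_nonneg _)
        calc Real.exp (-(t * ‖w.1 - w.2‖ ^ 2)) * C ≤ 1 * C :=
              mul_le_mul_of_nonneg_right h1 hC0.le
          _ = C := one_mul C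
  -- swap
  have hswap : ∫ w : ℂ × ℂ, ∫ z : ℂ, f (w, z) ∂volume ∂(volume.prod volume) =
      ∫ z : ℂ, ∫ w : ℂ × ℂ, f (w, z) ∂(volume.prod volume) ∂volume :=
    integral_integral_swap (f := fun w z => f (w, z)) hfi
  have hL : ∫ w : ℂ × ℂ, ∫ z : ℂ, f (w, z) ∂volume ∂(volume.prod volume) =
      C * ∫ w : ℂ × ℂ, Real.exp (-(t * ‖w.1 - w.2‖ ^ 2)) * u w.2 * u w.1 ∂(volume.prod volume) := by
    rw [← integral_const_mul]
    refine integral_congr_ae (Eventually.of_forall fun w => ?_)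
    show ∫ z : ℂ, f (w, z) = C * (Real.exp (-(t * ‖w.1 - w.2‖ ^ 2)) * u w.2 * u w.1)
    have : ∫ z : ℂ, f (w, z) = (∫ z : ℂ, Real.exp (-(2 * t * ‖w.1 - z‖ ^ 2)) *
        Real.exp (-(2 * t * ‖w.2 - z‖ ^ 2))) * (u w.1 * u w.2) := by
      rw [hf, ← integral_mul_const]
    rw [this, ker_id, ← hC]
    ring
  have hR : 0 ≤ ∫ z : ℂ, ∫ w : ℂ × ℂ, f (w, z) ∂(volume.prod volume) ∂volume := by
    refine integral_nonneg fun z => ?_
    have : ∫ w : ℂ × ℂ, f (w, z) ∂(volume.prod volume) =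
        (∫ x : ℂ, Real.exp (-(2 * t * ‖x - z‖ ^ 2)) * u x) *
          ∫ x : ℂ, Real.exp (-(2 * t * ‖x - z‖ ^ 2)) * u x := by
      rw [← integral_prod_mul]
      refine integral_congr_ae (Eventually.of_forall fun w => ?_)
      rw [hf]
      show Real.exp (-(2 * t * ‖w.1 - z‖ ^ 2)) * Real.exp (-(2 * t * ‖w.2 - z‖ ^ 2)) *
        (u w.1 * u w.2) = Real.exp (-(2 * t * ‖w.1 - z‖ ^ 2)) * u w.1 *
          (Real.exp (-(2 * t * ‖w.2 - z‖ ^ 2)) * u w.2)
      ring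
    show 0 ≤ ∫ w : ℂ × ℂ, f (w, z) ∂(volume.prod volume)
    rw [this]
    exact mul_self_nonneg _
  rw [← hswap, hL] at hR
  have hI : 0 ≤ ∫ w : ℂ × ℂ, Real.exp (-(t * ‖w.1 - w.2‖ ^ 2)) * u w.2 * u w.1
      ∂(volume.prod volume) := nonneg_of_mul_nonneg_right hR hC0
  have hint : Integrable (fun w : ℂ × ℂ => Real.exp (-(t * ‖w.1 - w.2‖ ^ 2)) * u w.2 * u w.1)
      (volume.prod volume) := by
    refine Integrable.mono huu ?_ ?_
    · have e : (fun w : ℂ × ℂ => Real.exp (-(t * ‖w.1 - w.2‖ ^ 2)) * u w.2 * u w.1) =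
          fun w => Real.exp (-(t * ‖w.1 - w.2‖ ^ 2)) * (u w.1 * u w.2) := by
        funext w; ring
      rw [e]
      refine AEStronglyMeasurable.mul ?_ huu.aestronglyMeasurable
      refine Continuous.aestronglyMeasurable ?_
      fun_prop
    · refine Eventually.of_forall fun w => ?_
      have h1 : Real.exp (-(t * ‖w.1 - w.2‖ ^ 2)) ≤ 1 := by
        rw [Real.exp_le_one_iff]
        have : 0 ≤ t * ‖w.1 - w.2‖ ^ 2 := by positivity
        linarith
      rw [norm_mul, norm_mul, norm_mul, Real.norm_of_nonneg (Real.exp_pos _).le]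
      calc Real.exp (-(t * ‖w.1 - w.2‖ ^ 2)) * ‖u w.2‖ * ‖u w.1‖
          = Real.exp (-(t * ‖w.1 - w.2‖ ^ 2)) * (‖u w.1‖ * ‖u w.2‖) := by ring
        _ ≤ 1 * (‖u w.1‖ * ‖u w.2‖) := mul_le_mul_of_nonneg_right h1 (by positivity)
        _ = ‖u w.1‖ * ‖u w.2‖ := one_mul _
  rw [integral_prod _ hint] at hI
  convert hI using 1
  refine integral_congr_ae (Eventually.of_forall fun x => ?_)
  show (∫ y, Real.exp (-(t * ‖x - y‖ ^ 2)) * u y) * u x =
    ∫ y, Real.exp (-(t * ‖x - y‖ ^ 2)) * u y * u x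
  rw [integral_mul_const]

end Pool.Agent.Q40.LP.TaskGauss
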