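import Pool.Agent.Q40.LP.Stmts

open Set Filter Topology MeasureTheory

namespace Pool.Agent.Q40.LP.TaskInf

theorem integrable_of_good {u : ℂ → ℝ} (hu : Good u) : Integrable u volume := by
  obtain ⟨hu2, R, hR⟩ := hu
  have h1 : IntegrableOn u (Metric.closedBall 0 R) volume := by
    have : IsFiniteMeasure (volume.restrict (Metric.closedBall (0:ℂ) R)) := by
      constructor
      rw [Measure.restrict_apply_univ]
      exact measure_closedBall_lt_top
    exact (hu2.restrict _).integrable (by norm_num)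
  refine (integrableOn_iff_integrable_of_support_subset ?_).1 h1
  intro y hy
  rw [Metric.mem_closedBall, dist_zero_right]
  by_contra hcon
  exact hy (hR y (not_le.1 hcon))

theorem log_bound {a b c : ℝ} (ha : 0 < a) (hb : 0 < b) (hab : |a - b| ≤ c) (hca : b / 2 ≤ a) :
    |Real.log b - Real.log a| ≤ 2 * c / b := by
  have hc : 0 ≤ c := le_trans (abs_nonneg _) hab
  rw [abs_le] at hab
  rw [abs_le]
  constructor
  · -- log a - log b ≤ (a-b)/b ≤ c / b
    have h1 : Real.log a - Real.log b = Real.log (a / b) := (Real.log_div ha.ne' hb.ne').symm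
    have h2 : Real.log (a / b) ≤ a / b - 1 := Real.log_le_sub_one_of_pos (by positivity)
    have h3 : a / b - 1 ≤ 2 * c / b := by
      rw [div_sub_one hb.ne']
      apply div_le_div_of_nonneg_right _ hb.le
      linarith
    linarith
  · have h1 : Real.log b - Real.log a = Real.log (b / a) := (Real.log_div hb.ne' ha.ne').symm
    have h2 : Real.log (b / a) ≤ b / a - 1 := Real.log_le_sub_one_of_pos (by positivity)
    have h3 : b / a - 1 ≤ 2 * c / b := by
      rw [div_sub_one ha.ne', div_le_div_iff₀ ha hb]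
      nlinarith
    linarith

theorem main (hInt : TaskInt) : Pool.Agent.Q40.LP.TaskInf := by
  intro u hu hM ε hε
  have hui := integrable_of_good hu
  obtain ⟨hu2, R, hR⟩ := id hu
  set R' := max R 1 with hR'
  have hR'1 : 1 ≤ R' := le_max_right _ _
  have hRR' : R ≤ R' := le_max_left _ _
  set A := ∫ y, |u y| with hA
  have hA0 : 0 ≤ A := integral_nonneg fun _ => abs_nonneg _
  have hev : ∀ᶠ x in cocompact ℂ, max (2 * R') (2 * R' * A / ε + 1) < ‖x‖ :=
    (tendsto_norm_cocompact_atTop (E := ℂ)).eventually_gt_atTop _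
  filter_upwards [hev] with x hx
  have hx1 : 2 * R' < ‖x‖ := lt_of_le_of_lt (le_max_left _ _) hx
  have hx2 : 2 * R' * A / ε + 1 < ‖x‖ := lt_of_le_of_lt (le_max_right _ _) hx
  have hx0 : 0 < ‖x‖ := by linarith
  have hlogx : 0 ≤ Real.log ‖x‖ := Real.log_nonneg (by linarith)
  have hI1 := hInt u hu x
  have hI2 : Integrable (fun y => Real.log ‖x‖ * u y) := hui.const_mul _
  have hkey : ∀ y, |Real.log (1 / ‖x - y‖) * u y + Real.log ‖x‖ * u y| ≤ 2 * R' / ‖x‖ * |u y| := by
    intro y
    by_cases hy : R < ‖y‖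
    · rw [hR y hy]; simp
    · have hy' : ‖y‖ ≤ R' := le_trans (not_lt.1 hy) hRR'
      have h1 : |‖x - y‖ - ‖x‖| ≤ R' := by
        refine le_trans (abs_norm_sub_norm_le _ _) ?_
        simpa using hy'
      have h2 : ‖x‖ / 2 ≤ ‖x - y‖ := by
        rw [abs_le] at h1
        linarith [h1.1]
      have h3 : 0 < ‖x - y‖ := by linarith
      have h4 := log_bound h3 hx0 h1 h2
      rw [← add_mul, abs_mul]
      apply mul_le_mul_of_nonneg_right _ (abs_nonneg _)
      rw [one_div, Real.log_inv, neg_add_eq_sub]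
      exact h4
  have hsum : pot u x + Real.log ‖x‖ * ∫ y, u y =
      ∫ y, (Real.log (1 / ‖x - y‖) * u y + Real.log ‖x‖ * u y) := by
    rw [integral_add hI1 hI2, integral_const_mul]
    rfl
  have hbd : ∫ y, (Real.log (1 / ‖x - y‖) * u y + Real.log ‖x‖ * u y) ≤ 2 * R' / ‖x‖ * A := by
    rw [hA, ← integral_const_mul]
    exact integral_mono (hI1.add hI2) (hui.abs.const_mul _) fun y => le_trans (le_abs_self _) (hkey y)
  have hfin : 2 * R' / ‖x‖ * A < ε := by
    have : 2 * R' * A / ε < ‖x‖ := by linarith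
    rw [div_lt_iff₀ hε] at this
    rw [div_mul_eq_mul_div, div_lt_iff₀ hx0]
    linarith
  have : 0 ≤ Real.log ‖x‖ * ∫ y, u y := mul_nonneg hlogx hM
  linarith

end Pool.Agent.Q40.LP.TaskInf
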