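import Pool.Agent.Q40.LP.Stmts

/-! T26, the key inequality. -/

open Set Filter Topology MeasureTheory

namespace Pool.Agent.Q40.LP.TaskKey

theorem good_of_in {A : Set ℂ} (hA : Bornology.IsBounded A) {u : ℂ → ℝ} (hu : In A u) : Good u := by
  obtain ⟨R, hR⟩ := hA.subset_closedBall 0
  refine ⟨hu.1, R, fun x hx => hu.2 x fun hxA => ?_⟩
  have := hR hxA
  rw [mem_closedBall_zero_iff] at this
  linarith

theorem good_comb {u v : ℂ → ℝ} (hu : Good u) (hv : Good v) (a b : ℝ) :
    Good (fun x => a * u x + b * v x) := by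
  obtain ⟨R, hR⟩ := hu.2
  obtain ⟨S, hS⟩ := hv.2
  refine ⟨(hu.1.const_mul a).add (hv.1.const_mul b), max R S, fun x hx => ?_⟩
  simp only
  rw [hR x (lt_of_le_of_lt (le_max_left _ _) hx), hS x (lt_of_le_of_lt (le_max_right _ _) hx)]
  ring

theorem int_odd (hrefl : TaskRefl) {n : ℂ} {c : ℝ} (hn : ‖n‖ = 1) {u : ℂ → ℝ}
    (hodd : ∀ x, u (refl n c x) = - u x) : ∫ x, u x = 0 := by
  obtain ⟨h1, _, _, _, hmp, hcont, _⟩ := hrefl n c hn
  let e : ℂ ≃ₜ ℂ := ⟨⟨refl n c, refl n c, h1, h1⟩, hcont, hcont⟩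
  have h2 : ∫ x, u (refl n c x) = ∫ x, u x := hmp.integral_comp e.measurableEmbedding u
  simp only [hodd] at h2
  rw [integral_neg] at h2
  linarith

theorem int_mul {u v : ℂ → ℝ} (hu : Good u) (hv : Good v) : Integrable (fun x => u x * v x) :=
  hu.1.integrable_mul hv.1

theorem main (hSymm : TaskSymm) (hPD : TaskPD) (hSolve : TaskSolve) (hPpos : TaskPpos)
    (hBil : TaskBil) (hRefl : TaskRefl) (hPR : TaskPotRefl) : Pool.Agent.Q40.LP.TaskKey := by
  intro n c hn A hAm hAb hAs α β γ hα hβ hγ oα oβ oγ pβ pγ zA s hs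
  obtain ⟨g, hg, og, eg⟩ := hSolve n c hn A hAm hAb hAs β hβ oβ s hs
  obtain ⟨k, hk, ok, ek⟩ := hSolve n c hn A hAm hAb hAs γ hγ oγ s hs
  have Gα := good_of_in hAb hα
  have Gg := good_of_in hAb hg
  have Gk := good_of_in hAb hk
  -- b = β - g, d = γ - k
  set b : ℂ → ℝ := fun y => β y - g y with hb
  set d : ℂ → ℝ := fun y => γ y - k y with hd
  have Gb : Good b := by
    have := good_comb hβ Gg 1 (-1)
    simpa [hb, sub_eq_add_neg] using this
  have Gd : Good d := by
    have := good_comb hγ Gk 1 (-1)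
    simpa [hd, sub_eq_add_neg] using this
  -- `pot b ≥ 0` on the half plane
  have hpb : ∀ x ∈ half n c, 0 ≤ pot b x :=
    hPpos n c hn A hAm β g hβ Gg (fun x hx => hg.2 x hx) oβ og pβ s hs eg
  obtain ⟨h1, _, hlin, hfix, hmp, hcont, hnull⟩ := hRefl n c hn
  have ob : ∀ x, b (refl n c x) = - b x := by
    intro x; simp only [hb, oβ, og]; ring
  have opb : ∀ x, pot b (refl n c x) = - pot b x := by
    intro x
    rw [← hPR n c hn b x]
    have : (fun y => b (refl n c y)) = fun y => (-1) * b y + 0 * b y := by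
      funext y; rw [ob]; ring
    rw [this, (hBil b b b Gb Gb Gb (-1) 0).1]
    ring
  -- `E(b, γ) ≥ 0`
  have hEbγ : 0 ≤ En b γ := by
    unfold En
    apply integral_nonneg_of_ae
    have hq : ∀ᵐ x, refl n c x ∈ half n c → 0 ≤ γ (refl n c x) :=
      hmp.quasiMeasurePreserving.ae pγ
    have hl : ∀ᵐ x : ℂ, lin n c x ≠ 0 := by
      rw [ae_iff]; simpa using hnull
    filter_upwards [pγ, hq, hl] with x hx1 hx2 hx3
    simp only [Pi.zero_apply]
    rcases lt_or_gt_of_ne hx3 with h | h
    · have hm : refl n c x ∈ half n c := by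
        show 0 < lin n c (refl n c x)
        rw [hlin]; linarith
      have h5 := hpb _ hm
      have h6 := hx2 hm
      rw [opb] at h5
      rw [oγ] at h6
      nlinarith
    · exact mul_nonneg (hpb x h) (hx1 h)
  -- `E(b, z) = s ∫ g z` for `z` supported on `A`
  have hEbz : ∀ z, In A z → En b z = s * ∫ x, g x * z x := by
    intro z hz
    unfold En
    rw [← integral_const_mul]
    apply integral_congr_ae
    filter_upwards [eg] with x hx
    by_cases hxA : x ∈ A
    · rw [show pot b x = s * g x from hx hxA]; ring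
    · rw [hz.2 x hxA]; ring
  have hEdz : ∀ z, In A z → En d z = s * ∫ x, k x * z x := by
    intro z hz
    unfold En
    rw [← integral_const_mul]
    apply integral_congr_ae
    filter_upwards [ek] with x hx
    by_cases hxA : x ∈ A
    · rw [show pot d x = s * k x from hx hxA]; ring
    · rw [hz.2 x hxA]; ring
  refine ⟨fun x => k x - g x, ?_, ?_, ?_⟩
  · refine ⟨hk.1.sub hg.1, fun x hx => ?_⟩
    simp only
    rw [hk.2 x hx, hg.2 x hx]; ring
  · intro x; simp only [ok, og]; ring
  -- bilinear expansions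
  have E1 : ∀ (p q : ℂ → ℝ), Good p → Good q → ∀ a e : ℝ,
      En (fun x => a * p x + e * q x) (fun x => a * p x + e * q x) =
        a ^ 2 * En p p + 2 * a * e * En p q + e ^ 2 * En q q := by
    intro p q hp hq a e
    have hpq := good_comb hp hq a e
    rw [(hBil p q _ hp hq hpq a e).2.1, (hBil p q p hp hq hp a e).2.2.1,
      (hBil p q q hp hq hq a e).2.2.1, hSymm q p hq hp]
    ring
  -- left side
  have hL : (fun x => (k x - g x) + β x - γ x) = fun x => 1 * b x + (-1) * d x := by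
    funext x; simp only [hb, hd]; ring
  -- right side with δ = α + g + k
  set δ : ℂ → ℝ := fun x => α x + (g x + k x) with hδ
  have Iδ : In A δ := by
    refine ⟨hα.1.add (hg.1.add hk.1), fun x hx => ?_⟩
    simp only [hδ]
    rw [hα.2 x hx, hg.2 x hx, hk.2 x hx]; ring
  have Gδ := good_of_in hAb Iδ
  have oδ : ∀ x, δ (refl n c x) = - δ x := by
    intro x; simp only [hδ, oα, og, ok]; ring
  have hEδ : 0 ≤ En δ δ := hPD δ Gδ (int_odd hRefl hn oδ)
  have Gbd := good_comb Gb Gd 1 1
  have hR : (fun x => α x + β x + γ x) = fun x => 1 * (1 * b x + 1 * d x) + 1 * δ x := by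
    funext x; simp only [hb, hd, hδ]; ring
  have hER : En (fun x => α x + β x + γ x) (fun x => α x + β x + γ x) =
      En b b + 2 * En b d + En d d + 2 * (En b δ + En d δ) + En δ δ := by
    rw [hR, E1 _ _ Gbd Gδ 1 1, E1 _ _ Gb Gd 1 1, (hBil b d δ Gb Gd Gδ 1 1).2.1]
    ring
  have hEL : En (fun x => (k x - g x) + β x - γ x) (fun x => (k x - g x) + β x - γ x) =
      En b b - 2 * En b d + En d d := by
    rw [hL, E1 _ _ Gb Gd 1 (-1)]
    ring
  have hbd : En b d = En b γ - s * ∫ x, g x * k x := by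
    have h2 : d = fun x => 1 * γ x + (-1) * k x := by
      funext x; simp only [hd]; ring
    rw [h2, (hBil γ k b hγ Gk Gb 1 (-1)).2.2.1, hEbz k hk]
    ring
  have hI : ∀ {p q : ℂ → ℝ}, Good p → Good q → Integrable (fun x => p x * q x) := by
    intro p q hp hq
    exact int_mul hp hq
  -- `L²` expansions
  have hsq1 : (∫ x, (k x - g x) ^ 2) =
      (∫ x, k x * k x) - 2 * (∫ x, g x * k x) + (∫ x, g x * g x) := by
    have e1 : (fun x => (k x - g x) ^ 2) = fun x => (k x * k x - 2 * (g x * k x)) + g x * g x := by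
      funext x; ring
    have i1 : Integrable (fun x => k x * k x - 2 * (g x * k x)) :=
      (hI Gk Gk).sub ((hI Gg Gk).const_mul 2)
    rw [e1, integral_add i1 (hI Gg Gg),
      integral_sub (hI Gk Gk) ((hI Gg Gk).const_mul 2), integral_const_mul]
  have hsq2 : (∫ x, α x ^ 2) = (∫ x, δ x * δ x) - 2 * ((∫ x, g x * δ x) + (∫ x, k x * δ x)) +
      ((∫ x, g x * g x) + 2 * (∫ x, g x * k x) + (∫ x, k x * k x)) := by
    have e1 : (fun x => α x ^ 2) = fun x => (δ x * δ x - 2 * (g x * δ x + k x * δ x)) +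
        ((g x * g x + 2 * (g x * k x)) + k x * k x) := by
      funext x; simp only [hδ]; ring
    have i1 : Integrable (fun x => g x * δ x + k x * δ x) := (hI Gg Gδ).add (hI Gk Gδ)
    have i2 : Integrable (fun x => 2 * (g x * δ x + k x * δ x)) := i1.const_mul 2
    have i3 : Integrable (fun x => δ x * δ x - 2 * (g x * δ x + k x * δ x)) := (hI Gδ Gδ).sub i2
    have i4 : Integrable (fun x => 2 * (g x * k x)) := (hI Gg Gk).const_mul 2
    have i5 : Integrable (fun x => g x * g x + 2 * (g x * k x)) := (hI Gg Gg).add i4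
    have i6 : Integrable (fun x => (g x * g x + 2 * (g x * k x)) + k x * k x) :=
      i5.add (hI Gk Gk)
    rw [e1, integral_add i3 i6, integral_sub (hI Gδ Gδ) i2, integral_const_mul,
      integral_add (hI Gg Gδ) (hI Gk Gδ), integral_add i5 (hI Gk Gk),
      integral_add (hI Gg Gg) i4, integral_const_mul]
  have hδδ : 0 ≤ ∫ x, δ x * δ x := integral_nonneg fun x => mul_self_nonneg _
  have hb1 := hEbz δ Iδ
  have hd1 := hEdz δ Iδ
  simp only at hEL hER ⊢
  rw [hEL, hER, hsq1, hsq2, hb1, hd1, hbd]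
  nlinarith [mul_nonneg hs.le hδδ]

end Pool.Agent.Q40.LP.TaskKey
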