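import Pool.Agent.Q40.LP.Stmts2

set_option autoImplicit false

open Set Filter Topology MeasureTheory

namespace Pool.Agent.Q40.LP.TaskLow

theorem main (h : TaskFact) : Pool.Agent.Q40.LP.TaskLow := by
  intro E hb hE n hn
  obtain ⟨C, hC⟩ := hb.exists_norm_le
  have hn0 : (0 : ℝ) < n := by
    have : 0 < n := by omega
    exact_mod_cast this
  have hn1 : (0 : ℝ) < (n : ℝ) - 1 := by
    have : (2 : ℝ) ≤ n := by exact_mod_cast hn
    linarith
  have hexp : (0 : ℝ) ≤ (2 : ℝ) / (n * (n - 1)) := by positivity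
  have h1 : Real.exp (-2) ≤
      distProd (fun j : Fin n => ((j : ℕ) / (n : ℝ) : ℂ)) ^ ((2 : ℝ) / (n * (n - 1))) := by
    have e1 : Real.exp (-2) = Real.exp (-(n * (n - 1) : ℝ)) ^ ((2 : ℝ) / (n * (n - 1))) := by
      rw [← Real.exp_mul]
      congr 1
      field_simp
    rw [e1]
    exact Real.rpow_le_rpow (Real.exp_pos _).le (h n hn) hexp
  refine le_trans h1 (le_csSup ?_ ⟨fun j : Fin n => ((j : ℕ) / (n : ℝ) : ℂ), fun j => ?_, rfl⟩)
  · refine ⟨(∏ i : Fin n, ∏ j ∈ Finset.univ.filter (fun j => i < j), (C + C)) ^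
      ((2 : ℝ) / (n * (n - 1))), ?_⟩
    rintro d ⟨z, hz, rfl⟩
    refine Real.rpow_le_rpow ?_ ?_ hexp
    · exact Finset.prod_nonneg fun i _ => Finset.prod_nonneg fun j _ => norm_nonneg _
    · refine Finset.prod_le_prod (fun i _ => Finset.prod_nonneg fun j _ => norm_nonneg _)
        fun i _ => Finset.prod_le_prod (fun j _ => norm_nonneg _) fun j _ => ?_
      exact (norm_sub_le _ _).trans (add_le_add (hC _ (hz i)) (hC _ (hz j)))
  · have hj : ((j : ℕ) : ℝ) ≤ n := by exact_mod_cast j.2.le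
    have := hE (((j : ℕ) : ℝ) / n) (by positivity) ((div_le_one hn0).2 hj)
    push_cast at this ⊢
    exact this

end Pool.Agent.Q40.LP.TaskLow
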