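import Pool.Agent.Q40.LP.Stmts

open Set Filter Topology MeasureTheory

namespace Pool.Agent.Q40.LP.TaskMP

theorem main : Pool.Agent.Q40.LP.TaskMP := by
  intro w hw hinf hsub x0
  by_contra hx0
  push Not at hx0
  -- the maximum is attained
  have hev : ∀ᶠ x in cocompact ℂ, w x ≤ w x0 := by
    filter_upwards [hinf (w x0) hx0] with x hx using hx.le
  obtain ⟨m, hm⟩ := hw.exists_forall_ge' x0 hev
  have hM : 0 < w m := hx0.trans_le (hm x0)
  let S : Set ℂ := {x | w x = w m}
  have hclosed : IsClosed S := isClosed_eq hw continuous_const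
  have hopen : IsOpen S := by
    rw [Metric.isOpen_iff]
    intro x hx
    have hx' : w x = w m := hx
    obtain ⟨δ, hδ, h⟩ := hsub x (by rw [hx']; exact hM)
    refine ⟨δ, hδ, fun y hy => ?_⟩
    rw [Metric.mem_ball, dist_comm] at hy
    rcases eq_or_ne x y with rfl | hne
    · exact hx
    · have hr : 0 < dist x y := dist_pos.2 hne
      have h1 := h (dist x y) hr hy
      change w y = w m
      by_contra hlt
      have hlt' : w y < w m := lt_of_le_of_ne (hm y) hlt
      -- y is on the circle
      have hmem : y ∈ Metric.sphere x (dist x y) := by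
        rw [Metric.mem_sphere, dist_comm]
      obtain ⟨θ, hθ, hθy⟩ : ∃ θ ∈ Icc (0 : ℝ) (2 * Real.pi), circleMap x (dist x y) θ = y := by
        have : y ∈ circleMap x (dist x y) '' Ioc 0 (2 * Real.pi) := by
          rw [image_circleMap_Ioc, abs_of_pos hr]
          exact hmem
        obtain ⟨θ, hθ, h⟩ := this
        exact ⟨θ, ⟨hθ.1.le, hθ.2⟩, h⟩
      have hc : Continuous fun θ : ℝ => w (circleMap x (dist x y) θ) :=
        hw.comp (continuous_circleMap _ _)
      have hpos : 0 < ∫ θ in (0 : ℝ)..(2 * Real.pi), (w m - w (circleMap x (dist x y) θ)) := by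
        refine intervalIntegral.integral_pos (by positivity) (continuous_const.sub hc).continuousOn
          (fun θ _ => sub_nonneg.2 (hm _)) ⟨θ, hθ, ?_⟩
        rw [hθy]
        linarith
      rw [intervalIntegral.integral_sub (by simp) (hc.intervalIntegrable _ _),
        intervalIntegral.integral_const] at hpos
      rw [Real.circleAverage_def] at h1
      simp only [smul_eq_mul, sub_zero] at h1 hpos
      rw [hx'] at h1
      have hpi : (0 : ℝ) < 2 * Real.pi := by positivity
      have h2 : w m * (2 * Real.pi) ≤ ∫ θ in (0 : ℝ)..(2 * Real.pi), w (circleMap x (dist x y) θ) := by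
        have := mul_le_mul_of_nonneg_left h1 hpi.le
        rw [← mul_assoc, mul_inv_cancel₀ hpi.ne', one_mul] at this
        linarith
      linarith
  have huniv : S = univ := IsClopen.eq_univ ⟨hclosed, hopen⟩ ⟨m, rfl⟩
  have h3 := hinf (w m) hM
  obtain ⟨x, hx⟩ := h3.exists
  have : x ∈ S := by rw [huniv]; trivial
  exact absurd (show w x = w m from this) hx.ne

end Pool.Agent.Q40.LP.TaskMP
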