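import Pool.Agent.Q40.LP.Stmts

/-! T18: a test function gives a negative eigenvalue. -/

open Set Filter Topology MeasureTheory

namespace Pool.Agent.Q40.LP.TaskMin

theorem good_of_in {A : Set ℂ} (hA : Bornology.IsBounded A) {u : ℂ → ℝ} (hu : In A u) : Good u := by
  obtain ⟨R, hR⟩ := hA.subset_closedBall 0
  refine ⟨hu.1, R, fun x hx => hu.2 x fun hxA => ?_⟩
  have := hR hxA
  rw [mem_closedBall_zero_iff] at this
  linarith

theorem pot_congr {u v : ℂ → ℝ} (h : u =ᵐ[volume] v) (x : ℂ) : pot u x = pot v x := by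
  unfold pot
  apply integral_congr_ae
  filter_upwards [h] with y hy
  rw [hy]

theorem rin (a b : ℝ) : inner ℝ a b = a * b := by
  rw [real_inner_comm]; rfl

theorem main (hAbs : TaskAbs1) (hOp : TaskOp) (hRank : TaskRank) (hSymm : TaskSymm)
    (hBil : TaskBil) : Pool.Agent.Q40.LP.TaskMin := by
  intro Ω hΩm hΩb l u hu hu0 hl hE
  obtain ⟨T, hT⟩ := hOp Ω hΩm hΩb
  obtain ⟨R, hR0, hR⟩ : ∃ R : ℝ, 0 < R ∧ ∀ x ∈ Ω, ‖x‖ ≤ R := by
    obtain ⟨R, hR⟩ := hΩb.subset_closedBall 0
    refine ⟨max R 1, lt_of_lt_of_le one_pos (le_max_right _ _), fun x hx => ?_⟩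
    have := hR hx
    rw [mem_closedBall_zero_iff] at this
    exact this.trans (le_max_left _ _)
  obtain ⟨ρ, hρ, hPos⟩ := hRank R hR0
  have hfin : volume Ω < ⊤ := hΩb.measure_lt_top
  haveI : IsFiniteMeasure (volume.restrict Ω) := ⟨by rwa [Measure.restrict_apply_univ]⟩
  -- the extension by zero of an element of `L²(Ω)`
  set ext : Lp ℝ 2 (volume.restrict Ω) → ℂ → ℝ := fun f => Ω.indicator (f : ℂ → ℝ) with hext
  have hIn : ∀ f, In Ω (ext f) := by
    intro f
    refine ⟨?_, fun x hx => indicator_of_notMem hx _⟩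
    exact (memLp_indicator_iff_restrict hΩm).2 (Lp.memLp f)
  have hGood : ∀ f, Good (ext f) := fun f => good_of_in hΩb (hIn f)
  -- integrals against extensions
  have hint : ∀ (g : ℂ → ℝ) (f : Lp ℝ 2 (volume.restrict Ω)),
      ∫ x, g x * ext f x = ∫ x in Ω, g x * (f : ℂ → ℝ) x := by
    intro g f
    rw [← integral_indicator hΩm]
    apply integral_congr_ae
    filter_upwards with x
    by_cases hx : x ∈ Ω
    · simp [hext, hx]
    · simp [hext, hx]
  have hEn : ∀ f g : Lp ℝ 2 (volume.restrict Ω), inner ℝ (T f) g = En (ext f) (ext g) := by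
    intro f g
    rw [L2.inner_def]
    unfold En
    rw [hint]
    apply integral_congr_ae
    filter_upwards [hT f] with x hx
    rw [hx]
    exact rin _ _
  have hsy : ∀ f g : Lp ℝ 2 (volume.restrict Ω), inner ℝ (T f) g = inner ℝ f (T g) := by
    intro f g
    rw [hEn, real_inner_comm, hEn, hSymm _ _ (hGood f) (hGood g)]
  -- the constant function one
  have h1mem : MemLp (fun _ : ℂ => (1 : ℝ)) 2 (volume.restrict Ω) := memLp_const 1
  set e : Lp ℝ 2 (volume.restrict Ω) := h1mem.toLp _ with he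
  have hinner : ∀ f : Lp ℝ 2 (volume.restrict Ω), inner ℝ e f = ∫ x, ext f x := by
    intro f
    rw [L2.inner_def]
    have h2 : ∫ x, ext f x = ∫ x, (1 : ℝ) * ext f x := by simp
    rw [h2, hint (fun _ => 1) f]
    apply integral_congr_ae
    filter_upwards [h1mem.coeFn_toLp] with x hx
    rw [he, hx]
    exact rin _ _
  have hpos : ∀ f : Lp ℝ 2 (volume.restrict Ω), 0 ≤ inner ℝ (T f) f + ρ * (inner ℝ e f) ^ 2 := by
    intro f
    rw [hEn, hinner]
    refine hPos _ (hIn f).1 fun x hx => (hIn f).2 x fun hxΩ => ?_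
    have := hR x hxΩ
    linarith
  -- the class of `u`
  have humem : MemLp u 2 (volume.restrict Ω) := hu.1.restrict Ω
  set U : Lp ℝ 2 (volume.restrict Ω) := humem.toLp u with hU
  have hUu : ext U =ᵐ[volume] u := by
    have h3 : (U : ℂ → ℝ) =ᵐ[volume.restrict Ω] u := humem.coeFn_toLp
    rw [Filter.EventuallyEq, ae_restrict_iff' hΩm] at h3
    filter_upwards [h3] with x hx
    by_cases hxΩ : x ∈ Ω
    · simp [hext, hxΩ, hx hxΩ]
    · simp [hext, hxΩ, hu.2 x hxΩ]
  have hU0 : U ≠ 0 := by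
    intro h0
    apply hu0
    have h4 : (U : ℂ → ℝ) =ᵐ[volume.restrict Ω] 0 := by
      rw [h0]; exact Lp.coeFn_zero _ _ _
    rw [Filter.EventuallyEq, ae_restrict_iff' hΩm] at h4
    filter_upwards [h4, hUu] with x hx hx2
    rw [← hx2]
    by_cases hxΩ : x ∈ Ω
    · simp [hext, hxΩ, hx hxΩ]
    · simp [hext, hxΩ]
  have hnorm : ‖U‖ ^ 2 = ∫ x, u x ^ 2 := by
    rw [← real_inner_self_eq_norm_sq, L2.inner_def]
    have h5 : ∫ x, u x ^ 2 = ∫ x, (ext U x) * ext U x := by
      apply integral_congr_ae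
      filter_upwards [hUu] with x hx
      rw [hx]; ring
    rw [h5, hint]
    apply integral_congr_ae
    filter_upwards [ae_restrict_mem hΩm] with x hx
    simp only [hext, indicator_of_mem hx]
    exact rin _ _
  have hEU : En (ext U) (ext U) = En u u := by
    unfold En
    apply integral_congr_ae
    filter_upwards [hUu] with x hx
    rw [hx, pot_congr hUu]
  obtain ⟨m, hm, v, hv0, hv⟩ := hAbs (Lp ℝ 2 (volume.restrict Ω)) T e ρ hρ hsy hpos l U hl hU0
    (by rw [hEn, hEU, hnorm]; exact hE)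
  refine ⟨m, hm, ext v, hIn v, ?_, ?_⟩
  · intro h0
    apply hv0
    rw [Lp.eq_zero_iff_ae_eq_zero, Filter.EventuallyEq, ae_restrict_iff' hΩm]
    filter_upwards [h0] with x hx hxΩ
    simpa [hext, hxΩ] using hx
  · have h6 := hT v
    rw [hv] at h6
    have h7 := Lp.coeFn_smul m v
    have h8 : ∀ᵐ x ∂(volume.restrict Ω), pot (ext v) x = m * (v : ℂ → ℝ) x := by
      filter_upwards [h6, h7] with x hx hx2
      rw [← hx, hx2]; rfl
    rw [ae_restrict_iff' hΩm] at h8
    filter_upwards [h8] with x hx hxΩ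
    rw [hx hxΩ]
    simp [hext, hxΩ]

end Pool.Agent.Q40.LP.TaskMin
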