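import Pool.Agent.Q40.LP.Stmts

open Set Filter Topology MeasureTheory

namespace Pool.Agent.Q40.LP.TaskOp

theorem main (h1 : TaskInt) (h2 : TaskBound) (h3 : TaskCont) : Pool.Agent.Q40.LP.TaskOp := by
  intro D hD hDb
  obtain ⟨R, hR0, hR⟩ : ∃ R : ℝ, 0 < R ∧ ∀ x ∈ D, ‖x‖ ≤ R := by
    obtain ⟨R, hR⟩ := hDb.exists_norm_le
    exact ⟨max R 1, by positivity, fun x hx => (hR x hx).trans (le_max_left _ _)⟩
  obtain ⟨C, hC0, hC⟩ := h2 R hR0
  haveI : IsFiniteMeasure (volume.restrict D) :=
    ⟨by rw [Measure.restrict_apply_univ]; exact hDb.measure_lt_top⟩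
  have hG : ∀ f : Lp ℝ 2 (volume.restrict D), MemLp (D.indicator (f : ℂ → ℝ)) 2 volume := fun f =>
    (memLp_indicator_iff_restrict hD).2 (Lp.memLp f)
  have hoff : ∀ (f : ℂ → ℝ) (x : ℂ), R < ‖x‖ → D.indicator f x = 0 := fun f x hx =>
    indicator_of_notMem (fun h => absurd (hR x h) (not_le.2 hx)) _
  have hgood : ∀ f : Lp ℝ 2 (volume.restrict D), Good (D.indicator (f : ℂ → ℝ)) := fun f =>
    ⟨hG f, R, hoff f⟩
  have hsq : ∀ f : Lp ℝ 2 (volume.restrict D),
      Real.sqrt (∫ y, (D.indicator (f : ℂ → ℝ) y) ^ 2) = ‖f‖ := by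
    intro f
    have e1 : ∫ y, (D.indicator (f : ℂ → ℝ) y) ^ 2 = ∫ y in D, (f y) ^ 2 := by
      rw [← integral_indicator hD]
      congr 1
      ext y
      by_cases hy : y ∈ D
      · rw [indicator_of_mem hy, indicator_of_mem hy]
      · rw [indicator_of_notMem hy, indicator_of_notMem hy]
        norm_num
    have e2 : ∫ y in D, (f y) ^ 2 = ‖f‖ ^ 2 := by
      rw [← real_inner_self_eq_norm_sq, L2.inner_def]
      congr 1
      ext y
      simp [sq]
    rw [e1, e2, Real.sqrt_sq (norm_nonneg _)]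
  have hbd : ∀ f : Lp ℝ 2 (volume.restrict D), ∀ᵐ x ∂(volume.restrict D),
      ‖pot (D.indicator (f : ℂ → ℝ)) x‖ ≤ C * ‖f‖ := by
    intro f
    filter_upwards [ae_restrict_mem hD] with x hx
    rw [← hsq f]
    exact hC _ (hG f) (hoff f) x (hR x hx)
  have hmem : ∀ f : Lp ℝ 2 (volume.restrict D),
      MemLp (pot (D.indicator (f : ℂ → ℝ))) 2 (volume.restrict D) := fun f =>
    MemLp.of_bound (h3 _ (hgood f)).aestronglyMeasurable _ (hbd f)
  have hcongr : ∀ u v : ℂ → ℝ, u =ᵐ[volume] v → ∀ x, pot u x = pot v x := by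
    intro u v huv x
    refine integral_congr_ae ?_
    filter_upwards [huv] with y hy
    rw [hy]
  have hind : ∀ u v : ℂ → ℝ, u =ᵐ[volume.restrict D] v → D.indicator u =ᵐ[volume] D.indicator v := by
    intro u v huv
    filter_upwards [(ae_restrict_iff' hD).1 huv] with y hy
    by_cases hyD : y ∈ D
    · rw [indicator_of_mem hyD, indicator_of_mem hyD, hy hyD]
    · rw [indicator_of_notMem hyD, indicator_of_notMem hyD]
  let T0 : Lp ℝ 2 (volume.restrict D) →ₗ[ℝ] Lp ℝ 2 (volume.restrict D) :=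
    { toFun := fun f => (hmem f).toLp _
      map_add' := by
        intro f g
        rw [← MemLp.toLp_add]
        refine MemLp.toLp_congr _ _ (Eventually.of_forall fun x => ?_)
        rw [hcongr _ _ (hind _ _ (Lp.coeFn_add f g)) x, Pi.add_apply]
        unfold pot
        rw [← integral_add (h1 _ (hgood f) x) (h1 _ (hgood g) x)]
        congr 1
        ext y
        by_cases hyD : y ∈ D
        · rw [indicator_of_mem hyD, indicator_of_mem hyD, indicator_of_mem hyD, Pi.add_apply]
          ring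
        · rw [indicator_of_notMem hyD, indicator_of_notMem hyD, indicator_of_notMem hyD]
          ring
      map_smul' := by
        intro c f
        rw [RingHom.id_apply, ← MemLp.toLp_const_smul]
        refine MemLp.toLp_congr _ _ (Eventually.of_forall fun x => ?_)
        rw [hcongr _ _ (hind _ _ (Lp.coeFn_smul c f)) x, Pi.smul_apply]
        unfold pot
        rw [smul_eq_mul, ← integral_const_mul]
        congr 1
        ext y
        by_cases hyD : y ∈ D
        · rw [indicator_of_mem hyD, indicator_of_mem hyD, Pi.smul_apply, smul_eq_mul]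
          ring
        · rw [indicator_of_notMem hyD, indicator_of_notMem hyD]
          ring }
  refine ⟨T0.mkContinuous ((measureUnivNNReal (volume.restrict D) : ℝ) ^ (2 : ENNReal).toReal⁻¹ * C)
    fun f => ?_, fun f => ?_⟩
  · have h4 : ∀ᵐ x ∂(volume.restrict D), ‖(T0 f : ℂ → ℝ) x‖ ≤ C * ‖f‖ := by
      filter_upwards [(hmem f).coeFn_toLp, hbd f] with x hx hx2
      change ‖((hmem f).toLp _ : ℂ → ℝ) x‖ ≤ _
      rw [hx]
      exact hx2
    have h5 := Lp.norm_le_of_ae_bound (by positivity) h4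
    rw [mul_assoc]
    exact h5
  · exact (hmem f).coeFn_toLp

end Pool.Agent.Q40.LP.TaskOp
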