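import Pool.Agent.Q40.LP.Stmts

open Set Filter Topology MeasureTheory

namespace Pool.Agent.Q40.LP.TaskOrth

lemma int_comp (h : Pool.Agent.Q40.LP.TaskRefl) {n : ℂ} (hn : ‖n‖ = 1) (c : ℝ) (F : ℂ → ℝ) :
    ∫ x, F (refl n c x) = ∫ x, F x := by
  obtain ⟨h1, -, -, -, h5, h6, -⟩ := h n c hn
  let e : ℂ ≃ₜ ℂ := ⟨⟨refl n c, refl n c, h1, h1⟩, h6, h6⟩
  exact h5.integral_comp e.measurableEmbedding F

lemma int_odd (h : Pool.Agent.Q40.LP.TaskRefl) {n : ℂ} (hn : ‖n‖ = 1) (c : ℝ) (F : ℂ → ℝ)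
    (hF : ∀ x, F (refl n c x) = - F x) : ∫ x, F x = 0 := by
  have h1 := int_comp h hn c F
  simp only [hF] at h1
  rw [integral_neg] at h1
  linarith

lemma pot_neg (u : ℂ → ℝ) (x : ℂ) : pot (fun y => - u y) x = - pot u x := by
  unfold pot
  simp only [mul_neg]
  exact integral_neg _

theorem main (h : Pool.Agent.Q40.LP.TaskRefl) (h' : Pool.Agent.Q40.LP.TaskPotRefl) :
    Pool.Agent.Q40.LP.TaskOrth := by
  intro n c hn u v _ _ hue hvo
  have hpu : ∀ x, pot u (refl n c x) = pot u x := fun x => by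
    rw [← h' n c hn u x]
    simp only [hue]
  have hpv : ∀ x, pot v (refl n c x) = - pot v x := fun x => by
    rw [← h' n c hn v x]
    simp only [hvo]
    exact pot_neg v x
  refine ⟨int_odd h hn c _ fun x => ?_, int_odd h hn c _ fun x => ?_, int_odd h hn c _ fun x => ?_⟩
  · rw [hpu, hvo]; ring
  · rw [hpv, hue]; ring
  · rw [hue, hvo]; ring

end Pool.Agent.Q40.LP.TaskOrth
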