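import Pool.Agent.Q40.LP.Stmts

/-! T7 of the blueprint for `MP_86d647_an` (helper7). -/

open Set Filter Topology MeasureTheory

namespace Pool.Agent.Q40.LP.TaskPD

private theorem absBound (h2 : TaskBound) (u : ℂ → ℝ) (hu : Good u) (ρ : ℝ) :
    ∃ B : ℝ, ∀ x : ℂ, ‖x‖ ≤ ρ → ∫ y, ‖Real.log (1 / ‖x - y‖) * u y‖ ≤ B := by
  obtain ⟨hL, R, hR⟩ := hu
  set R' : ℝ := max (max R ρ) 1 with hR'
  have hR'0 : 0 < R' := lt_of_lt_of_le one_pos (le_max_right _ _)
  obtain ⟨C, hC0, hC⟩ := h2 R' hR'0
  refine ⟨C * Real.sqrt (∫ y, u y ^ 2), fun x hx => ?_⟩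
  have hxR : ‖x‖ ≤ R' := hx.trans ((le_max_right _ _).trans (le_max_left _ _))
  -- the auxiliary function
  set s : ℂ → ℝ := fun y => if 0 ≤ Real.log (1 / ‖x - y‖) then 1 else -1 with hs
  set w : ℂ → ℝ := fun y => s y * |u y| with hw
  have hsm : Measurable s := by
    apply Measurable.ite _ measurable_const measurable_const
    apply measurableSet_le measurable_const
    exact Real.measurable_log.comp (((measurable_const.sub measurable_id).norm).const_div 1)
  have hsabs : ∀ y, |s y| = 1 := by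
    intro y
    by_cases h : 0 ≤ Real.log (1 / ‖x - y‖)
    · simp only [hs, if_pos h, abs_one]
    · simp only [hs, if_neg h, abs_neg, abs_one]
  have hwabs : ∀ y, ‖w y‖ = ‖u y‖ := by
    intro y
    rw [hw]
    simp only [norm_mul, Real.norm_eq_abs, hsabs, one_mul, abs_abs]
  have hwL : MemLp w 2 volume := by
    refine MemLp.of_le hL ?_ (Eventually.of_forall fun y => (hwabs y).le)
    exact hsm.aestronglyMeasurable.mul hL.1.norm
  have hw0 : ∀ y, R' < ‖y‖ → w y = 0 := by
    intro y hy
    have : u y = 0 := hR y (lt_of_le_of_lt ((le_max_left _ _).trans (le_max_left _ _)) hy)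
    rw [hw]; simp [this]
  have key := hC w hwL hw0 x hxR
  have e1 : pot w x = ∫ y, ‖Real.log (1 / ‖x - y‖) * u y‖ := by
    unfold pot
    refine integral_congr_ae (Eventually.of_forall fun y => ?_)
    simp only [hw, norm_mul, Real.norm_eq_abs]
    by_cases h : 0 ≤ Real.log (1 / ‖x - y‖)
    · simp only [hs, if_pos h, abs_of_nonneg h, one_mul]
    · simp only [hs, if_neg h]
      rw [abs_of_neg (not_le.mp h)]
      ring
  have e2 : ∫ y, w y ^ 2 = ∫ y, u y ^ 2 := by
    refine integral_congr_ae (Eventually.of_forall fun y => ?_)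
    have := hwabs y
    simp only [Real.norm_eq_abs] at this
    show w y ^ 2 = u y ^ 2
    rw [← sq_abs (w y), this, sq_abs]
  rw [e2, e1] at key
  exact (le_abs_self _).trans key

private theorem integ (u : ℂ → ℝ) (hu : Good u) : Integrable u := by
  obtain ⟨hL, R, hR⟩ := hu
  have hsub : Function.support u ⊆ Metric.closedBall (0:ℂ) R := by
    intro x hx
    rw [mem_closedBall_zero_iff]
    by_contra h
    exact hx (hR x (not_le.mp h))
  rw [← integrableOn_iff_integrable_of_support_subset hsub]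
  have : IsFiniteMeasure (volume.restrict (Metric.closedBall (0:ℂ) R)) :=
    ⟨by rw [Measure.restrict_apply_univ]; exact (isCompact_closedBall 0 R).measure_lt_top⟩
  exact (hL.restrict _).integrable one_le_two

private theorem diagNull : ∀ᵐ p : ℂ × ℂ ∂((volume : Measure ℂ).prod volume), p.1 ≠ p.2 := by
  have hm : MeasurableSet {p : ℂ × ℂ | p.1 = p.2} :=
    (isClosed_eq continuous_fst continuous_snd).measurableSet
  have : ((volume : Measure ℂ).prod volume) {p : ℂ × ℂ | p.1 = p.2} = 0 := by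
    rw [Measure.measure_prod_null hm]
    refine Eventually.of_forall fun x => ?_
    have : Prod.mk x ⁻¹' {p : ℂ × ℂ | p.1 = p.2} = {x} := by
      ext y; simp [eq_comm]
    show volume (Prod.mk x ⁻¹' {p : ℂ × ℂ | p.1 = p.2}) = 0
    rw [this]; simp
  rw [ae_iff]
  simpa using this

private theorem kerInt (h1 : TaskInt) (h2 : TaskBound) (u : ℂ → ℝ) (hu : Good u) :
    Integrable (fun p : ℂ × ℂ => Real.log (1 / ‖p.1 - p.2‖) * u p.2 * u p.1)
      ((volume : Measure ℂ).prod volume) := by
  have hui := integ u hu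
  obtain ⟨R, hR⟩ := hu.2
  obtain ⟨B, hB⟩ := absBound h2 u hu R
  have hm : AEStronglyMeasurable (fun p : ℂ × ℂ => Real.log (1 / ‖p.1 - p.2‖) * u p.2 * u p.1)
      ((volume : Measure ℂ).prod volume) := by
    have a1 : Measurable (fun p : ℂ × ℂ => Real.log (1 / ‖p.1 - p.2‖)) := by
      refine Real.measurable_log.comp (Measurable.const_div ?_ 1)
      exact (measurable_fst.sub measurable_snd).norm
    exact (a1.aestronglyMeasurable.mul hu.1.1.comp_snd).mul hu.1.1.comp_fst
  rw [integrable_prod_iff hm]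
  refine ⟨Eventually.of_forall fun x => ?_, ?_⟩
  · exact (h1 u hu x).mul_const (u x)
  refine Integrable.mono' (hui.norm.const_mul B) hm.norm.integral_prod_right' ?_
  refine Eventually.of_forall fun x => ?_
  have hn : (0:ℝ) ≤ ∫ y, ‖Real.log (1 / ‖(x, y).1 - (x, y).2‖) * u (x, y).2 * u (x, y).1‖ :=
    integral_nonneg fun y => norm_nonneg _
  rw [Real.norm_of_nonneg hn]
  by_cases hx : ‖x‖ ≤ R
  · have hb := hB x hx
    have e : ∫ y, ‖Real.log (1 / ‖(x, y).1 - (x, y).2‖) * u (x, y).2 * u (x, y).1‖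
        = (∫ y, ‖Real.log (1 / ‖x - y‖) * u y‖) * ‖u x‖ := by
      rw [← integral_mul_const]
      refine integral_congr_ae (Eventually.of_forall fun y => ?_)
      simp only [norm_mul]
    rw [e]
    exact mul_le_mul_of_nonneg_right hb (norm_nonneg _)
  · have h0 : u x = 0 := hR x (not_le.mp hx)
    simp [h0]

theorem main (hF : TaskFru) (hA : TaskFruAbs) (hG : TaskGauss) (h1 : TaskInt) (h2 : TaskBound) :
    Pool.Agent.Q40.LP.TaskPD := by
  intro u hu hmean
  have hui := integ u hu
  have hK := kerInt h1 h2 u hu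
  set μ : Measure (ℂ × ℂ) := (volume : Measure ℂ).prod volume with hμ
  set ν : Measure ℝ := volume.restrict (Ioi (0:ℝ)) with hν
  set g : ℂ × ℂ → ℝ → ℝ := fun p t =>
    (Real.exp (-(t * ‖p.1 - p.2‖ ^ 2)) - Real.exp (-t)) / (2 * t) * (u p.2 * u p.1) with hg
  have hgm : AEStronglyMeasurable (Function.uncurry g) (μ.prod ν) := by
    have a1 : Measurable (fun q : (ℂ × ℂ) × ℝ =>
        (Real.exp (-(q.2 * ‖q.1.1 - q.1.2‖ ^ 2)) - Real.exp (-q.2)) / (2 * q.2)) := by
      fun_prop
    have a2 : AEStronglyMeasurable (fun p : ℂ × ℂ => u p.2 * u p.1) μ :=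
      hu.1.1.comp_snd.mul hu.1.1.comp_fst
    exact a1.aestronglyMeasurable.mul a2.comp_fst
  have hgi : Integrable (Function.uncurry g) (μ.prod ν) := by
    rw [integrable_prod_iff hgm]
    constructor
    · filter_upwards [diagNull] with p hp
      have hr : 0 < ‖p.1 - p.2‖ := norm_pos_iff.mpr (sub_ne_zero.mpr hp)
      exact (hF _ hr).1.mul_const (u p.2 * u p.1)
    · refine (hK.norm).congr ?_
      filter_upwards [diagNull] with p hp
      have hr : 0 < ‖p.1 - p.2‖ := norm_pos_iff.mpr (sub_ne_zero.mpr hp)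
      have e := hA _ hr
      have e2 : ∫ t, ‖Function.uncurry g (p, t)‖ ∂ν =
          (∫ t in Ioi (0:ℝ), |(Real.exp (-(t * ‖p.1 - p.2‖ ^ 2)) - Real.exp (-t)) / (2 * t)|)
            * ‖u p.2 * u p.1‖ := by
        rw [← integral_mul_const]
        refine integral_congr_ae (Eventually.of_forall fun t => ?_)
        show ‖g p t‖ = _
        rw [hg]
        simp only [norm_mul, Real.norm_eq_abs]
      rw [e2, e]
      simp only [norm_mul, Real.norm_eq_abs]
      ring
  have hswap := integral_integral_swap hgi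
  have hEn : En u u = ∫ p, (∫ t, g p t ∂ν) ∂μ := by
    have e1 : En u u = ∫ p, Real.log (1 / ‖p.1 - p.2‖) * u p.2 * u p.1 ∂μ := by
      rw [hμ, integral_prod _ hK]
      unfold En pot
      refine integral_congr_ae (Eventually.of_forall fun x => ?_)
      show (∫ y, Real.log (1 / ‖x - y‖) * u y) * u x = _
      rw [← integral_mul_const]
    rw [e1]
    refine integral_congr_ae ?_
    filter_upwards [diagNull] with p hp
    have hr : 0 < ‖p.1 - p.2‖ := norm_pos_iff.mpr (sub_ne_zero.mpr hp)
    have e := (hF _ hr).2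
    rw [hg]
    simp only
    rw [integral_mul_const, hν, e]
    ring
  rw [hEn, hswap]
  refine setIntegral_nonneg measurableSet_Ioi fun t ht => ?_
  have ht0 : (0:ℝ) < t := ht
  have huu : Integrable (fun p : ℂ × ℂ => u p.2 * u p.1) μ := by
    have := hui.mul_prod hui
    refine this.congr (Eventually.of_forall fun p => ?_)
    exact mul_comm _ _
  have hexp : Integrable (fun p : ℂ × ℂ => Real.exp (-(t * ‖p.1 - p.2‖ ^ 2)) * (u p.2 * u p.1)) μ := by
    refine huu.bdd_mul (c := 1) ?_ ?_
    · exact (by fun_prop : Continuous fun p : ℂ × ℂ =>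
        Real.exp (-(t * ‖p.1 - p.2‖ ^ 2))).aestronglyMeasurable
    · refine Eventually.of_forall fun p => ?_
      rw [Real.norm_eq_abs, abs_of_pos (Real.exp_pos _)]
      rw [Real.exp_le_one_iff]
      have : 0 ≤ t * ‖p.1 - p.2‖ ^ 2 := by positivity
      linarith
  have e3 : ∫ p, g p t ∂μ = (2 * t)⁻¹ * ((∫ p, Real.exp (-(t * ‖p.1 - p.2‖ ^ 2)) * (u p.2 * u p.1) ∂μ)
      - Real.exp (-t) * ∫ p, u p.2 * u p.1 ∂μ) := by
    rw [← integral_const_mul, ← integral_sub hexp (huu.const_mul _), ← integral_const_mul]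
    refine integral_congr_ae (Eventually.of_forall fun p => ?_)
    show g p t = _
    rw [hg]
    simp only
    rw [div_eq_mul_inv]
    ring
  have e4 : ∫ p, u p.2 * u p.1 ∂μ = 0 := by
    rw [hμ, integral_prod _ huu]
    have : ∀ x : ℂ, ∫ y, u (x, y).2 * u (x, y).1 = 0 := by
      intro x
      show ∫ y, u y * u x = 0
      rw [integral_mul_const, hmean, zero_mul]
    simp only [this, integral_zero]
  have e5 : 0 ≤ ∫ p, Real.exp (-(t * ‖p.1 - p.2‖ ^ 2)) * (u p.2 * u p.1) ∂μ := by
    rw [hμ, integral_prod _ hexp]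
    have := hG u hu t ht0
    refine this.trans_eq ?_
    refine integral_congr_ae (Eventually.of_forall fun x => ?_)
    show (∫ y, Real.exp (-(t * ‖x - y‖ ^ 2)) * u y) * u x = _
    rw [← integral_mul_const]
    refine integral_congr_ae (Eventually.of_forall fun y => ?_)
    show _ = Real.exp (-(t * ‖x - y‖ ^ 2)) * (u y * u x)
    ring
  rw [e3, e4, mul_zero, sub_zero]
  positivity

end Pool.Agent.Q40.LP.TaskPD
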