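import Pool.Agent.Q40.LP.Stmts

open Set Filter Topology MeasureTheory

namespace Pool.Agent.Q40.LP.TaskPotRefl

lemma int_comp (h : Pool.Agent.Q40.LP.TaskRefl) {n : ℂ} (hn : ‖n‖ = 1) (c : ℝ) (F : ℂ → ℝ) :
    ∫ x, F (refl n c x) = ∫ x, F x := by
  obtain ⟨h1, -, -, -, h5, h6, -⟩ := h n c hn
  let e : ℂ ≃ₜ ℂ := ⟨⟨refl n c, refl n c, h1, h1⟩, h6, h6⟩
  exact h5.integral_comp e.measurableEmbedding F

theorem main (h : Pool.Agent.Q40.LP.TaskRefl) : Pool.Agent.Q40.LP.TaskPotRefl := by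
  intro n c hn u x
  obtain ⟨h1, h2, -, -, h5, h6, -⟩ := h n c hn
  unfold pot
  rw [← int_comp h hn c (fun y => Real.log (1 / ‖refl n c x - y‖) * u y)]
  refine integral_congr_ae (Eventually.of_forall fun y => ?_)
  simp only
  rw [h2]

end Pool.Agent.Q40.LP.TaskPotRefl
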