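import Pool.Agent.Q40.LP.Stmts

/-! T23: odd potentials are nonnegative on the half-plane. -/

open Set Filter Topology MeasureTheory

namespace Pool.Agent.Q40.LP.TaskPpos

theorem good_comb {u v : ℂ → ℝ} (hu : Good u) (hv : Good v) (a b : ℝ) :
    Good (fun x => a * u x + b * v x) := by
  obtain ⟨R, hR⟩ := hu.2
  obtain ⟨S, hS⟩ := hv.2
  refine ⟨(hu.1.const_mul a).add (hv.1.const_mul b), max R S, fun x hx => ?_⟩
  simp only
  rw [hR x (lt_of_le_of_lt (le_max_left _ _) hx), hS x (lt_of_le_of_lt (le_max_right _ _) hx)]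
  ring

theorem int_odd (hrefl : TaskRefl) {n : ℂ} {c : ℝ} (hn : ‖n‖ = 1) {u : ℂ → ℝ}
    (hodd : ∀ x, u (refl n c x) = - u x) : ∫ x, u x = 0 := by
  obtain ⟨h1, _, _, _, hmp, hcont, _⟩ := hrefl n c hn
  let e : ℂ ≃ₜ ℂ := ⟨⟨refl n c, refl n c, h1, h1⟩, hcont, hcont⟩
  have h2 : ∫ x, u (refl n c x) = ∫ x, u x := hmp.integral_comp e.measurableEmbedding u
  simp only [hodd] at h2
  rw [integral_neg] at h2
  linarith

theorem pot_neg (u : ℂ → ℝ) (x : ℂ) : pot (fun y => - u y) x = - pot u x := by
  unfold pot
  rw [← integral_neg]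
  congr 1
  funext y
  ring

theorem main (hCont : TaskCont) (hSub : TaskSub) (hInf : TaskInf) (hMP : TaskMP)
    (hRefl : TaskRefl) (hPR : TaskPotRefl) : Pool.Agent.Q40.LP.TaskPpos := by
  intro n c hn A hAm h g hh hg zg oh og ph s hs heq
  obtain ⟨h1, _, hlin, hfix, hmp, hcont, hnull⟩ := hRefl n c hn
  -- `q = g - h`
  set q : ℂ → ℝ := fun y => g y - h y with hq
  have Gq : Good q := by
    have := good_comb hg hh 1 (-1)
    simpa [hq, sub_eq_add_neg] using this
  have oq : ∀ x, q (refl n c x) = - q x := by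
    intro x; simp only [hq, oh, og]; ring
  have hpq : ∀ x, pot (fun y => h y - g y) x = - pot q x := by
    intro x
    rw [← pot_neg]
    congr 1
    funext y
    simp only [hq]; ring
  have opq : ∀ x, pot q (refl n c x) = - pot q x := by
    intro x
    rw [← hPR n c hn q x, ← pot_neg]
    congr 1
    funext y
    exact oq y
  have hzero : ∀ x, lin n c x = 0 → pot q x = 0 := by
    intro x hx
    have := opq x
    rw [hfix x hx] at this
    linarith
  have hcq : Continuous (pot q) := hCont q Gq
  have hlc : Continuous (lin n c) := by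
    unfold lin
    fun_prop
  have hHo : IsOpen (half n c) := isOpen_lt continuous_const hlc
  -- the function `w`
  set w : ℂ → ℝ := fun x => if 0 ≤ lin n c x then pot q x else 0 with hw
  have hwc : Continuous w := by
    refine Continuous.if_le hcq continuous_const continuous_const hlc ?_
    intro x hx
    exact hzero x hx.symm
  have hwi : ∀ ε : ℝ, 0 < ε → ∀ᶠ x in cocompact ℂ, w x < ε := by
    intro ε hε
    have h0 : ∫ x, q x = 0 := int_odd hRefl hn oq
    filter_upwards [hInf q Gq h0.ge ε hε] with x hx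
    simp only [hw]
    split_ifs
    · exact hx
    · exact hε
  have hws : ∀ x, 0 < w x → ∃ δ : ℝ, 0 < δ ∧ ∀ r : ℝ, 0 < r → r < δ →
      w x ≤ Real.circleAverage w x r := by
    intro x hx
    have hxl : 0 ≤ lin n c x := by
      by_contra hcon
      simp [hw, hcon] at hx
    have hwx : w x = pot q x := by simp [hw, hxl]
    have hxp : 0 < pot q x := by rwa [hwx] at hx
    have hxH : x ∈ half n c := by
      rcases hxl.lt_or_eq with h5 | h5
      · exact h5
      · rw [hzero x h5.symm] at hxp
        exact absurd hxp (lt_irrefl _)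
    have hop : IsOpen (half n c ∩ {y | 0 < pot q y}) :=
      hHo.inter (isOpen_lt continuous_const hcq)
    obtain ⟨δ, hδ, hball⟩ := Metric.isOpen_iff.1 hop x ⟨hxH, hxp⟩
    refine ⟨δ, hδ, fun r hr hrδ => ?_⟩
    have hle : ∀ᵐ y, y ∈ Metric.ball x r → q y ≤ 0 := by
      filter_upwards [ph, heq] with y hy1 hy2 hyb
      have hyb' := hball (Metric.ball_subset_ball hrδ.le hyb)
      have hh0 := hy1 hyb'.1
      have hpy : 0 < pot q y := hyb'.2
      by_cases hyA : y ∈ A
      · have h7 := hy2 hyA
        rw [hpq] at h7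
        have : g y < 0 := by nlinarith
        simp only [hq]; linarith
      · simp only [hq, zg y hyA]; linarith
    have h8 := hSub q Gq x r hr hle
    rw [hwx]
    refine h8.trans (le_of_eq ?_)
    apply Real.circleAverage_congr_sphere
    intro y hy
    have hyb : y ∈ Metric.ball x δ := by
      rw [abs_of_pos hr] at hy
      rw [Metric.mem_ball]
      rw [Metric.mem_sphere] at hy
      linarith
    have hyH : 0 < lin n c y := (hball hyb).1
    simp [hw, hyH.le]
  have hfin := hMP w hwc hwi hws
  intro x hx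
  have hx' : 0 < lin n c x := hx
  have h9 := hfin x
  simp only [hw, if_pos hx'.le] at h9
  rw [hpq]
  linarith

end Pool.Agent.Q40.LP.TaskPpos
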