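import Pool.Agent.Q40.LP.Stmts

/-! MP_86d647_an, blueprint of helper40: task TaskRank. -/

open Set Filter Topology MeasureTheory

namespace Pool.Agent.Q40.LP.TaskRank

theorem integrable_of (u : ℂ → ℝ) (hu : MemLp u 2 volume) (R : ℝ)
    (h : ∀ x, R < ‖x‖ → u x = 0) : Integrable u := by
  have : IsFiniteMeasure (volume.restrict (Metric.closedBall (0 : ℂ) R)) :=
    ⟨by rw [Measure.restrict_apply_univ]; exact measure_closedBall_lt_top⟩
  have h1 : Integrable u (volume.restrict (Metric.closedBall (0 : ℂ) R)) :=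
    MemLp.integrable (by norm_num) (hu.restrict _)
  refine (integrableOn_iff_integrable_of_support_subset ?_).1 h1
  intro x hx
  rw [mem_closedBall_zero_iff]
  by_contra hc
  exact hx (h x (not_le.1 hc))

theorem main (hPD : TaskPD) (hSymm : TaskSymm) (hAnn : TaskAnn) (hBil : TaskBil) :
    Pool.Agent.Q40.LP.TaskRank := by
  intro R hR
  obtain ⟨b, k, hb, hb1, hbk⟩ := hAnn R hR
  refine ⟨|En b b - 2 * k| + 1, by positivity, ?_⟩
  intro u hu hu0
  have hgu : Good u := ⟨hu, R, hu0⟩
  have hiu : Integrable u := integrable_of u hu R hu0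
  obtain ⟨Rb, hRb⟩ := hb.2
  have hib : Integrable b := integrable_of b hb.1 Rb hRb
  set M : ℝ := ∫ x, u x with hM
  have hgq : Good (fun y => 1 * u y + (-M) * b y) := by
    refine ⟨(hu.const_mul 1).add (hb.1.const_mul (-M)), max R Rb, fun x hx => ?_⟩
    rw [max_lt_iff] at hx
    show 1 * u x + -M * b x = 0
    rw [hu0 x hx.1, hRb x hx.2]
    ring
  have hq0 : ∫ x, (1 * u x + (-M) * b x) = 0 := by
    rw [integral_add (hiu.const_mul 1) (hib.const_mul (-M)), integral_const_mul,
      integral_const_mul, hb1]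
    rw [← hM]
    ring
  have hpd := hPD _ hgq hq0
  have e1 := (hBil u b (fun y => 1 * u y + (-M) * b y) hgu hb hgq 1 (-M)).2.1
  have e2 := (hBil u b u hgu hb hgu 1 (-M)).2.2.1
  have e3 := (hBil u b b hgu hb hb 1 (-M)).2.2.1
  have e4 : En b u = k * M := by
    unfold En
    rw [hM, ← integral_const_mul]
    refine integral_congr_ae (Filter.Eventually.of_forall fun x => ?_)
    rcases le_or_gt ‖x‖ R with h | h
    · simp only [hbk x h]
    · simp only [hu0 x h, mul_zero]
  have e5 := hSymm u b hgu hb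
  rw [e1, e2, e3, e5, e4] at hpd
  have h6 : 0 ≤ (|En b b - 2 * k| + 1 - (En b b - 2 * k)) * M ^ 2 :=
    mul_nonneg (by linarith [le_abs_self (En b b - 2 * k)]) (sq_nonneg M)
  nlinarith

end Pool.Agent.Q40.LP.TaskRank
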