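import Pool.Agent.Q40.LP.Stmts2

open Set Filter Topology MeasureTheory

namespace Pool.Agent.Q40.LP.TaskRect

theorem main : Pool.Agent.Q40.LP.TaskRect := by
  intro a e ha he
  have hae : 0 < a * e := mul_pos ha he
  refine ⟨Ioo 0 a ×ℂ Ioo 0 (a * e), isOpen_Ioo.reProdIm isOpen_Ioo, ?_, ?_, ?_, ?_, ?_⟩
  · refine ⟨⟨⟨a / 2, a * e / 2⟩, ?_⟩, ?_⟩
    · rw [Complex.mem_reProdIm]
      exact ⟨⟨by positivity, by simpa using half_lt_self ha⟩,
        ⟨by positivity, by simpa using half_lt_self hae⟩⟩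
    · exact Convex.isPreconnected (((convex_Ioo (0 : ℝ) a).linear_preimage Complex.reLm).inter
        ((convex_Ioo (0 : ℝ) (a * e)).linear_preimage Complex.imLm))
  · exact (Metric.isBounded_Ioo 0 a).reProdIm (Metric.isBounded_Ioo 0 (a * e))
  · have h1 : volume (Ioo 0 a ×ℂ Ioo 0 (a * e)) = ENNReal.ofReal (a ^ 2 * e) := by
      have h2 : Ioo 0 a ×ℂ Ioo 0 (a * e) =
          Complex.measurableEquivRealProd ⁻¹' (Ioo 0 a ×ˢ Ioo 0 (a * e)) := rfl
      rw [h2, Complex.volume_preserving_equiv_real_prod.measure_preimage_equiv,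
        Measure.volume_eq_prod, Measure.prod_prod, Real.volume_Ioo, Real.volume_Ioo,
        ← ENNReal.ofReal_mul (by linarith)]
      congr 1
      ring
    rw [measureReal_def, h1, ENNReal.toReal_ofReal (by positivity)]
  · intro x hx
    rw [Complex.mem_reProdIm] at hx
    obtain ⟨⟨h1, h2⟩, h3, h4⟩ := hx
    have h5 := Complex.norm_le_abs_re_add_abs_im x
    rw [abs_of_pos h1, abs_of_pos h3] at h5
    nlinarith
  · rw [Complex.closure_reProdIm, closure_Ioo ha.ne, closure_Ioo hae.ne]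
    ext z
    rw [Complex.mem_reProdIm, mem_image]
    constructor
    · rintro ⟨⟨h1, h2⟩, h3, h4⟩
      refine ⟨⟨z.re / a, z.im / a⟩, ⟨?_, ?_, ?_, ?_⟩, ?_⟩
      · exact div_nonneg h1 ha.le
      · exact (div_le_one ha).2 h2
      · exact div_nonneg h3 ha.le
      · exact (div_le_iff₀ ha).2 (by linarith)
      · apply Complex.ext
        · simp
          field_simp
        · simp
          field_simp
    · rintro ⟨w, ⟨h1, h2, h3, h4⟩, rfl⟩
      simp only [Complex.mul_re, Complex.mul_im, Complex.ofReal_re, Complex.ofReal_im, zero_mul,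
        sub_zero, add_zero, mem_Icc]
      exact ⟨⟨by positivity, by nlinarith⟩, by positivity, by nlinarith⟩

end Pool.Agent.Q40.LP.TaskRect
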