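import Pool.Agent.Q40.LP.Stmts2

open Set Filter Topology MeasureTheory
open scoped Pointwise

namespace Pool.Agent.Q40.LP.TaskScale

theorem sumCard (n : ℕ) :
    (∑ i : Fin n, (Finset.univ.filter (fun j : Fin n => i < j)).card) * 2 = n * (n - 1) := by
  have h1 : ∀ i : Fin n, (Finset.univ.filter (fun j : Fin n => i < j)).card = n - 1 - (i : ℕ) := by
    intro i
    rw [Finset.filter_lt_eq_Ioi, Fin.card_Ioi]
  rw [Finset.sum_congr rfl (fun i _ => h1 i)]
  rw [Fin.sum_univ_eq_sum_range (fun i => n - 1 - i) n]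
  rw [Finset.sum_range_reflect (fun i => i) n]
  exact Finset.sum_range_id_mul_two n

theorem distProd_mul {n : ℕ} (a : ℝ) (ha : 0 < a) (z : Fin n → ℂ) :
    distProd (fun i => (a : ℂ) * z i) =
      a ^ (∑ i : Fin n, (Finset.univ.filter (fun j : Fin n => i < j)).card) * distProd z := by
  unfold distProd
  rw [← Finset.prod_pow_eq_pow_sum, ← Finset.prod_mul_distrib]
  refine Finset.prod_congr rfl (fun i _ => ?_)
  rw [← Finset.prod_const, ← Finset.prod_mul_distrib]
  refine Finset.prod_congr rfl (fun j _ => ?_)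
  rw [← mul_sub, norm_mul, Complex.norm_real, Real.norm_of_nonneg ha.le]

theorem distProd_nonneg {n : ℕ} (z : Fin n → ℂ) : 0 ≤ distProd z :=
  Finset.prod_nonneg (fun i _ => Finset.prod_nonneg (fun j _ => norm_nonneg _))

theorem main : Pool.Agent.Q40.LP.TaskScale := by
  intro E a _ _ ha n hn
  have key : ∀ z : Fin n → ℂ, distProd (fun i => (a : ℂ) * z i) ^ ((2 : ℝ) / (n * (n - 1))) =
      a * distProd z ^ ((2 : ℝ) / (n * (n - 1))) := by
    intro z
    have hn' : (2 : ℝ) ≤ n := by exact_mod_cast hn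
    have hN : (((∑ i : Fin n, (Finset.univ.filter (fun j : Fin n => i < j)).card : ℕ) : ℝ)) * 2 =
        n * (n - 1) := by
      have := sumCard n
      have h2 : ((n - 1 : ℕ) : ℝ) = (n : ℝ) - 1 := by
        rw [Nat.cast_sub (by omega)]; simp
      rw [← h2]
      exact_mod_cast this
    rw [distProd_mul a ha z, Real.mul_rpow (pow_nonneg ha.le _) (distProd_nonneg z),
      ← Real.rpow_natCast, ← Real.rpow_mul ha.le]
    have h3 : (((∑ i : Fin n, (Finset.univ.filter (fun j : Fin n => i < j)).card : ℕ) : ℝ)) *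
        ((2 : ℝ) / (n * (n - 1))) = 1 := by
      have hpos : (n : ℝ) * (n - 1) ≠ 0 := by
        have : (0:ℝ) < n * (n - 1) := by nlinarith
        exact this.ne'
      rw [mul_div_assoc', hN, div_self hpos]
    rw [h3, Real.rpow_one]
  unfold diam
  have hset : {d | ∃ z : Fin n → ℂ, (∀ i, z i ∈ (fun z => (a : ℂ) * z) '' E) ∧
      d = distProd z ^ ((2 : ℝ) / (n * (n - 1)))} =
      a • {d | ∃ z : Fin n → ℂ, (∀ i, z i ∈ E) ∧ d = distProd z ^ ((2 : ℝ) / (n * (n - 1)))} := by
    ext d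
    constructor
    · rintro ⟨z, hz, rfl⟩
      choose w hw hwz using hz
      refine ⟨distProd w ^ ((2 : ℝ) / (n * (n - 1))), ⟨w, hw, rfl⟩, ?_⟩
      have : z = fun i => (a : ℂ) * w i := by
        funext i; exact (hwz i).symm
      rw [this, key w]
      rfl
    · rintro ⟨_, ⟨w, hw, rfl⟩, rfl⟩
      exact ⟨fun i => (a : ℂ) * w i, fun i => ⟨w i, hw i, rfl⟩, (key w).symm⟩
  rw [hset, Real.sSup_smul_of_nonneg ha.le]
  rfl

end Pool.Agent.Q40.LP.TaskScale
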