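import Pool.Agent.Q40.LP.Stmts

open Set Filter Topology MeasureTheory

set_option autoImplicit false

namespace Pool.Agent.Q40.LP.TaskSolve

private theorem solve {X : Type} [NormedAddCommGroup X] [InnerProductSpace ℝ X] [CompleteSpace X]
    (S : X →L[ℝ] X) (O : Submodule ℝ X) (hO : IsClosed (O : Set X))
    (hpos : ∀ x ∈ O, 0 ≤ inner ℝ (S x) x) (s : ℝ) (hs : 0 < s) (b : X) :
    ∃ g ∈ O, ∀ z ∈ O, inner ℝ (b - S g) z = s * inner ℝ g z := by
  have : CompleteSpace O := hO.completeSpace_coe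
  let P : X →L[ℝ] O := O.orthogonalProjectionOnto
  let S' : O →L[ℝ] O := P ∘L S ∘L O.subtypeL + s • ContinuousLinearMap.id ℝ O
  let B : O →L[ℝ] O →L[ℝ] ℝ := (innerSL ℝ) ∘L S'
  have hP : ∀ (v : X) (w : O), inner ℝ (P v) w = inner ℝ v (w : X) := fun v w =>
    O.inner_orthogonalProjectionOnto_eq_of_mem_right w v
  have hB : ∀ v w : O, B v w = inner ℝ (S v) (w : X) + s * inner ℝ (v : X) (w : X) := by
    intro v w
    show inner ℝ (P (S v) + s • v) w = _
    rw [inner_add_left, real_inner_smul_left, hP]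
    rfl
  have hc : IsCoercive B := by
    refine ⟨s, hs, fun u => ?_⟩
    rw [hB]
    have h1 := hpos u u.2
    have h2 : inner ℝ (u : X) (u : X) = ‖u‖ * ‖u‖ := by
      rw [real_inner_self_eq_norm_mul_norm]
      rfl
    rw [h2]
    nlinarith
  obtain ⟨g, hg⟩ := hc.continuousLinearEquivOfBilin.surjective (P b)
  refine ⟨g, g.2, fun z hz => ?_⟩
  have h1 := hc.continuousLinearEquivOfBilin_apply g ⟨z, hz⟩
  rw [hg, hP, hB] at h1
  rw [inner_sub_left]
  have h2 : inner ℝ b z = inner ℝ (S g) z + s * inner ℝ (g : X) z := h1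
  rw [h2]
  ring

theorem main (hPD : TaskPD) (hOp : TaskOp) (hRefl : TaskRefl) (hPR : TaskPotRefl)
    (hBil : TaskBil) (hCont : TaskCont) : Pool.Agent.Q40.LP.TaskSolve := by
  intro n c hn A hA hAb hAs h hh hodd s hs
  obtain ⟨hinv, -, -, -, hmp, hcont, -⟩ := hRefl n c hn
  have hPR' := hPR n c hn
  generalize hR : refl n c = R at *
  have hpre : R ⁻¹' A = A := by ext x; exact hAs x
  have hmpA : MeasurePreserving R (volume.restrict A) (volume.restrict A) := by
    have := hmp.restrict_preimage hA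
    rwa [hpre] at this
  let e : ℂ ≃ₜ ℂ := ⟨⟨R, R, hinv, hinv⟩, hcont, hcont⟩
  have hemb : MeasurableEmbedding R := e.measurableEmbedding
  obtain ⟨T, hT⟩ := hOp A hA hAb
  have hfin : IsFiniteMeasure (volume.restrict A) :=
    ⟨by rw [Measure.restrict_apply_univ]; exact hAb.measure_lt_top⟩
  have hin : ∀ f : Lp ℝ 2 (volume.restrict A), In A (A.indicator (f : ℂ → ℝ)) := fun f =>
    ⟨(memLp_indicator_iff_restrict hA).2 (Lp.memLp f), fun x hx => indicator_of_notMem hx _⟩
  obtain ⟨ρ, hρ⟩ := hAb.subset_closedBall 0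
  have hgood : ∀ u, In A u → Good u := by
    intro u hu
    refine ⟨hu.1, ρ, fun x hx => hu.2 x fun hxA => ?_⟩
    have := hρ hxA
    rw [mem_closedBall_zero_iff] at this
    linarith
  have hneg : ∀ (u : ℂ → ℝ) (x : ℂ), pot (fun y => - u y) x = - pot u x := by
    intro u x
    rw [pot, pot, ← integral_neg]
    refine integral_congr_ae (Eventually.of_forall fun y => ?_)
    show _ * _ = _
    ring
  have hcongr : ∀ (u v : ℂ → ℝ), u =ᵐ[volume] v → ∀ x, pot u x = pot v x := by
    intro u v huv x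
    refine integral_congr_ae ?_
    filter_upwards [huv] with y hy
    rw [hy]
  let Cl : Lp ℝ 2 (volume.restrict A) →ₗ[ℝ] Lp ℝ 2 (volume.restrict A) :=
    Lp.compMeasurePreservingₗ ℝ R hmpA
  have hCl : ∀ f : Lp ℝ 2 (volume.restrict A),
      (Cl f : ℂ → ℝ) =ᵐ[volume.restrict A] (f : ℂ → ℝ) ∘ R :=
    fun f => Lp.coeFn_compMeasurePreserving f hmpA
  have hClc : Continuous Cl := (Lp.isometry_compMeasurePreserving hmpA).continuous
  let O : Submodule ℝ (Lp ℝ 2 (volume.restrict A)) := LinearMap.ker (Cl + LinearMap.id)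
  have hOc : IsClosed (O : Set (Lp ℝ 2 (volume.restrict A))) := by
    have h1 : (O : Set (Lp ℝ 2 (volume.restrict A))) = (fun f => Cl f + f) ⁻¹' {0} := by
      ext f
      exact LinearMap.mem_ker
    rw [h1]
    exact isClosed_singleton.preimage (hClc.add continuous_id)
  have hOm : ∀ f : Lp ℝ 2 (volume.restrict A),
      f ∈ O ↔ ∀ᵐ x ∂(volume.restrict A), f (R x) = - f x := by
    intro f
    have h1 : f ∈ O ↔ Cl f = - f := by
      rw [LinearMap.mem_ker]
      show Cl f + f = 0 ↔ _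
      exact add_eq_zero_iff_eq_neg
    rw [h1, Lp.ext_iff]
    constructor
    · intro h2
      filter_upwards [h2, hCl f, Lp.coeFn_neg f] with x h3 h4 h5
      rw [h4, h5] at h3
      exact h3
    · intro h2
      filter_upwards [h2, hCl f, Lp.coeFn_neg f] with x h3 h4 h5
      rw [h4, h5]
      exact h3
  -- odd functions have odd zero extensions
  have hext : ∀ f ∈ O, ∀ᵐ x, A.indicator (f : ℂ → ℝ) (R x) = - A.indicator (f : ℂ → ℝ) x := by
    intro f hf
    have h1 := (ae_restrict_iff' hA).1 ((hOm f).1 hf)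
    filter_upwards [h1] with x hx
    by_cases hxA : x ∈ A
    · rw [indicator_of_mem hxA, indicator_of_mem ((hAs x).2 hxA)]
      exact hx hxA
    · rw [indicator_of_notMem hxA, indicator_of_notMem (fun h' => hxA ((hAs x).1 h'))]
      simp
  have hpotodd : ∀ u : ℂ → ℝ, (∀ᵐ x, u (R x) = - u x) → ∀ x, pot u (R x) = - pot u x := by
    intro u hu x
    rw [← hPR' u x, ← hneg]
    exact hcongr _ _ hu x
  have hpos : ∀ f ∈ O, 0 ≤ inner ℝ (T f) f := by
    intro f hf
    have hz : ∫ x, A.indicator (f : ℂ → ℝ) x = 0 := by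
      have h1 : ∫ x, A.indicator (f : ℂ → ℝ) (R x) = ∫ x, A.indicator (f : ℂ → ℝ) x :=
        hmp.integral_comp hemb _
      have h2 : ∫ x, A.indicator (f : ℂ → ℝ) (R x) = - ∫ x, A.indicator (f : ℂ → ℝ) x := by
        rw [← integral_neg]
        exact integral_congr_ae (hext f hf)
      linarith
    have h1 := hPD _ (hgood _ (hin f)) hz
    have h2 : En (A.indicator (f : ℂ → ℝ)) (A.indicator (f : ℂ → ℝ)) = inner ℝ (T f) f := by
      rw [L2.inner_def, En]
      have h3 : (fun x => pot (A.indicator (f : ℂ → ℝ)) x * A.indicator (f : ℂ → ℝ) x) =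
          A.indicator (fun x => pot (A.indicator (f : ℂ → ℝ)) x * f x) := by
        funext x
        by_cases hxA : x ∈ A
        · rw [indicator_of_mem hxA, indicator_of_mem hxA]
        · rw [indicator_of_notMem hxA, indicator_of_notMem hxA, mul_zero]
      rw [h3, integral_indicator hA]
      refine integral_congr_ae ?_
      filter_upwards [hT f] with x hx
      rw [hx]
      simp [mul_comm]
    rwa [h2] at h1
  -- the potential of `h`
  have hbc : Continuous (pot h) := hCont h hh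
  obtain ⟨M, hM⟩ := hAb.isCompact_closure.exists_bound_of_continuousOn hbc.continuousOn
  have hbL : MemLp (pot h) 2 (volume.restrict A) := by
    refine MemLp.of_bound hbc.aestronglyMeasurable M ?_
    rw [ae_restrict_iff' hA]
    exact Eventually.of_forall fun x hx => hM x (subset_closure hx)
  obtain ⟨g, hgO, hg⟩ := solve T O hOc hpos s hs (hbL.toLp (pot h))
  have hbO : hbL.toLp (pot h) ∈ O := by
    rw [hOm]
    have h1 := hbL.coeFn_toLp
    have h2 := hmpA.quasiMeasurePreserving.ae_eq_comp h1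
    filter_upwards [h1, h2] with x h3 h4
    have h5 : (hbL.toLp (pot h) : ℂ → ℝ) (R x) = pot h (R x) := h4
    rw [h3, h5]
    exact hpotodd h (Eventually.of_forall hodd) x
  have hTO : T g ∈ O := by
    rw [hOm]
    have h1 := hT g
    have h2 := hmpA.quasiMeasurePreserving.ae_eq_comp h1
    filter_upwards [h1, h2] with x h3 h4
    have h5 : (T g : ℂ → ℝ) (R x) = pot (A.indicator (g : ℂ → ℝ)) (R x) := h4
    rw [h3, h5]
    exact hpotodd _ (hext g hgO) x
  have hr : hbL.toLp (pot h) - T g - s • g = 0 := by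
    have h1 := hg _ (O.sub_mem (O.sub_mem hbO hTO) (O.smul_mem s hgO))
    rw [← inner_self_eq_zero (𝕜 := ℝ)]
    nth_rewrite 1 [inner_sub_left]
    rw [h1, real_inner_smul_left, sub_self]
  have hae : ∀ᵐ x, x ∈ A → pot h x - pot (A.indicator (g : ℂ → ℝ)) x = s * g x := by
    rw [← ae_restrict_iff' hA]
    have h1 : hbL.toLp (pot h) - T g = s • g := sub_eq_zero.1 hr
    have h2 := Lp.coeFn_sub (hbL.toLp (pot h)) (T g)
    have h3 := Lp.coeFn_smul s g
    rw [h1] at h2
    filter_upwards [h2, h3, hbL.coeFn_toLp, hT g] with x h4 h5 h6 h7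
    rw [h5, Pi.sub_apply, h6, h7, Pi.smul_apply, smul_eq_mul] at h4
    exact h4.symm
  let g0 : ℂ → ℝ := A.indicator (g : ℂ → ℝ)
  have hg0 : In A g0 := hin g
  let g1 : ℂ → ℝ := fun x => (1 / 2 : ℝ) * (g0 x - g0 (R x))
  have hg1 : In A g1 := by
    refine ⟨(hg0.1.sub (hg0.1.comp_measurePreserving hmp)).const_mul (1 / 2 : ℝ), fun x hx => ?_⟩
    show (1 / 2 : ℝ) * (g0 x - g0 (R x)) = 0
    rw [hg0.2 x hx, hg0.2 (R x) (fun h' => hx ((hAs x).1 h'))]
    simp
  have hg10 : g1 =ᵐ[volume] g0 := by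
    filter_upwards [hext g hgO] with x hx
    show (1 / 2 : ℝ) * (A.indicator (g : ℂ → ℝ) x - A.indicator (g : ℂ → ℝ) (R x)) =
      A.indicator (g : ℂ → ℝ) x
    rw [hx]
    ring
  refine ⟨g1, hg1, fun x => ?_, ?_⟩
  · show (1 / 2 : ℝ) * (g0 (R x) - g0 (R (R x))) = - ((1 / 2 : ℝ) * (g0 x - g0 (R x)))
    rw [hinv]
    ring
  · filter_upwards [hae, hg10] with x hx hx1 hxA
    have h1 := (hBil h g1 h hh (hgood _ hg1) hh 1 (-1)).1 x
    have h2 : (fun y => h y - g1 y) = fun y => 1 * h y + (-1) * g1 y := by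
      funext y; ring
    rw [h2, h1, hcongr g1 g0 hg10 x, hx1]
    have h3 := hx hxA
    show 1 * pot h x + -1 * pot (A.indicator (g : ℂ → ℝ)) x = s * A.indicator (g : ℂ → ℝ) x
    rw [indicator_of_mem hxA, ← h3]
    ring

end Pool.Agent.Q40.LP.TaskSolve
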