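import Pool.Agent.Q40.LP.Stmts

/-! MP_86d647_an blueprint: TaskSub. -/

set_option autoImplicit false

open Set Filter Topology MeasureTheory

namespace Pool.Agent.Q40.LP.TaskSub

open Pool.Agent.Q40.LP

theorem main (hInt : TaskInt) (hCirc : TaskCirc) : Pool.Agent.Q40.LP.TaskSub := by
  intro u hu x r hr hneg
  rw [hCirc u hu x r hr]
  unfold pot
  apply integral_mono_ae (hInt u hu x) ?_ ?_
  · obtain ⟨hL, R, hR⟩ := hu
    have hloc : LocallyIntegrable u volume := hL.locallyIntegrable one_le_two
    have hK : IntegrableOn u (Metric.closedBall (0 : ℂ) R) volume :=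
      hloc.integrableOn_isCompact (isCompact_closedBall 0 R)
    have hcont : Continuous (fun y : ℂ => Real.log (1 / max r ‖x - y‖)) := by
      apply Continuous.log
      · apply Continuous.div continuous_const
        · exact continuous_const.max (continuous_const.sub continuous_id).norm
        · intro y
          exact (lt_of_lt_of_le hr (le_max_left _ _)).ne'
      · intro y
        have : 0 < max r ‖x - y‖ := lt_of_lt_of_le hr (le_max_left _ _)
        positivity
    have h1 : IntegrableOn (fun y : ℂ => Real.log (1 / max r ‖x - y‖) * u y)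
        (Metric.closedBall (0 : ℂ) R) volume :=
      IntegrableOn.continuousOn_mul hcont.continuousOn hK (isCompact_closedBall 0 R)
    rw [integrableOn_iff_integrable_of_support_subset] at h1
    · exact h1
    · intro y hy
      rw [Metric.mem_closedBall, dist_zero_right]
      by_contra hlt
      rw [not_le] at hlt
      exact hy (by simp only [hR y hlt, mul_zero])
  · have hne : ∀ᵐ y : ℂ, y ≠ x := by
      rw [ae_iff]
      simp
    filter_upwards [hneg, hne] with y h1 h2
    by_cases hy : ‖x - y‖ < r
    · have hmem : y ∈ Metric.ball x r := by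
        rw [Metric.mem_ball, dist_comm, dist_eq_norm]
        exact hy
      have hu0 := h1 hmem
      rw [max_eq_left hy.le]
      have hpos : 0 < ‖x - y‖ := norm_pos_iff.2 (sub_ne_zero.2 (Ne.symm h2))
      have h3 : Real.log (1 / r) ≤ Real.log (1 / ‖x - y‖) :=
        Real.log_le_log (by positivity) (one_div_le_one_div_of_le hpos hy.le)
      exact mul_le_mul_of_nonpos_right h3 hu0
    · rw [max_eq_right (not_lt.1 hy)]

end Pool.Agent.Q40.LP.TaskSub
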