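import Pool.Agent.Q40.LP.Stmts

open Set Filter Topology MeasureTheory

namespace Pool.Agent.Q40.LP.TaskSymm

theorem good_abs {u : ℂ → ℝ} (hu : Good u) : Good fun x => |u x| :=
  ⟨hu.1.abs, by
    obtain ⟨R, hR⟩ := hu.2
    exact ⟨R, fun x hx => by simp [hR x hx]⟩⟩

theorem good_integrable {u : ℂ → ℝ} (hu : Good u) : Integrable u := by
  obtain ⟨R, hR⟩ := hu.2
  have h1 : MemLp u 2 (volume.restrict (Metric.closedBall (0 : ℂ) R)) := hu.1.restrict _
  have hfin : IsFiniteMeasure (volume.restrict (Metric.closedBall (0 : ℂ) R)) :=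
    ⟨by
      rw [Measure.restrict_apply_univ]
      exact (isCompact_closedBall (0 : ℂ) R).measure_lt_top⟩
  have h2 : IntegrableOn u (Metric.closedBall (0 : ℂ) R) := h1.integrable (by norm_num)
  refine (integrableOn_iff_integrable_of_support_subset ?_).1 h2
  intro x hx
  rw [Function.mem_support] at hx
  rw [Metric.mem_closedBall, dist_zero_right]
  by_contra h
  exact hx (hR x (not_le.1 h))

theorem abs_log_le {R r : ℝ} (hR : 1 ≤ R) (h0 : 0 ≤ r) (hr : r ≤ R) :
    |Real.log (1 / r)| ≤ Real.log (1 / r) + 2 * Real.log R := by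
  have hlR : 0 ≤ Real.log R := Real.log_nonneg hR
  rcases h0.eq_or_lt with h | h
  · rw [← h]
    simp
    linarith
  · rw [one_div, Real.log_inv]
    rcases le_total r 1 with h1 | h1
    · have : Real.log r ≤ 0 := Real.log_nonpos h0 h1
      rw [abs_of_nonneg (by linarith)]
      linarith
    · have h2 : 0 ≤ Real.log r := Real.log_nonneg h1
      have h3 : Real.log r ≤ Real.log R := Real.log_le_log h hr
      rw [abs_neg, abs_of_nonneg h2]
      linarith

theorem meas_ker {u v : ℂ → ℝ} (hu : Good u) (hv : Good v) :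
    AEStronglyMeasurable (fun p : ℂ × ℂ => Real.log (1 / ‖p.1 - p.2‖) * u p.2 * v p.1)
      (volume.prod volume) := by
  have h1 : AEStronglyMeasurable (fun p : ℂ × ℂ => Real.log (1 / ‖p.1 - p.2‖))
      ((volume : Measure ℂ).prod volume) := by
    refine Measurable.aestronglyMeasurable ?_
    fun_prop
  exact (h1.mul hu.1.1.comp_snd).mul hv.1.1.comp_fst

theorem main (hI : TaskInt) (hB : TaskBound) : Pool.Agent.Q40.LP.TaskSymm := by
  intro u v hu hv
  have hint : Integrable (Function.uncurry fun x y : ℂ => Real.log (1 / ‖x - y‖) * u y * v x)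
      ((volume : Measure ℂ).prod volume) := by
    have hm := meas_ker hu hv
    refine (integrable_prod_iff hm).2 ⟨Eventually.of_forall fun x => (hI u hu x).mul_const (v x), ?_⟩
    obtain ⟨R1, hR1⟩ := hu.2
    obtain ⟨R2, hR2⟩ := hv.2
    obtain ⟨R, h1R, hRu, hRv⟩ : ∃ R : ℝ, 1 ≤ R ∧ R1 ≤ R ∧ R2 ≤ R :=
      ⟨max 1 (max R1 R2), le_max_left _ _, (le_max_left _ _).trans (le_max_right _ _),
        (le_max_right _ _).trans (le_max_right _ _)⟩
    obtain ⟨C, hC, hCb⟩ := hB R (by linarith)
    have hau := good_abs hu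
    have hui : Integrable fun y => |u y| := good_integrable hau
    obtain ⟨K, hK⟩ : ∃ K : ℝ, ∀ x : ℂ, ‖x‖ ≤ R →
        ∫ y, ‖Real.log (1 / ‖x - y‖) * u y‖ ≤ K := by
      refine ⟨C * Real.sqrt (∫ y, |u y| ^ 2) + 2 * Real.log (2 * R) * ∫ y, |u y|, ?_⟩
      intro x hx
      have h3 : ∫ y, ‖Real.log (1 / ‖x - y‖) * u y‖ ≤
          ∫ y, (Real.log (1 / ‖x - y‖) * |u y| + 2 * Real.log (2 * R) * |u y|) := by
        refine integral_mono (hI u hu x).norm ((hI _ hau x).add (hui.const_mul _)) ?_
        intro y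
        show ‖Real.log (1 / ‖x - y‖) * u y‖ ≤
          Real.log (1 / ‖x - y‖) * |u y| + 2 * Real.log (2 * R) * |u y|
        rw [norm_mul, Real.norm_eq_abs, Real.norm_eq_abs, ← add_mul]
        by_cases hy : R < ‖y‖
        · rw [hR1 y (lt_of_le_of_lt hRu hy)]
          simp
        · refine mul_le_mul_of_nonneg_right ?_ (abs_nonneg _)
          refine abs_log_le (by linarith) (norm_nonneg _) ?_
          calc ‖x - y‖ ≤ ‖x‖ + ‖y‖ := norm_sub_le _ _
            _ ≤ 2 * R := by linarith [not_lt.1 hy]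
      rw [integral_add (hI _ hau x) (hui.const_mul _), integral_const_mul] at h3
      have h4 := hCb (fun y => |u y|) hau.1 (fun y hy => by
        simp [hR1 y (lt_of_le_of_lt hRu hy)]) x hx
      have h5 : ∫ y, Real.log (1 / ‖x - y‖) * |u y| ≤ C * Real.sqrt (∫ y, |u y| ^ 2) :=
        (le_abs_self _).trans h4
      linarith
    have hvi : Integrable v := good_integrable hv
    refine (hvi.norm.const_mul K).mono' (hm.norm.integral_prod_right') ?_
    refine Eventually.of_forall fun x => ?_
    have e1 : ∫ y, ‖Real.log (1 / ‖x - y‖) * u y * v x‖ =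
        (∫ y, ‖Real.log (1 / ‖x - y‖) * u y‖) * ‖v x‖ := by
      rw [← integral_mul_const]
      refine integral_congr_ae (Eventually.of_forall fun y => ?_)
      show ‖Real.log (1 / ‖x - y‖) * u y * v x‖ = ‖Real.log (1 / ‖x - y‖) * u y‖ * ‖v x‖
      rw [norm_mul]
    show ‖∫ y, ‖Real.log (1 / ‖x - y‖) * u y * v x‖‖ ≤ K * ‖v x‖
    rw [e1, norm_mul, norm_norm, Real.norm_of_nonneg (integral_nonneg fun y => norm_nonneg _)]
    by_cases hx : R < ‖x‖
    · rw [hR2 x (lt_of_le_of_lt hRv hx)]
      simp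
    · exact mul_le_mul_of_nonneg_right (hK x (not_lt.1 hx)) (norm_nonneg _)
  have hs := integral_integral_swap hint
  unfold En pot
  calc ∫ x, (∫ y, Real.log (1 / ‖x - y‖) * u y) * v x
      = ∫ x, ∫ y, Real.log (1 / ‖x - y‖) * u y * v x := by
        refine integral_congr_ae (Eventually.of_forall fun x => ?_)
        exact (integral_mul_const _ _).symm
    _ = ∫ y, ∫ x, Real.log (1 / ‖x - y‖) * u y * v x := hs
    _ = ∫ y, (∫ x, Real.log (1 / ‖y - x‖) * v x) * u y := by
        refine integral_congr_ae (Eventually.of_forall fun y => ?_)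
        show ∫ x, Real.log (1 / ‖x - y‖) * u y * v x = (∫ x, Real.log (1 / ‖y - x‖) * v x) * u y
        rw [← integral_mul_const]
        refine integral_congr_ae (Eventually.of_forall fun x => ?_)
        show Real.log (1 / ‖x - y‖) * u y * v x = Real.log (1 / ‖y - x‖) * v x * u y
        rw [norm_sub_rev x y]
        ring

end Pool.Agent.Q40.LP.TaskSymm
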