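import Pool.Agent.Q40.LP.Stmts

set_option autoImplicit false

namespace Pool.Agent.Q40.LP.TaskTest
open Pool.Agent.Q40.LP
open Set Filter Topology MeasureTheory

theorem good_lin {u v : ℂ → ℝ} (hu : Good u) (hv : Good v) (a b : ℝ) :
    Good (fun x => a * u x + b * v x) := by
  obtain ⟨hu1, R1, hR1⟩ := hu
  obtain ⟨hv1, R2, hR2⟩ := hv
  refine ⟨(hu1.const_mul a).add (hv1.const_mul b), max R1 R2, fun x hx => ?_⟩
  show a * u x + b * v x = 0
  rw [hR1 x (lt_of_le_of_lt (le_max_left _ _) hx), hR2 x (lt_of_le_of_lt (le_max_right _ _) hx)]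
  simp

theorem good_add {u v : ℂ → ℝ} (hu : Good u) (hv : Good v) : Good (fun x => u x + v x) := by
  simpa using good_lin hu hv 1 1

theorem good_sub {u v : ℂ → ℝ} (hu : Good u) (hv : Good v) : Good (fun x => u x - v x) := by
  have := good_lin hu hv 1 (-1)
  have e : (fun x => u x - v x) = fun x => 1 * u x + (-1) * v x := by
    funext x; ring
  rw [e]; exact this

theorem good_of_in {Ω : Set ℂ} (hb : Bornology.IsBounded Ω) {u : ℂ → ℝ} (h : In Ω u) : Good u := by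
  obtain ⟨R, hR⟩ := hb.subset_closedBall 0
  refine ⟨h.1, R, fun x hx => h.2 x fun hxΩ => ?_⟩
  have := hR hxΩ
  rw [mem_closedBall_zero_iff] at this
  linarith

theorem refl_image (n : ℂ) (c : ℝ) (h : ∀ x, refl n c (refl n c x) = x) (Ω : Set ℂ) :
    refl n c '' Ω = refl n c ⁻¹' Ω := by
  ext x
  constructor
  · rintro ⟨y, hy, rfl⟩
    show refl n c (refl n c y) ∈ Ω
    rw [h]; exact hy
  · intro hx
    exact ⟨refl n c x, hx, h x⟩

theorem half_meas (n : ℂ) (c : ℝ) : MeasurableSet (half n c) := by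
  apply IsOpen.measurableSet
  apply isOpen_lt continuous_const
  unfold lin
  fun_prop

theorem polar_meas (hR : TaskRefl) (n : ℂ) (c : ℝ) (hn : ‖n‖ = 1) (Ω : Set ℂ) (hΩ : IsOpen Ω) :
    MeasurableSet (polar n c Ω) := by
  obtain ⟨h1, h2, h3, h4, h5, h6, h7⟩ := hR n c hn
  have hi : MeasurableSet (refl n c '' Ω) := by
    rw [refl_image n c h1]
    exact (hΩ.preimage h6).measurableSet
  exact ((hΩ.measurableSet.union hi).inter (half_meas n c)).union
    ((hΩ.measurableSet.inter hi).diff (half_meas n c))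

theorem polar_bdd (hR : TaskRefl) (n : ℂ) (c : ℝ) (hn : ‖n‖ = 1) (Ω : Set ℂ)
    (hb : Bornology.IsBounded Ω) : Bornology.IsBounded (polar n c Ω) := by
  obtain ⟨h1, h2, h3, h4, h5, h6, h7⟩ := hR n c hn
  have hiso : Isometry (refl n c) := Isometry.of_dist_eq fun x y => by
    rw [dist_eq_norm, dist_eq_norm, h2]
  have hi : Bornology.IsBounded (refl n c '' Ω) := hiso.lipschitz.isBounded_image hb
  refine (hb.union hi).subset ?_
  rintro x (⟨hx, -⟩ | ⟨⟨hx, -⟩, -⟩)
  · exact hx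
  · exact Or.inl hx

theorem pot_neg (v : ℂ → ℝ) (x : ℂ) : pot (fun y => - v y) x = - pot v x := by
  unfold pot
  rw [← integral_neg]
  congr 1
  funext y
  ring

theorem eig_neg {Ω : Set ℂ} {l : ℝ} {v : ℂ → ℝ} (h : IsEig Ω l v) :
    IsEig Ω l (fun y => - v y) := by
  obtain ⟨⟨h1, h2⟩, h3, h4⟩ := h
  refine ⟨⟨h1.neg, fun x hx => by show - v x = 0; rw [h2 x hx, neg_zero]⟩, fun h => h3 ?_, ?_⟩
  · filter_upwards [h] with x hx
    have : - v x = 0 := hx
    show v x = 0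
    linarith
  · filter_upwards [h4] with x hx hxΩ
    rw [pot_neg, hx hxΩ]; ring

theorem En_self {Ω : Set ℂ} {l : ℝ} {v : ℂ → ℝ} (h : IsEig Ω l v) :
    En v v = l * ∫ x, v x ^ 2 := by
  obtain ⟨⟨h1, h2⟩, h3, h4⟩ := h
  unfold En
  rw [← integral_const_mul]
  apply integral_congr_ae
  filter_upwards [h4] with x hx
  by_cases hxΩ : x ∈ Ω
  · rw [hx hxΩ]; ring
  · rw [h2 x hxΩ]; ring

/-- energy and square norm of the sum of an even and an odd function -/
theorem split (hBil : TaskBil) (hOrth : TaskOrth) (n : ℂ) (c : ℝ) (hn : ‖n‖ = 1) (e o : ℂ → ℝ)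
    (he : Good e) (ho : Good o) (he' : ∀ x, e (refl n c x) = e x)
    (ho' : ∀ x, o (refl n c x) = - o x) :
    En (fun x => e x + o x) (fun x => e x + o x) = En e e + En o o ∧
    ∫ x, (e x + o x) ^ 2 = (∫ x, e x ^ 2) + ∫ x, o x ^ 2 := by
  obtain ⟨o1, o2, o3⟩ := hOrth n c hn e o he ho he' ho'
  have hs : Good (fun x => e x + o x) := good_add he ho
  constructor
  · have e1 := (hBil e o (fun x => e x + o x) he ho hs 1 1).2.1
    have e2 := (hBil e o e he ho he 1 1).2.2.1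
    have e3 := (hBil e o o he ho ho 1 1).2.2.1
    simp only [one_mul] at e1 e2 e3
    rw [e1, e2, e3, o1, o2]; ring
  · have i1 : Integrable (fun x => e x ^ 2) := he.1.integrable_sq
    have i2 : Integrable (fun x => o x ^ 2) := ho.1.integrable_sq
    have i3 : Integrable (fun x => e x * o x) := he.1.integrable_mul ho.1
    have e4 : ∀ x, (e x + o x) ^ 2 = (e x ^ 2 + o x ^ 2) + 2 * (e x * o x) := fun x => by ring
    simp_rw [e4]
    have i12 : Integrable (fun x => e x ^ 2 + o x ^ 2) := i1.add i2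
    rw [integral_add i12 (i3.const_mul 2), integral_add i1 i2, integral_const_mul, o3]
    ring

theorem split3 (a b d : ℂ → ℝ) (ha : Good a) (hb : Good b) (hd : Good d)
    (h1 : ∀ x, a x * b x = 0) (h2 : ∀ x, a x * d x = 0) (h3 : ∀ x, b x * d x = 0) :
    ∫ x, (a x + b x + d x) ^ 2 = (∫ x, a x ^ 2) + (∫ x, b x ^ 2) + ∫ x, d x ^ 2 ∧
    ∫ x, (a x + b x - d x) ^ 2 = (∫ x, a x ^ 2) + (∫ x, b x ^ 2) + ∫ x, d x ^ 2 := by
  have i1 : Integrable (fun x => a x ^ 2) := ha.1.integrable_sq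
  have i2 : Integrable (fun x => b x ^ 2) := hb.1.integrable_sq
  have i3 : Integrable (fun x => d x ^ 2) := hd.1.integrable_sq
  have e1 : ∀ x, (a x + b x + d x) ^ 2 = a x ^ 2 + b x ^ 2 + d x ^ 2 := fun x => by
    linear_combination 2 * h1 x + 2 * h2 x + 2 * h3 x
  have e2 : ∀ x, (a x + b x - d x) ^ 2 = a x ^ 2 + b x ^ 2 + d x ^ 2 := fun x => by
    linear_combination 2 * h1 x - 2 * h2 x - 2 * h3 x
  simp_rw [e1, e2]
  have i12 : Integrable (fun x => a x ^ 2 + b x ^ 2) := i1.add i2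
  rw [integral_add i12 i3, integral_add i1 i2]
  exact ⟨rfl, rfl⟩

theorem core (hVpos : TaskVpos) (hBil : TaskBil) (hOrth : TaskOrth) (hKey : TaskKey)
    (hDecomp : TaskDecomp) (hRefl : TaskRefl) (n : ℂ) (c : ℝ) (hn : ‖n‖ = 1) (Ω : Set ℂ)
    (hΩ : IsOpen Ω) (hb : Bornology.IsBounded Ω) (l : ℝ) (v : ℂ → ℝ) (hl : l < 0)
    (hv : IsEig (polar n c Ω) l v) (hpos : 0 ≤ ∫ x, v x) :
    ∃ u, In Ω u ∧ (¬ u =ᵐ[volume] 0) ∧ En u u ≤ l * ∫ x, u x ^ 2 := by
  have hv0 := hVpos _ l v (polar_meas hRefl n c hn Ω hΩ) (polar_bdd hRefl n c hn Ω hb) hl hv hpos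
  obtain ⟨A, e, α, β, γ, hA1, hA2, hA3, he, hα, hβ, hγ, hev, he', hα', hβ', hγ', hβ0, hγ0, hβγA,
    hβγ, hsum, hIn⟩ := hDecomp n c hn Ω hΩ hb v hv.1 hv0
  obtain ⟨α', hα'In, hα'odd, hkey⟩ := hKey n c hn A hA1 hA2 hA3 α β γ hα hβ hγ hα' hβ' hγ' hβ0 hγ0
    hβγA (-l) (by linarith)
  have gα : Good α := good_of_in hA2 hα
  have gα' : Good α' := good_of_in hA2 hα'In
  have go : Good (fun x => α x + β x + γ x) := good_add (good_add gα hβ) hγ
  have go' : Good (fun x => α' x + β x - γ x) := good_sub (good_add gα' hβ) hγ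
  have oo : ∀ x, (fun x => α x + β x + γ x) (refl n c x) = - (fun x => α x + β x + γ x) x :=
    fun x => by
      show α (refl n c x) + β (refl n c x) + γ (refl n c x) = - (α x + β x + γ x)
      rw [hα', hβ', hγ']; ring
  have oo' : ∀ x, (fun x => α' x + β x - γ x) (refl n c x) = - (fun x => α' x + β x - γ x) x :=
    fun x => by
      show α' (refl n c x) + β (refl n c x) - γ (refl n c x) = - (α' x + β x - γ x)
      rw [hα'odd, hβ', hγ']; ring
  obtain ⟨s1, s2⟩ := split hBil hOrth n c hn e _ he go he' oo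
  obtain ⟨s1', s2'⟩ := split hBil hOrth n c hn e _ he go' he' oo'
  have z1 : ∀ (a : ℂ → ℝ), In A a → ∀ x, a x * β x = 0 ∧ a x * γ x = 0 := by
    intro a ha x
    by_cases hx : x ∈ A
    · rw [(hβγA x hx).1, (hβγA x hx).2]; simp
    · rw [ha.2 x hx]; simp
  have t := (split3 α β γ gα hβ hγ (fun x => (z1 α hα x).1) (fun x => (z1 α hα x).2) hβγ).1
  have t' := (split3 α' β γ gα' hβ hγ (fun x => (z1 α' hα'In x).1) (fun x => (z1 α' hα'In x).2)
    hβγ).2
  have hveq : v = fun x => e x + (α x + β x + γ x) := funext hsum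
  have hEv := En_self hv
  have hvv : En v v = En e e + En (fun x => α x + β x + γ x) (fun x => α x + β x + γ x) := by
    rw [hveq]; exact s1
  have hv2 : ∫ x, v x ^ 2 = (∫ x, e x ^ 2) + ∫ x, (α x + β x + γ x) ^ 2 := by
    simp_rw [hsum]; exact s2
  refine ⟨fun x => e x + (α' x + β x - γ x), hIn α' hα'In, ?_, ?_⟩
  · intro h0
    apply hv.2.1
    obtain ⟨h1, h2, h3, h4, h5, h6, h7⟩ := hRefl n c hn
    have h0' : ∀ᵐ x, e (refl n c x) + (α' (refl n c x) + β (refl n c x) - γ (refl n c x)) = 0 :=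
      h5.quasiMeasurePreserving.ae h0
    have hv0' : ∀ᵐ x, 0 ≤ v (refl n c x) := h5.quasiMeasurePreserving.ae hv0
    filter_upwards [h0, h0', hv0, hv0'] with x a1 a2 a3 a4
    have a1' : e x + (α' x + β x - γ x) = 0 := a1
    rw [he', hα'odd, hβ', hγ'] at a2
    have a5 := hev x
    show v x = 0
    linarith
  · show En (fun x => e x + (α' x + β x - γ x)) (fun x => e x + (α' x + β x - γ x)) ≤
      l * ∫ x, (e x + (α' x + β x - γ x)) ^ 2
    rw [s1', s2', t']
    rw [hvv, hv2, t] at hEv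
    nlinarith

theorem main (hVpos : TaskVpos) (hBil : TaskBil) (hOrth : TaskOrth) (hKey : TaskKey)
    (hDecomp : TaskDecomp) (hRefl : TaskRefl) : Pool.Agent.Q40.LP.TaskTest := by
  intro n c hn Ω hΩ hb l v hl hv
  rcases le_or_gt 0 (∫ x, v x) with h | h
  · exact core hVpos hBil hOrth hKey hDecomp hRefl n c hn Ω hΩ hb l v hl hv h
  · refine core hVpos hBil hOrth hKey hDecomp hRefl n c hn Ω hΩ hb l _ hl (eig_neg hv) ?_
    rw [integral_neg]; linarith

end Pool.Agent.Q40.LP.TaskTest
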