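import Pool.Agent.Q40.LP.Stmts2

open Set Filter Topology MeasureTheory

namespace Pool.Agent.Q40.LP.TaskThin

theorem main (h : Pool.Agent.Q40.LP.TaskBound) : Pool.Agent.Q40.LP.TaskThin := by
  intro L hL
  obtain ⟨C, hC, hB⟩ := h L hL
  refine ⟨C, hC, ?_⟩
  rintro Ω hΩ hΩL τ u ⟨⟨hu, hu0⟩, hne, heig⟩
  have hfin : volume Ω < ⊤ := by
    have hsub : Ω ⊆ Metric.closedBall 0 L := fun x hx => by
      rw [mem_closedBall_zero_iff]
      exact hΩL x hx
    exact lt_of_le_of_lt (measure_mono hsub) measure_closedBall_lt_top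
  have hint : Integrable (fun x => u x ^ 2) volume := hu.integrable_sq
  set I : ℝ := ∫ y, u y ^ 2 with hI
  have hI0 : 0 < I := by
    have h0 : 0 ≤ I := integral_nonneg fun x => sq_nonneg _
    rcases h0.eq_or_lt with h1 | h1
    · exfalso
      have h2 := (integral_eq_zero_iff_of_nonneg (fun x => sq_nonneg (u x)) hint).1 h1.symm
      apply hne
      filter_upwards [h2] with x hx
      exact pow_eq_zero_iff (two_ne_zero) |>.1 hx
    · exact h1
  have hbd := hB u hu (fun x hx => hu0 x fun hxΩ => absurd (hΩL x hxΩ) (not_le.2 hx))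
  have hpt : ∀ᵐ x, τ ^ 2 * u x ^ 2 ≤ Ω.indicator (fun _ => C ^ 2 * I) x := by
    filter_upwards [heig] with x hx
    by_cases hxΩ : x ∈ Ω
    · rw [indicator_of_mem hxΩ]
      have h1 := hbd x (hΩL x hxΩ)
      rw [hx hxΩ] at h1
      have h2 : (τ * u x) ^ 2 ≤ (C * Real.sqrt I) ^ 2 := by
        rw [← sq_abs]
        exact pow_le_pow_left₀ (abs_nonneg _) h1 2
      rw [mul_pow, mul_pow, Real.sq_sqrt hI0.le] at h2
      exact h2
    · rw [indicator_of_notMem hxΩ, hu0 x hxΩ]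
      simp
  have hmono : ∫ x, τ ^ 2 * u x ^ 2 ≤ ∫ x, Ω.indicator (fun _ => C ^ 2 * I) x := by
    refine integral_mono_ae (hint.const_mul _) ?_ hpt
    rw [integrable_indicator_iff hΩ]
    exact integrableOn_const hfin.ne
  rw [integral_const_mul, integral_indicator hΩ, setIntegral_const, smul_eq_mul, ← hI] at hmono
  have h3 : τ ^ 2 ≤ C ^ 2 * volume.real Ω := by
    have : τ ^ 2 * I ≤ (C ^ 2 * volume.real Ω) * I := by linarith
    exact le_of_mul_le_mul_right this hI0
  rw [← Real.sqrt_sq_eq_abs]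
  calc Real.sqrt (τ ^ 2) ≤ Real.sqrt (C ^ 2 * volume.real Ω) := Real.sqrt_le_sqrt h3
    _ = C * Real.sqrt (volume.real Ω) := by
        rw [Real.sqrt_mul (sq_nonneg C), Real.sqrt_sq hC.le]

end Pool.Agent.Q40.LP.TaskThin
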