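import Pool.Agent.Q40.LP.Stmts

open Set Filter Topology MeasureTheory

namespace Pool.Agent.Q40.LP.TaskVpos

theorem main (h1 : TaskCont) (h2 : TaskInf) (h3 : TaskMP) (h4 : TaskSub) :
    Pool.Agent.Q40.LP.TaskVpos := by
  intro Ω τ v _ hb hτ hv hM
  obtain ⟨⟨hL, h0⟩, _, heig⟩ := hv
  have hg : Good v := by
    refine ⟨hL, ?_⟩
    obtain ⟨R, hR⟩ := hb.subset_closedBall (0 : ℂ)
    refine ⟨R, fun x hx => h0 x fun hxΩ => ?_⟩
    have := hR hxΩ
    rw [mem_closedBall_zero_iff] at this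
    linarith
  have hc : Continuous (pot v) := h1 v hg
  have hw : ∀ x, pot v x ≤ 0 := by
    apply h3 (pot v) hc (h2 v hg hM)
    intro x hx
    have hopen : IsOpen {y | 0 < pot v y} := isOpen_lt continuous_const hc
    obtain ⟨δ, hδ, hball⟩ := Metric.isOpen_iff.1 hopen x hx
    refine ⟨δ, hδ, fun r hr hrδ => ?_⟩
    apply h4 v hg x r hr
    filter_upwards [heig] with y hy hyb
    by_cases hyΩ : y ∈ Ω
    · have hpos : 0 < pot v y := hball (Metric.ball_subset_ball hrδ.le hyb)
      have := hy hyΩ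
      rw [this] at hpos
      by_contra hcon
      push Not at hcon
      have : τ * v y ≤ 0 := mul_nonpos_of_nonpos_of_nonneg hτ.le hcon.le
      linarith
    · rw [h0 y hyΩ]
  filter_upwards [heig] with x hx
  by_cases hxΩ : x ∈ Ω
  · have h5 := hw x
    rw [hx hxΩ] at h5
    by_contra hcon
    push Not at hcon
    have : 0 < τ * v x := mul_pos_of_neg_of_neg hτ hcon
    linarith
  · rw [h0 x hxΩ]

end Pool.Agent.Q40.LP.TaskVpos
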